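import Pool.Agent.LibRCAK.Twist
/-!
Concatenation of curves, homology classes, reachability.
-/
set_option autoImplicit false
open scoped Manifold ContDiff Topology RealInnerProductSpace
open Bundle Set

namespace Pool.Agent.LibRCAK

theorem H2map_congr {X Y : Type} [TopologicalSpace X] [TopologicalSpace Y] {f g : C(X, Y)}
    (h : ContinuousMap.Homotopic f g) : H2map f = H2map g := by
  obtain ⟨F⟩ := h
  have F' : TopCat.Homotopy (TopCat.ofHom f) (TopCat.ofHom g) := F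
  exact F'.congr_homologyMap_singularChainComplexFunctor (ModuleCat.of ℤ ℤ) 2

section
variable {E : Type*} [NormedAddCommGroup E] [NormedSpace ℝ E] {H : Type*} [TopologicalSpace H]
  {I : ModelWithCorners ℝ E H} {X : Type} [TopologicalSpace X]
  [ChartedSpace H X] [IsManifold I ∞ X]

/-- `x` and `y` lie on a rational curve of class `A`. -/
def OnCurveS (K : AlmostKahler I X) (c : H2 S2) (A : H2 X) (x y : X) : Prop :=
  ∃ l : List C(S2, X),
    (∀ u ∈ l, IsJHolS K u ∧ Function.Injective u) ∧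
    IsConnected (⋃ u ∈ l, Set.range u) ∧
    l.IsChain (fun u v : C(S2, X) => (Set.range u ∩ Set.range v).Nonempty) ∧
    (∃ u ∈ l.head?, x ∈ Set.range u) ∧ (∃ v ∈ l.getLast?, y ∈ Set.range v) ∧
    (l.map fun u => (H2map u).hom c).sum = A

/-- the condition (RC_A). -/
def RCS (K : AlmostKahler I X) (c : H2 S2) (A : H2 X) : Prop :=
  ∀ x y : X, OnCurveS K c A x y

instance : PreconnectedSpace S2 := by
  have h : IsPreconnected (Metric.sphere (0 : E3) 1) := by
    refine isPreconnected_sphere ?_ _ _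
    rw [← Module.finrank_eq_rank]
    norm_num
  exact isPreconnected_iff_preconnectedSpace.1 h

theorem OnCurveS.single {K : AlmostKahler I X} {c : H2 S2} (u : C(S2, X)) (hu : IsJHolS K u)
    (hi : Function.Injective u) {x y : X} (hx : x ∈ Set.range u) (hy : y ∈ Set.range u) :
    OnCurveS K c ((H2map u).hom c) x y := by
  refine ⟨[u], ?_, ?_, ?_, ?_, ?_, ?_⟩
  · intro v hv
    rw [List.mem_singleton] at hv
    subst hv
    exact ⟨hu, hi⟩
  · simp only [List.mem_singleton, Set.iUnion_iUnion_eq_left]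
    exact ⟨⟨x, hx⟩, isPreconnected_range u.continuous⟩
  · simp
  · exact ⟨u, by simp, hx⟩
  · exact ⟨u, by simp, hy⟩
  · simp

theorem OnCurveS.trans {K : AlmostKahler I X} {c : H2 S2} {A B : H2 X} {x y z : X}
    (h1 : OnCurveS K c A x y) (h2 : OnCurveS K c B y z) : OnCurveS K c (A + B) x z := by
  obtain ⟨l, hu, cu, chu, ⟨u₀, hu₀, xu⟩, ⟨u₁, hu₁, yu⟩, su⟩ := h1
  obtain ⟨m, hv, cv, chv, ⟨v₀, hv₀, yv⟩, ⟨v₁, hv₁, zv⟩, sv⟩ := h2
  refine ⟨l ++ m, ?_, ?_, ?_, ?_, ?_, ?_⟩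
  · intro w hw
    rcases List.mem_append.1 hw with h | h
    · exact hu w h
    · exact hv w h
  · have hun : (⋃ u ∈ l ++ m, Set.range (u : C(S2, X))) =
        (⋃ u ∈ l, Set.range (u : C(S2, X))) ∪ (⋃ u ∈ m, Set.range (u : C(S2, X))) := by
      ext t
      simp only [Set.mem_iUnion, Set.mem_union, List.mem_append]
      constructor
      · rintro ⟨w, hw | hw, h⟩
        · exact Or.inl ⟨w, hw, h⟩
        · exact Or.inr ⟨w, hw, h⟩
      · rintro (⟨w, hw, h⟩ | ⟨w, hw, h⟩)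
        · exact ⟨w, Or.inl hw, h⟩
        · exact ⟨w, Or.inr hw, h⟩
    rw [hun]
    have m1 : u₁ ∈ l := List.mem_of_getLast? hu₁
    have m2 : v₀ ∈ m := List.mem_of_head? hv₀
    exact cu.union ⟨y, Set.mem_iUnion₂.2 ⟨u₁, m1, yu⟩, Set.mem_iUnion₂.2 ⟨v₀, m2, yv⟩⟩ cv
  · rw [List.isChain_append]
    refine ⟨chu, chv, ?_⟩
    intro a ha b hb
    have e1 : a = u₁ := Option.mem_unique ha hu₁
    have e2 : b = v₀ := Option.mem_unique hb hv₀
    subst e1
    subst e2
    exact ⟨y, yu, yv⟩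
  · refine ⟨u₀, ?_, xu⟩
    rw [List.head?_append]
    rw [Option.mem_def] at hu₀
    rw [hu₀]
    rfl
  · refine ⟨v₁, ?_, zv⟩
    rw [List.getLast?_append]
    rw [Option.mem_def] at hv₁
    rw [hv₁]
    rfl
  · rw [List.map_append, List.sum_append, su, sv]

end

/-- A compactness lemma: locally uniform reachability implies uniform reachability. -/
theorem uniform_reach_aux {Y : Type*} [TopologicalSpace Y] [CompactSpace Y] [PreconnectedSpace Y]
    (C : ℕ → Y → Y → Prop) (h1 : ∀ x, C 1 x x)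
    (htr : ∀ k l x y z, C k x y → C l y z → C (k + l) x z)
    (n : ℕ) (hloc : ∀ y₀ : Y, ∃ W ∈ 𝓝 y₀, ∀ x ∈ W, ∀ y ∈ W, C n x y) (x₀ : Y) :
    ∃ k, ∀ y, C k x₀ y := by
  have hmono : ∀ k l x y, k ≤ l → C k x y → C l x y := by
    intro k l x y hkl h
    obtain ⟨m, rfl⟩ := Nat.exists_eq_add_of_le hkl
    clear hkl
    induction m with
    | zero => exact h
    | succ m ih => exact htr (k + m) 1 x y y ih (h1 y)
  have hopen : IsOpen {y | ∃ k, C k x₀ y} := by
    rw [isOpen_iff_mem_nhds]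
    rintro y ⟨k, hk⟩
    obtain ⟨W, hW, hWC⟩ := hloc y
    refine Filter.mem_of_superset hW fun z hz => ⟨k + n, ?_⟩
    exact htr k n x₀ y z hk (hWC y (mem_of_mem_nhds hW) z hz)
  have hclosed : IsClosed {y | ∃ k, C k x₀ y} := by
    rw [← isOpen_compl_iff, isOpen_iff_mem_nhds]
    intro y hy
    obtain ⟨W, hW, hWC⟩ := hloc y
    refine Filter.mem_of_superset hW fun z hz => ?_
    rintro ⟨k, hk⟩
    exact hy ⟨k + n, htr k n x₀ z y hk (hWC z hz y (mem_of_mem_nhds hW))⟩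
  have huniv : {y | ∃ k, C k x₀ y} = univ :=
    IsClopen.eq_univ ⟨hclosed, hopen⟩ ⟨x₀, 1, h1 x₀⟩
  choose W hW hWC using hloc
  obtain ⟨t, ht⟩ := CompactSpace.elim_nhds_subcover W hW
  have hk : ∀ y, ∃ k, C k x₀ y := fun y => by
    have : y ∈ {y | ∃ k, C k x₀ y} := by rw [huniv]; trivial
    exact this
  choose k hk using hk
  refine ⟨t.sup k + n, fun y => ?_⟩
  have hy : y ∈ ⋃ x ∈ t, W x := by rw [ht]; trivial
  simp only [mem_iUnion] at hy
  obtain ⟨x, hx, hyx⟩ := hy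
  exact htr _ n x₀ x y (hmono (k x) _ x₀ x (Finset.le_sup (f := k) hx) (hk x))
    (hWC x x (mem_of_mem_nhds (hW x)) y hyx)

theorem uniform_reach {Y : Type*} [TopologicalSpace Y] [CompactSpace Y] [PreconnectedSpace Y]
    (C : ℕ → Y → Y → Prop) (h1 : ∀ x, C 1 x x)
    (htr : ∀ k l x y z, C k x y → C l y z → C (k + l) x z)
    (n : ℕ) (hloc : ∀ y₀ : Y, ∃ W ∈ 𝓝 y₀, ∀ x ∈ W, ∀ y ∈ W, C n x y) :
    ∃ k, ∀ x y, C k x y := by
  rcases isEmpty_or_nonempty Y with hY | ⟨⟨x₀⟩⟩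
  · exact ⟨0, fun x => (hY.false x).elim⟩
  · obtain ⟨k, hk⟩ := uniform_reach_aux C h1 htr n hloc x₀
    obtain ⟨l, hl⟩ := uniform_reach_aux (fun k x y => C k y x) h1
      (fun k l x y z hxy hyz => by
        rw [add_comm]
        exact htr l k z y x hyz hxy) n
      (fun y₀ => by
        obtain ⟨W, hW, h⟩ := hloc y₀
        exact ⟨W, hW, fun x hx y hy => h y hy x hx⟩) x₀
    exact ⟨l + k, fun x y => htr l k x x₀ y (hl x) (hk y)⟩

/-- points of the sphere -/
noncomputable def mkS2 (a b c : ℝ) (h : a * a + b * b + c * c = 1) : S2 :=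
  ⟨!₂[a, b, c], by
    rw [mem_sphere_zero_iff_norm, EuclideanSpace.norm_eq, Real.sqrt_eq_one]
    simp only [Fin.sum_univ_three, Real.norm_eq_abs, sq_abs]
    show a ^ 2 + b ^ 2 + c ^ 2 = 1
    rw [← h]; ring⟩

theorem mkS2_0 (a b c : ℝ) (h : a * a + b * b + c * c = 1) : (mkS2 a b c h : E3) 0 = a := rfl
theorem mkS2_1 (a b c : ℝ) (h : a * a + b * b + c * c = 1) : (mkS2 a b c h : E3) 1 = b := rfl
theorem mkS2_2 (a b c : ℝ) (h : a * a + b * b + c * c = 1) : (mkS2 a b c h : E3) 2 = c := rfl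

/-- north pole -/
noncomputable def NP : S2 := mkS2 0 0 1 (by norm_num)
/-- south pole -/
noncomputable def SP : S2 := mkS2 0 0 (-1) (by norm_num)

theorem contMDiff_coord (i : Fin 3) : ContMDiff (𝓡 2) 𝓘(ℝ, ℝ) ∞ (fun p : S2 => (p : E3) i) :=
  ((EuclideanSpace.proj i : E3 →L[ℝ] ℝ).contDiff.contMDiff).comp contMDiff_coe_S2

/-- Finitely many smooth functions on the sphere which can be controlled one by one. -/
theorem exists_coeff (ι : Type*) [Fintype ι] [DecidableEq ι] :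
    ∃ c : ι → S2 → ℝ, (∀ i, ContMDiff (𝓡 2) 𝓘(ℝ, ℝ) ∞ (c i)) ∧ (∀ i, c i NP = 0) ∧
      ∀ i, ∀ s : ℝ, |s| ≤ 1 / 4 → ∃ f : S2, ∀ j, c j f = if j = i then s else 0 := by
  classical
  let e := Fintype.equivFin ι
  let v : ι → ℝ := fun i => 1 / (((e i : ℕ) : ℝ) + 2)
  have hv : Function.Injective v := by
    intro i j h
    have h1 : (0 : ℝ) < ((e i : ℕ) : ℝ) + 2 := by positivity
    have h2 : (0 : ℝ) < ((e j : ℕ) : ℝ) + 2 := by positivity
    have h3 : ((e i : ℕ) : ℝ) + 2 = ((e j : ℕ) : ℝ) + 2 := by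
      have h4 : 1 / (((e i : ℕ) : ℝ) + 2) = 1 / (((e j : ℕ) : ℝ) + 2) := h
      field_simp at h4
      linarith
    have h5 : ((e i : ℕ) : ℝ) = ((e j : ℕ) : ℝ) := by linarith
    exact e.injective (Fin.ext (Nat.cast_injective h5))
  have hv0 : ∀ i, 0 < v i := fun i => by positivity
  have hv1 : ∀ i, v i ≤ 1 / 2 := fun i => by
    show 1 / (((e i : ℕ) : ℝ) + 2) ≤ 1 / 2
    apply one_div_le_one_div_of_le (by norm_num)
    have : (0 : ℝ) ≤ ((e i : ℕ) : ℝ) := by positivity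
    linarith
  refine ⟨fun i f => (f : E3) 1 * (Lagrange.basis Finset.univ v i).eval ((f : E3) 0), ?_, ?_, ?_⟩
  · intro i
    have h1 : ContDiff ℝ ∞ (fun x : ℝ => (Lagrange.basis Finset.univ v i).eval x) := by
      have := Polynomial.contDiff_aeval (𝕜 := ℝ) (Lagrange.basis Finset.univ v i) ∞
      simpa [Polynomial.aeval_def, Polynomial.eval₂_eq_eval_map] using this
    exact (contMDiff_coord 1).mul (h1.contMDiff.comp (contMDiff_coord 0))
  · intro i
    show (NP : E3) 1 * _ = 0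
    rw [NP, mkS2_1, zero_mul]
  · intro i s hs
    have hs2 : s * s ≤ 1 / 16 := by
      have := abs_le.1 hs
      nlinarith [this.1, this.2]
    have hpos : 0 ≤ 1 - v i * v i - s * s := by nlinarith [hv0 i, hv1 i]
    refine ⟨mkS2 (v i) s (Real.sqrt (1 - v i * v i - s * s)) ?_, fun j => ?_⟩
    · rw [Real.mul_self_sqrt hpos]; ring
    · show (mkS2 _ _ _ _ : E3) 1 * (Lagrange.basis Finset.univ v j).eval ((mkS2 _ _ _ _ : E3) 0) = _
      rw [mkS2_1, mkS2_0]
      by_cases hji : j = i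
      · subst hji
        rw [Lagrange.eval_basis_self (hv.injOn) (Finset.mem_univ _)]
        simp
      · rw [Lagrange.eval_basis_of_ne hji (Finset.mem_univ _), if_neg hji, mul_zero]

section
variable {Y : Type} [TopologicalSpace Y]

/-- fibre spheres -/
def FFm (z : S2) (w : Y) : C(S2, S2 × (S2 × Y)) :=
  (ContinuousMap.const S2 z).prodMk ((ContinuousMap.id S2).prodMk (ContinuousMap.const S2 w))

/-- leaf spheres -/
def ZZm (f : S2) (g : C(S2, Y)) : C(S2, S2 × (S2 × Y)) :=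
  (ContinuousMap.id S2).prodMk ((ContinuousMap.const S2 f).prodMk g)

theorem FFm_injective (z : S2) (w : Y) : Function.Injective (FFm z w) := by
  intro p q h
  exact congrArg (fun t : S2 × (S2 × Y) => t.2.1) h

theorem ZZm_injective (f : S2) (g : C(S2, Y)) : Function.Injective (ZZm f g) := by
  intro p q h
  exact congrArg (fun t : S2 × (S2 × Y) => t.1) h

instance : Nonempty S2 := ⟨NP⟩

instance : PathConnectedSpace S2 := by
  have h : IsPathConnected (Metric.sphere (0 : E3) 1) := by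
    refine isPathConnected_sphere ?_ _ (by norm_num)
    rw [← Module.finrank_eq_rank]
    norm_num
  exact isPathConnected_iff_pathConnectedSpace.1 h

variable [PathConnectedSpace Y]

theorem const_homotopic {A B : Type*} [TopologicalSpace A] [TopologicalSpace B] [PathConnectedSpace B]
    (b b' : B) : (ContinuousMap.const A b).Homotopic (ContinuousMap.const A b') := by
  obtain ⟨γ⟩ := PathConnectedSpace.joined b b'
  exact ⟨γ.toHomotopyConst⟩

theorem FFm_homotopic (z z' : S2) (w w' : Y) : (FFm z w).Homotopic (FFm z' w') :=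
  (const_homotopic z z').prodMk ((ContinuousMap.Homotopic.refl _).prodMk (const_homotopic w w'))

theorem nullhomotopic_homotopic {A B : Type*} [TopologicalSpace A] [TopologicalSpace B] [PathConnectedSpace B]
    {g g' : C(A, B)} (hg : g.Nullhomotopic) (hg' : g'.Nullhomotopic) : g.Homotopic g' := by
  obtain ⟨b, hb⟩ := hg
  obtain ⟨b', hb'⟩ := hg'
  exact (hb.trans (const_homotopic b b')).trans hb'.symm

theorem ZZm_homotopic (f f' : S2) (g g' : C(S2, Y)) (hg : g.Nullhomotopic) (hg' : g'.Nullhomotopic) :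
    (ZZm f g).Homotopic (ZZm f' g') :=
  (ContinuousMap.Homotopic.refl _).prodMk ((const_homotopic f f').prodMk (nullhomotopic_homotopic hg hg'))

omit [PathConnectedSpace Y] in
/-- A curve composed with the height function, as a null-homotopic map. -/
theorem height_nullhomotopic (γ : ℝ → Y) (hγ : ∀ p : S2, ContinuousAt γ ((p : E3) 2)) :
    ∃ g : C(S2, Y), (∀ p, g p = γ ((p : E3) 2)) ∧ g.Nullhomotopic := by
  have hmem : ∀ p : S2, (p : E3) 2 ∈ Set.Icc (-1 : ℝ) 1 := fun p => abs_le.1 (abs_two_le p)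
  have hsurj : ∀ t ∈ Set.Icc (-1 : ℝ) 1, ContinuousAt γ t := by
    intro t ht
    have h : t * t ≤ 1 := by nlinarith [ht.1, ht.2]
    have := hγ (mkS2 (Real.sqrt (1 - t * t)) 0 t (by
      rw [Real.mul_self_sqrt (by linarith)]; ring))
    exact this
  let γ' : C(Set.Icc (-1 : ℝ) 1, Y) := ⟨fun t => γ t, by
    rw [continuous_iff_continuousAt]
    intro t
    exact (hsurj t t.2).comp continuous_subtype_val.continuousAt⟩
  let h : C(S2, Set.Icc (-1 : ℝ) 1) := ⟨fun p => ⟨(p : E3) 2, hmem p⟩, by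
    refine Continuous.subtype_mk ?_ _
    exact (contMDiff_coord 2).continuous⟩
  refine ⟨γ'.comp h, fun p => rfl, ?_⟩
  have hc : ContractibleSpace (Set.Icc (-1 : ℝ) 1) :=
    (convex_Icc (-1 : ℝ) 1).contractibleSpace ⟨0, by norm_num, by norm_num⟩
  have h1 := (id_nullhomotopic (Set.Icc (-1 : ℝ) 1)).comp_right γ'
  have h2 := h1.comp_left h
  exact h2

end

section
variable {E : Type*} [NormedAddCommGroup E] [NormedSpace ℝ E] {H : Type*} [TopologicalSpace H]
  {I : ModelWithCorners ℝ E H} {Y : Type} [TopologicalSpace Y]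
  [ChartedSpace H Y] [IsManifold I ∞ Y] [I.Boundaryless] [FiniteDimensional ℝ E]
  [PathConnectedSpace Y]
variable (K : AlmostKahler I Y) (ξ : S2 → ∀ y : Y, TangentSpace I y)
    (hξ : ContMDiff ((𝓡 2).prod I) I.tangent ∞
      (fun p : S2 × Y => (⟨p.2, ξ p.1 p.2⟩ : TangentBundle I Y)))
    (c : H2 S2) (w₀ : Y)

/-- the class of the fibre spheres -/
noncomputable def clF : H2 (S2 × (S2 × Y)) := (H2map (FFm NP w₀)).hom c
/-- the class of the leaf spheres -/
noncomputable def clZ : H2 (S2 × (S2 × Y)) := (H2map (ZZm NP (ContinuousMap.const S2 w₀))).hom c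

theorem onF (z f f' : S2) (w : Y) :
    OnCurveS (twisted K ξ hξ) c (clF c w₀) (z, (f, w)) (z, (f', w)) := by
  have h : H2map (FFm NP w₀) = H2map (FFm z w) := H2map_congr (FFm_homotopic _ _ _ _)
  rw [clF, h]
  exact OnCurveS.single (FFm z w) (isJHol_fiber K ξ hξ z w) (FFm_injective z w) ⟨f, rfl⟩ ⟨f', rfl⟩

theorem onZ (f : S2) (γ : ℝ → Y) (hγ : ∀ p : S2, ContMDiffAt 𝓘(ℝ, ℝ) I ∞ γ ((p : E3) 2))
    (hγ' : ∀ p : S2, mfderiv 𝓘(ℝ, ℝ) I γ ((p : E3) 2) (1 : ℝ) = ξ f (γ ((p : E3) 2))) (p q : S2) :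
    OnCurveS (twisted K ξ hξ) c (clZ c w₀) (p, (f, γ ((p : E3) 2))) (q, (f, γ ((q : E3) 2))) := by
  obtain ⟨g, hg, hgn⟩ := height_nullhomotopic γ (fun p => (hγ p).continuousAt)
  have h : H2map (ZZm NP (ContinuousMap.const S2 w₀)) = H2map (ZZm f g) :=
    H2map_congr (ZZm_homotopic _ _ _ _ (ContinuousMap.nullhomotopic_of_constant w₀) hgn)
  rw [clZ, h]
  have e : (ZZm f g : S2 → S2 × (S2 × Y)) = fun p : S2 => (p, (f, γ ((p : E3) 2))) := by
    funext p
    show (p, (f, g p)) = _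
    rw [hg]
  have hJ : IsJHolS (twisted K ξ hξ) (ZZm f g) := by
    rw [e]
    exact isJHol_leaf K ξ hξ f γ hγ hγ'
  refine OnCurveS.single (ZZm f g) hJ (ZZm_injective f g) ⟨p, ?_⟩ ⟨q, ?_⟩
  · rw [e]
  · rw [e]

theorem onZ_const (hN : ∀ y, ξ NP y = 0) (z z' : S2) (w : Y) :
    OnCurveS (twisted K ξ hξ) c (clZ c w₀) (z, (NP, w)) (z', (NP, w)) := by
  refine onZ K ξ hξ c w₀ NP (fun _ => w) (fun p => contMDiffAt_const) (fun p => ?_) z z'
  rw [mfderiv_const, hN]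
  rfl

/-- `k`-fold reachability -/
def Reach (k : ℕ) (x y : Y) : Prop :=
  OnCurveS (twisted K ξ hξ) c (k • (clF c w₀ + clZ c w₀ + clF c w₀ + clZ c w₀))
    (SP, (NP, x)) (SP, (NP, y))

omit [PathConnectedSpace Y] in
theorem Reach.trans {k l : ℕ} {x y z : Y} (h1 : Reach K ξ hξ c w₀ k x y)
    (h2 : Reach K ξ hξ c w₀ l y z) : Reach K ξ hξ c w₀ (k + l) x z := by
  unfold Reach at *
  rw [add_smul]
  exact h1.trans h2

theorem Reach.move (hN : ∀ y, ξ NP y = 0) (f : S2) (γ : ℝ → Y)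
    (hγ : ∀ t : ℝ, |t| ≤ 1 → ContMDiffAt 𝓘(ℝ, ℝ) I ∞ γ t)
    (hγ' : ∀ t : ℝ, |t| ≤ 1 → mfderiv 𝓘(ℝ, ℝ) I γ t (1 : ℝ) = ξ f (γ t)) :
    Reach K ξ hξ c w₀ 1 (γ (-1)) (γ 1) := by
  unfold Reach
  rw [one_smul]
  refine OnCurveS.trans (OnCurveS.trans (OnCurveS.trans
    (onF K ξ hξ c w₀ SP NP f (γ (-1)))
    (onZ K ξ hξ c w₀ f γ (fun p => hγ _ (abs_two_le p)) (fun p => hγ' _ (abs_two_le p)) SP NP))
    (onF K ξ hξ c w₀ NP f NP (γ 1)))
    (onZ_const K ξ hξ c w₀ hN NP SP (γ 1))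

theorem Reach.refl (hN : ∀ y, ξ NP y = 0) (x : Y) : Reach K ξ hξ c w₀ 1 x x :=
  Reach.move K ξ hξ c w₀ hN NP (fun _ => x) (fun _ _ => contMDiffAt_const)
    (fun t _ => by rw [mfderiv_const, hN]; rfl)

theorem RC_of_reach (hN : ∀ y, ξ NP y = 0) (k : ℕ) (h : ∀ x y, Reach K ξ hξ c w₀ k x y) :
    ∃ A, RCS (twisted K ξ hξ) c A := by
  refine ⟨clF c w₀ + clZ c w₀ + k • (clF c w₀ + clZ c w₀ + clF c w₀ + clZ c w₀) + clZ c w₀ + clF c w₀,
    ?_⟩
  rintro ⟨z, f, w⟩ ⟨z', f', w'⟩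
  exact ((((onF K ξ hξ c w₀ z f NP w).trans (onZ_const K ξ hξ c w₀ hN z SP w)).trans (h w w')).trans
    (onZ_const K ξ hξ c w₀ hN SP z' w')).trans (onF K ξ hξ c w₀ z' NP f' w')

end

end Pool.Agent.LibRCAK
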