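import Mathlib
/-!
# Almost Kähler manifolds and rational `J`-holomorphic curves

Definitions used in the statement of `Pool.Agent.Results.MP_3c8839_gt`.
-/
set_option autoImplicit false
open scoped Manifold ContDiff Topology RealInnerProductSpace
open Bundle Set

namespace Pool.Agent.LibRCAK

/-! ## Symplectic forms and compatible almost complex structures -/

section
variable {E : Type*} [NormedAddCommGroup E] [NormedSpace ℝ E] {H : Type*} [TopologicalSpace H]
  (I : ModelWithCorners ℝ E H) {X : Type*} [TopologicalSpace X] [ChartedSpace H X]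

/-- The coefficient `y ↦ Ω(∂_v, ∂_w)` of a 2-form `Ω` in the preferred chart at `x₀`
(`v` and `w` are constant vector fields in the chart). -/
noncomputable def coordForm
    (Ω : ∀ x : X, TangentSpace I x →L[ℝ] TangentSpace I x →L[ℝ] ℝ)
    (x₀ : X) (v w : E) (y : E) : ℝ :=
  Ω ((extChartAt I x₀).symm y)
    (mfderiv 𝓘(ℝ, E) I (extChartAt I x₀).symm y v)
    (mfderiv 𝓘(ℝ, E) I (extChartAt I x₀).symm y w)

/-- `Ω` is a smooth closed 2-form: it is alternating, its coefficients in charts are smooth, and
`dΩ(∂_u, ∂_v, ∂_w) = ∂_u Ω(∂_v, ∂_w) + ∂_v Ω(∂_w, ∂_u) + ∂_w Ω(∂_u, ∂_v)` vanishes in charts. -/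
structure IsClosedForm (Ω : ∀ x : X, TangentSpace I x →L[ℝ] TangentSpace I x →L[ℝ] ℝ) : Prop where
  alt : ∀ x v, Ω x v v = 0
  smooth : ∀ (x₀ : X) (v w : E), ContDiffOn ℝ ∞ (coordForm I Ω x₀ v w) (extChartAt I x₀).target
  closed : ∀ (x₀ : X) (u v w : E), ∀ y ∈ (extChartAt I x₀).target,
    fderiv ℝ (coordForm I Ω x₀ v w) y u + fderiv ℝ (coordForm I Ω x₀ w u) y v
      + fderiv ℝ (coordForm I Ω x₀ u v) y w = 0

end

section
variable {E : Type*} [NormedAddCommGroup E] [NormedSpace ℝ E] {H : Type*} [TopologicalSpace H]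

/-- An almost Kähler structure on the manifold `X`: a smooth closed 2-form `Ω` and a smooth almost
complex structure `J` which are compatible, i.e. `Ω(J v, J w) = Ω(v, w)` and `Ω(v, J v) > 0` for
`v ≠ 0` (so `Ω` is nondegenerate, i.e. a symplectic form, and `Ω(·, J ·)` is a Riemannian metric).
`J` is not assumed to be integrable. -/
structure AlmostKahler (I : ModelWithCorners ℝ E H) (X : Type*) [TopologicalSpace X]
    [ChartedSpace H X] [IsManifold I ∞ X] where
  Ω : ∀ x : X, TangentSpace I x →L[ℝ] TangentSpace I x →L[ℝ] ℝ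
  J : ∀ x : X, TangentSpace I x →L[ℝ] TangentSpace I x
  isClosedForm : IsClosedForm I Ω
  smooth_J : ContMDiff I.tangent I.tangent ∞
    (fun p : TangentBundle I X => (⟨p.1, J p.1 p.2⟩ : TangentBundle I X))
  J_J : ∀ (x : X) (v : TangentSpace I x), J x (J x v) = -v
  Ω_J_J : ∀ (x : X) (v w : TangentSpace I x), Ω x (J x v) (J x w) = Ω x v w
  Ω_pos : ∀ (x : X) (v : TangentSpace I x), v ≠ 0 → 0 < Ω x v (J x v)

/-! ## `J`-holomorphic maps from the Riemann sphere -/

/-- The Riemann sphere `ℂ ∪ {∞}`; its two complex charts are `z` and `w = 1/z`. -/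
abbrev P1 : Type := OnePoint ℂ

/-- The inverse `ℂ → P1`, `w ↦ 1/w`, of the chart at infinity. -/
noncomputable def atInfty (w : ℂ) : P1 := if w = 0 then OnePoint.infty else ((w⁻¹ : ℂ) : P1)

variable {I : ModelWithCorners ℝ E H} {X : Type*} [TopologicalSpace X]
  [ChartedSpace H X] [IsManifold I ∞ X]

/-- `v : ℂ → X` is a `J`-holomorphic map: it is smooth and `dv(i w) = J (dv w)`. -/
structure IsJHolC (K : AlmostKahler I X) (v : ℂ → X) : Prop where
  smooth : ContMDiff 𝓘(ℝ, ℂ) I ∞ v
  holo : ∀ z w : ℂ, mfderiv 𝓘(ℝ, ℂ) I v z (Complex.I * w : ℂ) = K.J (v z) (mfderiv 𝓘(ℝ, ℂ) I v z w)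

/-- `u : P1 → X` is a `J`-holomorphic map: it is so in the two complex charts of `P1`. -/
structure IsJHol (K : AlmostKahler I X) (u : P1 → X) : Prop where
  chart_zero : IsJHolC K (fun z : ℂ => u (z : P1))
  chart_infty : IsJHolC K (fun w : ℂ => u (atInfty w))

end

/-! ## Homology classes and the condition (RC) -/

/-- Singular homology `H_2(X; ℤ)`. -/
noncomputable def H2 (X : Type) [TopologicalSpace X] : ModuleCat.{0} ℤ :=
  ((AlgebraicTopology.singularHomologyFunctor (ModuleCat.{0} ℤ) 2).obj (ModuleCat.of ℤ ℤ)).obj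
    (TopCat.of X)

/-- The map `f_* : H_2(X; ℤ) → H_2(Y; ℤ)` induced by a continuous map. -/
noncomputable def H2map {X Y : Type} [TopologicalSpace X] [TopologicalSpace Y] (f : C(X, Y)) :
    H2 X ⟶ H2 Y :=
  ((AlgebraicTopology.singularHomologyFunctor (ModuleCat.{0} ℤ) 2).obj (ModuleCat.of ℤ ℤ)).map
    (TopCat.ofHom f)

section
variable {E : Type*} [NormedAddCommGroup E] [NormedSpace ℝ E] {H : Type*} [TopologicalSpace H]
  {I : ModelWithCorners ℝ E H} {X : Type} [TopologicalSpace X]
  [ChartedSpace H X] [IsManifold I ∞ X]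

/-- `x` and `y` lie on a rational `J`-holomorphic curve of class `A`, where `c ∈ H_2(P1; ℤ)` plays
the role of the fundamental class `[P1]`: there are finitely many injective
`J`-holomorphic maps `u₁, …, u_k : P1 → X` such that the union of their images
is connected, consecutive images meet (so the curve is a chain of spheres), `x` is on the
first sphere, `y` is on the last one, and `∑ (u_i)_* c = A`. -/
def OnCurve (K : AlmostKahler I X) (c : H2 P1) (A : H2 X) (x y : X) : Prop :=
  ∃ l : List C(P1, X),
    (∀ u ∈ l, IsJHol K u ∧ Function.Injective u) ∧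
    IsConnected (⋃ u ∈ l, Set.range u) ∧
    l.IsChain (fun u v : C(P1, X) => (Set.range u ∩ Set.range v).Nonempty) ∧
    (∃ u ∈ l.head?, x ∈ Set.range u) ∧ (∃ v ∈ l.getLast?, y ∈ Set.range v) ∧
    (l.map fun u => (H2map u).hom c).sum = A

/-- The condition (RC_A): any two points of `X` lie on a rational `J`-holomorphic curve of
class `A`; `c` is the fundamental class of `P1`. -/
def RC (K : AlmostKahler I X) (c : H2 P1) (A : H2 X) : Prop :=
  ∀ x y : X, OnCurve K c A x y

end

/-- A compact connected almost Kähler manifold without boundary: a finite-dimensional compact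
connected Hausdorff smooth manifold `X` without boundary together with an almost Kähler
structure `K` on it. -/
structure CompactAK where
  E : Type
  [normE : NormedAddCommGroup E]
  [spaceE : NormedSpace ℝ E]
  [finE : FiniteDimensional ℝ E]
  H : Type
  [topH : TopologicalSpace H]
  I : ModelWithCorners ℝ E H
  [noBoundary : I.Boundaryless]
  X : Type
  [topX : TopologicalSpace X]
  [t2X : T2Space X]
  [compactX : CompactSpace X]
  [connectedX : ConnectedSpace X]
  [chartsX : ChartedSpace H X]
  [manifoldX : IsManifold I ∞ X]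
  K : AlmostKahler I X

attribute [instance] CompactAK.normE CompactAK.spaceE CompactAK.finE CompactAK.topH
  CompactAK.noBoundary CompactAK.topX CompactAK.t2X CompactAK.compactX CompactAK.connectedX
  CompactAK.chartsX CompactAK.manifoldX

/-- `M` satisfies (RC_A) for some class `A ∈ H_2(M; ℤ)`. (The class `A` may depend on the choice
of the class `c` of `P1`, which is to be the fundamental class; this holds for every `c`.) -/
def CompactAK.RationallyConnected (M : CompactAK) : Prop :=
  ∀ c : H2 P1, ∃ A : H2 M.X, RC M.K c A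

end Pool.Agent.LibRCAK
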