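import Pool.Agent.LibRCAK.Curves
/-!
The general theorem, and fundamental groups.
-/
set_option autoImplicit false
open scoped Manifold ContDiff Topology RealInnerProductSpace
open Bundle Set

namespace Pool.Agent.LibRCAK

section
variable {E : Type*} [NormedAddCommGroup E] [NormedSpace ℝ E] {H : Type*} [TopologicalSpace H]
  {I : ModelWithCorners ℝ E H} {Y : Type*} [TopologicalSpace Y]
  [ChartedSpace H Y] [IsManifold I ∞ Y] [I.Boundaryless]

/-- coordinate vector field of a chart (junk outside of the source of the chart) -/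
noncomputable def chV (y₀ : Y) (v : E) (y : Y) : TangentSpace I y :=
  (mfderiv 𝓘(ℝ, E) I (extChartAt I y₀).symm (extChartAt I y₀ y) : E →L[ℝ] E) v

omit [I.Boundaryless] in
theorem smoothOn_chV [I.Boundaryless] (y₀ : Y) (v : E) :
    ContMDiffOn I I.tangent ∞ (fun y => (⟨y, chV (I := I) y₀ v y⟩ : TangentBundle I Y))
      (extChartAt I y₀).source := by
  have h0 : ContMDiffOn I 𝓘(ℝ, E) ∞ (extChartAt I y₀) (extChartAt I y₀).source := by
    rw [extChartAt_source]
    exact contMDiffOn_extChartAt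
  have h1 : ContMDiff 𝓘(ℝ, E) 𝓘(ℝ, E).tangent ∞ (fun u : E => (⟨u, v⟩ : TangentBundle 𝓘(ℝ, E) E)) :=
    smooth_mk_vector contMDiff_id contMDiff_const
  have h2 : ContMDiffOn I 𝓘(ℝ, E).tangent ∞
      (fun y => (⟨extChartAt I y₀ y, v⟩ : TangentBundle 𝓘(ℝ, E) E)) (extChartAt I y₀).source :=
    h1.comp_contMDiffOn h0
  have h3 : ContMDiffOn 𝓘(ℝ, E) I ∞ (extChartAt I y₀).symm (extChartAt I y₀).target :=
    contMDiffOn_extChartAt_symm y₀
  have : IsManifold I 1 Y := IsManifold.of_le (n := ∞) (by simp)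
  have h4 := h3.contMDiffOn_tangentMapWithin (m := ∞) (by simp) (isOpen_target (I := I) y₀).uniqueMDiffOn
  have h5 := h4.comp h2 (fun y hy => (extChartAt I y₀).map_source hy)
  refine h5.congr fun y hy => ?_
  have hy' : extChartAt I y₀ y ∈ (extChartAt I y₀).target := (extChartAt I y₀).map_source hy
  have e1 : mfderivWithin 𝓘(ℝ, E) I (extChartAt I y₀).symm (extChartAt I y₀).target (extChartAt I y₀ y) =
      mfderiv 𝓘(ℝ, E) I (extChartAt I y₀).symm (extChartAt I y₀ y) :=
    mfderivWithin_of_isOpen (isOpen_target (I := I) y₀) hy'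
  have h6 : ∀ (z : Y) (h : (extChartAt I y₀).symm (extChartAt I y₀ y) = z),
      (⟨z, (mfderiv 𝓘(ℝ, E) I (extChartAt I y₀).symm (extChartAt I y₀ y) : E →L[ℝ] E) v⟩ : TangentBundle I Y) =
      ⟨(extChartAt I y₀).symm (extChartAt I y₀ y), mfderiv 𝓘(ℝ, E) I (extChartAt I y₀).symm (extChartAt I y₀ y) v⟩ := by
    intro z h
    subst h
    rfl
  have h7 := h6 y ((extChartAt I y₀).left_inv hy)
  show (⟨y, (mfderiv 𝓘(ℝ, E) I (extChartAt I y₀).symm (extChartAt I y₀ y) : E →L[ℝ] E) v⟩ : TangentBundle I Y) = _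
  rw [h7]
  show _ = tangentMapWithin 𝓘(ℝ, E) I (extChartAt I y₀).symm (extChartAt I y₀).target ⟨extChartAt I y₀ y, v⟩
  rw [tangentMapWithin, e1]

/-- cut off coordinate vector field. -/
noncomputable def cutV [FiniteDimensional ℝ E] {y₀ : Y} (χ : SmoothBumpFunction I y₀) (v : E) (y : Y) :
    TangentSpace I y := χ y • chV (I := I) y₀ v y

theorem smooth_cutV [FiniteDimensional ℝ E] [T2Space Y] {y₀ : Y} (χ : SmoothBumpFunction I y₀) (v : E) :
    ContMDiff I I.tangent ∞ (fun y => (⟨y, cutV χ v y⟩ : TangentBundle I Y)) := by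
  have h1 := ContMDiffOn.smul_section_of_tsupport (V := TangentSpace I) (n := ∞)
    (s := chV (I := I) y₀ v)
    (ψ := χ) (u := (extChartAt I y₀).source) (χ.contMDiff.contMDiffOn) (isOpen_extChartAt_source y₀)
    χ.tsupport_subset_extChartAt_source (smoothOn_chV y₀ v)
  exact h1

/-- straight segments in charts -/
theorem segment_curve (y₀ : Y) (p v : E) (t : ℝ) (ht : p + t • v ∈ (extChartAt I y₀).target) :
    ContMDiffAt 𝓘(ℝ, ℝ) I ∞ (fun t : ℝ => (extChartAt I y₀).symm (p + t • v)) t ∧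
    mfderiv 𝓘(ℝ, ℝ) I (fun t : ℝ => (extChartAt I y₀).symm (p + t • v)) t (1 : ℝ) =
      chV (I := I) y₀ v ((extChartAt I y₀).symm (p + t • v)) := by
  have h3 : ContMDiffAt 𝓘(ℝ, E) I ∞ (extChartAt I y₀).symm (p + t • v) :=
    (contMDiffOn_extChartAt_symm y₀).contMDiffAt ((isOpen_target (I := I) y₀).mem_nhds ht)
  have h1 : ContMDiffAt 𝓘(ℝ, ℝ) 𝓘(ℝ, E) ∞ (fun t : ℝ => p + t • v) t :=
    (contDiff_const.add (contDiff_id.smul contDiff_const)).contMDiff t
  refine ⟨h3.comp t h1, ?_⟩
  have d1 : HasMFDerivAt 𝓘(ℝ, ℝ) 𝓘(ℝ, E) (fun t : ℝ => p + t • v) t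
      (ContinuousLinearMap.toSpanSingleton ℝ v) := by
    have h : HasDerivAt (fun t : ℝ => p + t • v) v t := by
      have := ((hasDerivAt_id t).smul_const v).const_add p
      simpa using this
    exact h.hasFDerivAt.hasMFDerivAt
  have d2 := (h3.mdifferentiableAt (by simp)).hasMFDerivAt
  have d3 := (d2.comp t d1).mfderiv
  have e1 : extChartAt I y₀ ((extChartAt I y₀).symm (p + t • v)) = p + t • v :=
    (extChartAt I y₀).right_inv ht
  have d4 : mfderiv 𝓘(ℝ, ℝ) I (fun t : ℝ => (extChartAt I y₀).symm (p + t • v)) t (1 : ℝ) =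
      mfderiv 𝓘(ℝ, E) I (extChartAt I y₀).symm (p + t • v) v := by
    refine (congrArg (fun L : ℝ →L[ℝ] E => L 1) d3).trans ?_
    show mfderiv 𝓘(ℝ, E) I (extChartAt I y₀).symm (p + t • v) ((1 : ℝ) • v) = _
    rw [one_smul]
  refine d4.trans ?_
  unfold chV
  rw [e1]

end

section
variable {E : Type*} [NormedAddCommGroup E] [NormedSpace ℝ E] {H : Type*} [TopologicalSpace H]
  {I : ModelWithCorners ℝ E H} {Y : Type*} [TopologicalSpace Y]
  [ChartedSpace H Y] [IsManifold I ∞ Y] [I.Boundaryless] [FiniteDimensional ℝ E] [T2Space Y]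

omit [T2Space Y] in
theorem local_moves {n : ℕ} (b : Module.Basis (Fin n) ℝ E) (y₀ : Y) : ∃ (χ : SmoothBumpFunction I y₀) (W : Set Y), IsOpen W ∧ y₀ ∈ W ∧
    ∀ x ∈ W, ∀ y ∈ W, ∃ pts : ℕ → Y, pts 0 = x ∧ pts n = y ∧
      ∀ j : Fin n, ∃ (s : ℝ) (γ : ℝ → Y), |s| ≤ 1 / 4 ∧
        (∀ t : ℝ, |t| ≤ 1 → ContMDiffAt 𝓘(ℝ, ℝ) I ∞ γ t) ∧
        (∀ t : ℝ, |t| ≤ 1 → mfderiv 𝓘(ℝ, ℝ) I γ t (1 : ℝ) =
          s • cutV χ (b j) (γ t)) ∧
        γ (-1) = pts j ∧ γ 1 = pts (j + 1) := by
  obtain ⟨χ⟩ : Nonempty (SmoothBumpFunction I y₀) := inferInstance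
  set e := extChartAt I y₀ with he
  let L : E ≃L[ℝ] (Fin n → ℝ) := b.equivFunL
  have hG : {u : E | u ∈ e.target ∧ χ (e.symm u) = 1} ∈ 𝓝 (e y₀) := by
    have h1 : e.target ∈ 𝓝 (e y₀) := extChartAt_target_mem_nhds y₀
    have h2 : Filter.Tendsto e.symm (𝓝 (e y₀)) (𝓝 y₀) := by
      have := continuousAt_extChartAt_symm (I := I) y₀
      rw [ContinuousAt, extChartAt_to_inv] at this
      exact this
    have h3 := h2.eventually χ.eventuallyEq_one
    filter_upwards [h1, h3] with u hu1 hu2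
    exact ⟨hu1, hu2⟩
  have hG' : L.symm ⁻¹' {u : E | u ∈ e.target ∧ χ (e.symm u) = 1} ∈ 𝓝 (L (e y₀)) := by
    have := L.symm.continuous.continuousAt (x := L (e y₀))
    apply this
    rw [L.symm_apply_apply]
    exact hG
  obtain ⟨r₀, hr₀, hball₀⟩ := Metric.mem_nhds_iff.1 hG'
  obtain ⟨r, hr, hr4, hball⟩ : ∃ r : ℝ, 0 < r ∧ r ≤ 1 / 4 ∧
      Metric.ball (L (e y₀)) r ⊆ L.symm ⁻¹' {u : E | u ∈ e.target ∧ χ (e.symm u) = 1} :=
    ⟨min r₀ (1 / 4), lt_min hr₀ (by norm_num), min_le_right _ _,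
      (Metric.ball_subset_ball (min_le_left _ _)).trans hball₀⟩
  refine ⟨χ, e.source ∩ e ⁻¹' (L ⁻¹' Metric.ball (L (e y₀)) r), ?_, ?_, ?_⟩
  · exact (continuousOn_extChartAt y₀).isOpen_inter_preimage (isOpen_extChartAt_source y₀)
      (Metric.isOpen_ball.preimage L.continuous)
  · exact ⟨mem_extChartAt_source y₀, Metric.mem_ball_self hr⟩
  rintro x ⟨hx, hxb⟩ y ⟨hy, hyb⟩
  have hxb' : ∀ i, dist (L (e x) i) (L (e y₀) i) < r := (dist_pi_lt_iff hr).1 hxb
  have hyb' : ∀ i, dist (L (e y) i) (L (e y₀) i) < r := (dist_pi_lt_iff hr).1 hyb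
  let P : ℕ → Fin n → ℝ := fun k i => if (i : ℕ) < k then L (e y) i else L (e x) i
  have hLb : ∀ i, L.symm (Pi.single i 1) = b i := by
    intro i
    apply L.injective
    rw [L.apply_symm_apply]
    funext j
    show _ = b.equivFun (b i) j
    rw [Module.Basis.equivFun_self]
    simp [Pi.single_apply, eq_comm]
  refine ⟨fun k => e.symm (L.symm (P k)), ?_, ?_, ?_⟩
  · have : P 0 = L (e x) := by funext i; simp [P]
    show e.symm (L.symm (P 0)) = x
    rw [this, L.symm_apply_apply]
    exact e.left_inv hx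
  · have : P n = L (e y) := by funext i; simp [P]
    show e.symm (L.symm (P n)) = y
    rw [this, L.symm_apply_apply]
    exact e.left_inv hy
  · intro j
    have hj1 := hxb' j
    have hj2 := hyb' j
    rw [Real.dist_eq, abs_lt] at hj1 hj2
    set s : ℝ := (L (e y) j - L (e x) j) / 2 with hs
    have hin : ∀ t : ℝ, |t| ≤ 1 →
        (L.symm (P j) + s • b j) + t • (s • b j) ∈ {u : E | u ∈ e.target ∧ χ (e.symm u) = 1} := by
      intro t ht
      rw [abs_le] at ht
      have e1 : (L.symm (P j) + s • b j) + t • (s • b j) = L.symm (P j + ((1 + t) * s) • Pi.single j 1) := by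
        rw [map_add, map_smul, hLb, add_assoc, ← smul_assoc, ← add_smul]
        congr 2
        simp only [smul_eq_mul]
        ring
      rw [e1]
      apply hball
      rw [Metric.mem_ball, dist_pi_lt_iff hr]
      intro i
      by_cases hij : i = j
      · subst hij
        have : (P i + ((1 + t) * s) • (Pi.single i (1 : ℝ) : Fin n → ℝ)) i = L (e x) i + (1 + t) * s := by
          simp [P]
        rw [this, Real.dist_eq, abs_lt, hs]
        rcases le_total (L (e x) i) (L (e y) i) with hle | hle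
        · have k1 := mul_nonneg (sub_nonneg.2 ht.2) (sub_nonneg.2 hle)
          have k2 := mul_nonneg (by linarith [ht.1] : 0 ≤ 1 + t) (sub_nonneg.2 hle)
          constructor <;> nlinarith [hj1.1, hj1.2, hj2.1, hj2.2]
        · have k1 := mul_nonneg (sub_nonneg.2 ht.2) (sub_nonneg.2 hle)
          have k2 := mul_nonneg (by linarith [ht.1] : 0 ≤ 1 + t) (sub_nonneg.2 hle)
          constructor <;> nlinarith [hj1.1, hj1.2, hj2.1, hj2.2]
      · have : (P j + ((1 + t) * s) • (Pi.single j (1 : ℝ) : Fin n → ℝ)) i = P j i := by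
          simp [hij]
        rw [this]
        by_cases hlt : (i : ℕ) < j
        · simp only [P, hlt, if_true]; exact hyb' i
        · simp only [P, hlt, if_false]; exact hxb' i
    refine ⟨s, fun t => e.symm ((L.symm (P j) + s • b j) + t • (s • b j)), ?_, ?_, ?_, ?_, ?_⟩
    · rw [abs_le, hs]
      constructor <;> linarith [hj1.1, hj1.2, hj2.1, hj2.2]
    · intro t ht
      exact (segment_curve (I := I) y₀ _ _ t (hin t ht).1).1
    · intro t ht
      have h1 := (segment_curve (I := I) y₀ _ _ t (hin t ht).1).2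
      have h2 := (hin t ht).2
      refine h1.trans ?_
      have h3 : chV (I := I) y₀ (s • b j) (e.symm ((L.symm (P j) + s • b j) + t • (s • b j))) =
          s • chV (I := I) y₀ (b j) (e.symm ((L.symm (P j) + s • b j) + t • (s • b j))) :=
        map_smul _ _ _
      refine h3.trans ?_
      unfold cutV
      rw [h2, one_smul]
    · show e.symm ((L.symm (P j) + s • b j) + (-1 : ℝ) • (s • b j)) = e.symm (L.symm (P j))
      congr 1
      rw [neg_one_smul]
      abel
    · show e.symm ((L.symm (P j) + s • b j) + (1 : ℝ) • (s • b j)) = e.symm (L.symm (P (j + 1)))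
      congr 1
      have e2 : P (j + 1) = P j + (2 * s) • Pi.single j 1 := by
        funext i
        by_cases hij : i = j
        · subst hij
          simp [P, hs]
          ring
        · have h1 : (P j + (2 * s) • (Pi.single j (1 : ℝ) : Fin n → ℝ)) i = P j i := by
            simp [hij]
          rw [h1]
          have h2 : ((i : ℕ) < (j : ℕ) + 1) ↔ (i : ℕ) < j := by
            have : (i : ℕ) ≠ j := fun h => hij (Fin.ext h)
            omega
          simp only [P, h2]
      rw [e2, map_add, map_smul, hLb, one_smul, add_assoc, ← add_smul]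
      congr 2
      ring

omit [I.Boundaryless] [FiniteDimensional ℝ E] [T2Space Y] [IsManifold I ∞ Y] in
theorem smooth_sum_sec [IsManifold I ∞ Y] {ι : Type*} (s : Finset ι) (c : ι → S2 → ℝ)
    (hc : ∀ i, ContMDiff (𝓡 2) 𝓘(ℝ, ℝ) ∞ (c i))
    (V : ι → ∀ y : Y, TangentSpace I y)
    (hV : ∀ i, ContMDiff I I.tangent ∞ (fun y => (⟨y, V i y⟩ : TangentBundle I Y))) :
    ContMDiff ((𝓡 2).prod I) I.tangent ∞
      (fun p : S2 × Y => (⟨p.2, ∑ i ∈ s, c i p.1 • V i p.2⟩ : TangentBundle I Y)) := by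
  classical
  induction s using Finset.induction_on with
  | empty =>
    simp only [Finset.sum_empty]
    exact (contMDiff_zeroSection ℝ (TangentSpace I : Y → Type _)).comp contMDiff_snd
  | insert a s ha ih =>
    simp only [Finset.sum_insert ha]
    have h1 : ContMDiff ((𝓡 2).prod I) I.tangent ∞
        (fun p : S2 × Y => (⟨p.2, V a p.2⟩ : TangentBundle I Y)) := (hV a).comp contMDiff_snd
    exact smooth_add (smooth_smul ((hc a).comp contMDiff_fst) h1) ih

end

section
variable {E : Type*} [NormedAddCommGroup E] [NormedSpace ℝ E] {H : Type*} [TopologicalSpace H]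
  {I : ModelWithCorners ℝ E H} {Y : Type} [TopologicalSpace Y]
  [ChartedSpace H Y] [IsManifold I ∞ Y] [I.Boundaryless] [FiniteDimensional ℝ E] [T2Space Y]
  [CompactSpace Y]

theorem general_path [PathConnectedSpace Y] (K : AlmostKahler I Y) :
    ∃ K' : AlmostKahler ((𝓡 2).prod ((𝓡 2).prod I)) (S2 × (S2 × Y)),
      K'.Ω = twΩ K ∧ ∀ c : H2 S2, ∃ A : H2 (S2 × (S2 × Y)), RCS K' c A := by
  classical
  set b := Module.finBasis ℝ E
  choose χ W hWo hyW hW using local_moves (I := I) (Y := Y) b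
  obtain ⟨t, ht⟩ := CompactSpace.elim_nhds_subcover W (fun y => (hWo y).mem_nhds (hyW y))
  obtain ⟨cf, hcf, hcN, hcs⟩ := exists_coeff ({x // x ∈ t} × Fin (Module.finrank ℝ E))
  let V : ({x // x ∈ t} × Fin (Module.finrank ℝ E)) → ∀ y : Y, TangentSpace I y :=
    fun i y => cutV (χ i.1) (b i.2) y
  let ξ : S2 → ∀ y : Y, TangentSpace I y := fun f y => ∑ i, cf i f • V i y
  have hξ : ContMDiff ((𝓡 2).prod I) I.tangent ∞
      (fun p : S2 × Y => (⟨p.2, ξ p.1 p.2⟩ : TangentBundle I Y)) :=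
    smooth_sum_sec Finset.univ cf hcf V (fun i => smooth_cutV (χ i.1) (b i.2))
  have hN : ∀ y, ξ NP y = 0 := by
    intro y
    show ∑ i, cf i NP • V i y = 0
    refine Finset.sum_eq_zero fun i _ => ?_
    rw [hcN, zero_smul]
  refine ⟨twisted K ξ hξ, rfl, fun c => ?_⟩
  obtain ⟨w₀⟩ : Nonempty Y := inferInstance
  obtain ⟨k, hk⟩ := uniform_reach (fun k x y => Reach K ξ hξ c w₀ k x y)
    (fun x => Reach.refl K ξ hξ c w₀ hN x)
    (fun k l x y z h1 h2 => Reach.trans K ξ hξ c w₀ h1 h2)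
    (1 + Module.finrank ℝ E) (by
      intro z
      have hz : z ∈ ⋃ x ∈ t, W x := by rw [ht]; trivial
      simp only [mem_iUnion] at hz
      obtain ⟨y₀, hy₀, hzy⟩ := hz
      refine ⟨W y₀, (hWo y₀).mem_nhds hzy, fun x hx y hy => ?_⟩
      obtain ⟨pts, hp0, hpn, hmv⟩ := hW y₀ x hx y hy
      have hind : ∀ j : ℕ, j ≤ Module.finrank ℝ E → Reach K ξ hξ c w₀ (1 + j) x (pts j) := by
        intro j
        induction j with
        | zero =>
          intro _
          rw [hp0]
          exact Reach.refl K ξ hξ c w₀ hN x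
        | succ j ih =>
          intro hj
          obtain ⟨s, γ, hs, hγ, hγ', h0, h1⟩ := hmv ⟨j, hj⟩
          obtain ⟨f, hf⟩ := hcs (⟨y₀, hy₀⟩, ⟨j, hj⟩) s hs
          have hξf : ∀ y, ξ f y = s • cutV (χ y₀) (b ⟨j, hj⟩) y := by
            intro y
            show ∑ i, cf i f • V i y = _
            rw [Finset.sum_eq_single (⟨y₀, hy₀⟩, ⟨j, hj⟩)]
            · rw [hf, if_pos rfl]
            · intro i _ hi
              rw [hf, if_neg hi, zero_smul]
            · intro h
              exact absurd (Finset.mem_univ _) h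
          have hm := Reach.move K ξ hξ c w₀ hN f γ hγ (fun t ht => (hγ' t ht).trans (hξf _).symm)
          rw [h0, h1] at hm
          rw [← add_assoc]
          exact Reach.trans K ξ hξ c w₀ (ih (Nat.le_of_succ_le hj)) hm
      have := hind _ le_rfl
      rw [hpn] at this
      exact this)
  exact RC_of_reach K ξ hξ c w₀ hN k hk

end

theorem pathConnected_of_manifold {E : Type*} [NormedAddCommGroup E] [NormedSpace ℝ E]
    {H : Type*} [TopologicalSpace H] (I : ModelWithCorners ℝ E H) [I.Boundaryless]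
    (Y : Type*) [TopologicalSpace Y] [ChartedSpace H Y] [ConnectedSpace Y] : PathConnectedSpace Y := by
  have h1 : LocallyPathConnectedSpace H := I.toHomeomorph.isOpenEmbedding.locallyPathConnectedSpace
  have h2 : LocallyPathConnectedSpace Y := ChartedSpace.locallyPathConnectedSpace H Y
  exact pathConnectedSpace_iff_connectedSpace.2 inferInstance

theorem circle_infinite (c : Circle) : Infinite (FundamentalGroup Circle c) := by
  have hp := Circle.isAddQuotientCoveringMap_exp
  obtain ⟨e, he⟩ := hp.toMultiplicative.surjective c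
  have h := hp.fundamentalGroupToMulOpposite_surjective ⟨e, he⟩
  let g : ℤ → (Multiplicative (AddSubgroup.zmultiples (2 * Real.pi)))ᵐᵒᵖ := fun n =>
    MulOpposite.op (Multiplicative.ofAdd
      (⟨n • (2 * Real.pi), AddSubgroup.mem_zmultiples_iff.2 ⟨n, rfl⟩⟩ :
        AddSubgroup.zmultiples (2 * Real.pi)))
  have hg : Function.Injective g := by
    intro m n hmn
    have h1 := congrArg (fun t => ((Multiplicative.toAdd (MulOpposite.unop t) :
      AddSubgroup.zmultiples (2 * Real.pi)) : ℝ)) hmn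
    have h2 : m • (2 * Real.pi) = n • (2 * Real.pi) := h1
    rw [zsmul_eq_mul, zsmul_eq_mul] at h2
    have h3 := mul_right_cancel₀ (by positivity : 2 * Real.pi ≠ 0) h2
    exact_mod_cast h3
  have : Infinite (Multiplicative (AddSubgroup.zmultiples (2 * Real.pi)))ᵐᵒᵖ :=
    Infinite.of_injective g hg
  exact Infinite.of_surjective _ h

theorem fundamentalGroup_prod_surj {Y : Type*} [TopologicalSpace Y] (x : S2 × (S2 × Y)) :
    Function.Surjective (FundamentalGroup.map
      (⟨fun x => x.2.2, by fun_prop⟩ : C(S2 × (S2 × Y), Y)) x) := by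
  intro γ
  induction γ using Quotient.inductionOn with
  | h γ =>
  refine ⟨FundamentalGroup.fromPath ⟦⟨⟨fun t => (x.1, (x.2.1, γ t)), by fun_prop⟩, ?_, ?_⟩⟧, ?_⟩
  · show (x.1, (x.2.1, γ 0)) = x
    rw [γ.source]
    rfl
  · show (x.1, (x.2.1, γ 1)) = x
    rw [γ.target]
    rfl
  · rfl

theorem torus_infinite (c : Circle × Circle) : Infinite (FundamentalGroup (Circle × Circle) c) := by
  have h : Function.Surjective (FundamentalGroup.map
      (⟨fun x => x.2, by fun_prop⟩ : C(Circle × Circle, Circle)) c) := by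
    intro γ
    induction γ using Quotient.inductionOn with
    | h γ =>
    refine ⟨FundamentalGroup.fromPath ⟦⟨⟨fun t => (c.1, γ t), by fun_prop⟩, ?_, ?_⟩⟧, ?_⟩
    · show (c.1, γ 0) = c
      rw [γ.source]
      rfl
    · show (c.1, γ 1) = c
      rw [γ.target]
      rfl
    · rfl
  have := circle_infinite c.2
  exact Infinite.of_surjective _ h

theorem fundamentalGroup_infinite {Y : Type*} [TopologicalSpace Y] (x : S2 × (S2 × Y))
    (h : Infinite (FundamentalGroup Y x.2.2)) : Infinite (FundamentalGroup (S2 × (S2 × Y)) x) :=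
  Infinite.of_surjective _ (fundamentalGroup_prod_surj x)

end Pool.Agent.LibRCAK
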