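import Pool.Agent.LibRCAK.Defs
/-!
Smoothness calculus, the sphere, closed 2-forms, shears.
-/
set_option autoImplicit false
open scoped Manifold ContDiff Topology RealInnerProductSpace
open Bundle Set

namespace Pool.Agent.LibRCAK

section bundleOps

variable {EB : Type*} [NormedAddCommGroup EB] [NormedSpace ℝ EB] {HB : Type*} [TopologicalSpace HB]
  {IB : ModelWithCorners ℝ EB HB} {B : Type*} [TopologicalSpace B] [ChartedSpace HB B]
  {EN : Type*} [NormedAddCommGroup EN] [NormedSpace ℝ EN] {HN : Type*} [TopologicalSpace HN]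
  {IN : ModelWithCorners ℝ EN HN} {N : Type*} [TopologicalSpace N] [ChartedSpace HN N]
  {F : Type*} [NormedAddCommGroup F] [NormedSpace ℝ F]
  {V : B → Type*} [TopologicalSpace (TotalSpace F V)]
  [∀ x, AddCommGroup (V x)] [∀ x, Module ℝ (V x)] [∀ x : B, TopologicalSpace (V x)]
  [FiberBundle F V] [VectorBundle ℝ F V]
  {n : ℕ∞ω}

theorem smooth_add {b : N → B} {s t : ∀ x : N, V (b x)}
    (hs : ContMDiff IN (IB.prod 𝓘(ℝ, F)) n (fun x => (⟨b x, s x⟩ : TotalSpace F V)))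
    (ht : ContMDiff IN (IB.prod 𝓘(ℝ, F)) n (fun x => (⟨b x, t x⟩ : TotalSpace F V))) :
    ContMDiff IN (IB.prod 𝓘(ℝ, F)) n (fun x => (⟨b x, s x + t x⟩ : TotalSpace F V)) := by
  intro x
  have hs' := (contMDiffAt_totalSpace.1 (hs x))
  have ht' := (contMDiffAt_totalSpace.1 (ht x))
  refine contMDiffAt_totalSpace.2 ⟨hs'.1, ?_⟩
  have hb : ∀ᶠ y in 𝓝 x, b y ∈ (trivializationAt F V (b x)).baseSet :=
    hs'.1.continuousAt.preimage_mem_nhds
      ((trivializationAt F V (b x)).open_baseSet.mem_nhds (mem_baseSet_trivializationAt F V _))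
  refine (hs'.2.add ht'.2).congr_of_eventuallyEq ?_
  filter_upwards [hb] with y hy
  exact ((trivializationAt F V (b x)).linear ℝ hy).1 _ _

theorem smooth_smul {b : N → B} {s : ∀ x : N, V (b x)} {c : N → ℝ}
    (hc : ContMDiff IN 𝓘(ℝ, ℝ) n c)
    (hs : ContMDiff IN (IB.prod 𝓘(ℝ, F)) n (fun x => (⟨b x, s x⟩ : TotalSpace F V))) :
    ContMDiff IN (IB.prod 𝓘(ℝ, F)) n (fun x => (⟨b x, c x • s x⟩ : TotalSpace F V)) := by
  intro x
  have hs' := (contMDiffAt_totalSpace.1 (hs x))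
  refine contMDiffAt_totalSpace.2 ⟨hs'.1, ?_⟩
  have hb : ∀ᶠ y in 𝓝 x, b y ∈ (trivializationAt F V (b x)).baseSet :=
    hs'.1.continuousAt.preimage_mem_nhds
      ((trivializationAt F V (b x)).open_baseSet.mem_nhds (mem_baseSet_trivializationAt F V _))
  refine ((hc x).smul hs'.2).congr_of_eventuallyEq ?_
  filter_upwards [hb] with y hy
  exact ((trivializationAt F V (b x)).linear ℝ hy).2 _ _

end bundleOps

/-- Euclidean three-space. -/
abbrev E3 : Type := EuclideanSpace ℝ (Fin 3)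

/-- The unit sphere in `E3`. -/
abbrev S2 : Type := Metric.sphere (0 : E3) 1

instance factE3 : Fact (Module.finrank ℝ E3 = 2 + 1) := ⟨by simp⟩

/-- The cross product. -/
def cross (a b : E3) : E3 :=
  !₂[a 1 * b 2 - a 2 * b 1, a 2 * b 0 - a 0 * b 2, a 0 * b 1 - a 1 * b 0]

theorem cross_0 (a b : E3) : cross a b 0 = a 1 * b 2 - a 2 * b 1 := rfl
theorem cross_1 (a b : E3) : cross a b 1 = a 2 * b 0 - a 0 * b 2 := rfl
theorem cross_2 (a b : E3) : cross a b 2 = a 0 * b 1 - a 1 * b 0 := rfl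

theorem inner3 (a b : E3) : ⟪a, b⟫ = a 0 * b 0 + a 1 * b 1 + a 2 * b 2 := by
  simp [PiLp.inner_apply, Fin.sum_univ_three, mul_comm]

theorem e3_ext {a b : E3} (h0 : a 0 = b 0) (h1 : a 1 = b 1) (h2 : a 2 = b 2) : a = b := by
  ext i; fin_cases i <;> assumption

/-- The cross product as a bilinear map. -/
noncomputable def crossL : E3 →L[ℝ] E3 →L[ℝ] E3 :=
  LinearMap.toContinuousLinearMap
    ((LinearMap.toContinuousLinearMap : (E3 →ₗ[ℝ] E3) ≃ₗ[ℝ] (E3 →L[ℝ] E3)).toLinearMap ∘ₗ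
      LinearMap.mk₂ ℝ cross
        (by intro a b c; apply e3_ext <;> simp only [cross_0, cross_1, cross_2, PiLp.add_apply] <;> ring)
        (by intro a b c; apply e3_ext <;> simp only [cross_0, cross_1, cross_2, PiLp.smul_apply, smul_eq_mul] <;> ring)
        (by intro a b c; apply e3_ext <;> simp only [cross_0, cross_1, cross_2, PiLp.add_apply] <;> ring)
        (by intro a b c; apply e3_ext <;> simp only [cross_0, cross_1, cross_2, PiLp.smul_apply, smul_eq_mul] <;> ring))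

theorem crossL_apply (a b : E3) : crossL a b = cross a b := rfl

theorem cross_self (a : E3) : cross a a = 0 := by
  apply e3_ext <;> simp only [cross_0, cross_1, cross_2, PiLp.zero_apply] <;> ring

theorem inner_cross_left (a b : E3) : ⟪cross a b, a⟫ = 0 := by
  rw [inner3]; simp only [cross_0, cross_1, cross_2]; ring

theorem inner_cross_right (a b : E3) : ⟪cross a b, b⟫ = 0 := by
  rw [inner3]; simp only [cross_0, cross_1, cross_2]; ring

theorem s2_sq (z : S2) : (z : E3) 0 * (z : E3) 0 + (z : E3) 1 * (z : E3) 1 + (z : E3) 2 * (z : E3) 2 = 1 := by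
  have h : ‖(z : E3)‖ = 1 := by simp
  rw [← inner3, real_inner_self_eq_norm_sq, h]; norm_num

/-- the moving map `(ν, z) ↦ (z + ν × z) / ‖z + ν × z‖`. -/
noncomputable def mvF (p : E3 × S2) : E3 :=
  ‖(p.2 : E3) + cross p.1 p.2‖⁻¹ • ((p.2 : E3) + cross p.1 p.2)

theorem norm_mv_sq (p : E3 × S2) :
    ‖(p.2 : E3) + cross p.1 p.2‖ ^ 2 = 1 + ‖cross p.1 p.2‖ ^ 2 := by
  rw [norm_add_sq_real, real_inner_comm, inner_cross_right]
  have h : ‖(p.2 : E3)‖ = 1 := by simp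
  rw [h]; ring

theorem norm_mv_pos (p : E3 × S2) : 0 < ‖(p.2 : E3) + cross p.1 p.2‖ := by
  have h := norm_mv_sq p
  by_contra hc
  have : ‖(p.2 : E3) + cross p.1 p.2‖ = 0 := le_antisymm (not_lt.1 hc) (norm_nonneg _)
  rw [this] at h
  nlinarith [sq_nonneg ‖cross p.1 p.2‖]

theorem mvF_mem (p : E3 × S2) : mvF p ∈ Metric.sphere (0 : E3) 1 := by
  simp only [mvF, mem_sphere_iff_norm, sub_zero, norm_smul, norm_inv, norm_norm]
  exact inv_mul_cancel₀ (norm_mv_pos p).ne'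

theorem contMDiff_coe_S2 : ContMDiff (𝓡 2) 𝓘(ℝ, E3) ∞ (fun z : S2 => (z : E3)) :=
  contMDiff_coe_sphere

theorem contMDiff_mvF : ContMDiff (𝓘(ℝ, E3).prod (𝓡 2)) 𝓘(ℝ, E3) ∞ mvF := by
  have h1 : ContMDiff (𝓘(ℝ, E3).prod (𝓡 2)) 𝓘(ℝ, E3) ∞ (fun p : E3 × S2 => (p.2 : E3)) :=
    contMDiff_coe_S2.comp contMDiff_snd
  have h2 : ContMDiff (𝓘(ℝ, E3).prod (𝓡 2)) 𝓘(ℝ, E3) ∞ (fun p : E3 × S2 => p.1) :=
    contMDiff_fst
  have h3 : ContMDiff (𝓘(ℝ, E3).prod (𝓡 2)) 𝓘(ℝ, E3) ∞ (fun p : E3 × S2 => (p.2 : E3) + cross p.1 p.2) := by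
    refine h1.add ?_
    have : ContMDiff (𝓘(ℝ, E3).prod (𝓡 2)) 𝓘(ℝ, E3 →L[ℝ] E3) ∞ (fun p : E3 × S2 => crossL p.1) :=
      crossL.contDiff.contMDiff.comp h2
    exact this.clm_apply h1
  have h4 : ContMDiff (𝓘(ℝ, E3).prod (𝓡 2)) 𝓘(ℝ, ℝ) ∞
      (fun p : E3 × S2 => ‖(p.2 : E3) + cross p.1 p.2‖⁻¹) := by
    intro p
    have : ContDiffAt ℝ ∞ (fun x : E3 => ‖x‖⁻¹) ((p.2 : E3) + cross p.1 p.2) := by
      refine ContDiffAt.inv (contDiffAt_norm ℝ ?_) (norm_mv_pos p).ne'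
      exact norm_pos_iff.1 (norm_mv_pos p)
    exact ContMDiffAt.comp (I' := 𝓘(ℝ, E3)) (g := fun x : E3 => ‖x‖⁻¹)
      (f := fun p : E3 × S2 => (p.2 : E3) + cross p.1 p.2) p this.contMDiffAt (h3 p)
  exact h4.smul h3

/-- `mv : E3 × S2 → S2`. -/
noncomputable def mv : E3 × S2 → S2 := Set.codRestrict mvF (Metric.sphere (0 : E3) 1) mvF_mem

theorem contMDiff_mv : ContMDiff (𝓘(ℝ, E3).prod (𝓡 2)) (𝓡 2) ∞ mv :=
  contMDiff_mvF.codRestrict_sphere mvF_mem

theorem mv_zero (z : S2) : mv (0, z) = z := by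
  apply Subtype.ext
  show mvF (0, z) = z
  have h : ‖(z : E3)‖ = 1 := by simp
  have hc : cross 0 (z : E3) = 0 := by
    apply e3_ext <;> simp [cross_0, cross_1, cross_2]
  simp [mvF, hc, h]


/-- The differential of the inclusion of the sphere. -/
noncomputable def Di (z : S2) : TangentSpace (𝓡 2) z →L[ℝ] E3 :=
  mvfderiv (𝓡 2) (fun x : S2 => (x : E3)) z

theorem Di_injective (z : S2) : Function.Injective (Di z) :=
  injective_mvfderiv_subtypeVal_sphere z

theorem inner_Di (z : S2) (v : TangentSpace (𝓡 2) z) : ⟪(z : E3), Di z v⟫ = 0 := by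
  have h : Di z v ∈ (mvfderiv (𝓡 2) (fun x : S2 => (x : E3)) z).range := ⟨v, rfl⟩
  rw [range_mvfderiv_subtypeVal] at h
  exact Submodule.mem_orthogonal_singleton_iff_inner_right.1 h

/-- `Q z ν` is the tangent vector at `z` represented by `ν × z`. -/
noncomputable def Q (z : S2) : E3 →L[ℝ] TangentSpace (𝓡 2) z :=
  (mfderiv (𝓘(ℝ, E3).prod (𝓡 2)) (𝓡 2) mv (0, z) : E3 × EuclideanSpace ℝ (Fin 2) →L[ℝ] EuclideanSpace ℝ (Fin 2)).comp
    (ContinuousLinearMap.inl ℝ E3 (EuclideanSpace ℝ (Fin 2)))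

theorem hasFDerivAt_F (z : S2) :
    HasFDerivAt (fun ν : E3 => mvF (ν, z)) (crossL.flip (z : E3)) 0 := by
  have hz : ‖(z : E3)‖ = 1 := by simp
  have hc0 : cross 0 (z : E3) = 0 := by
    apply e3_ext <;> simp [cross_0, cross_1, cross_2]
  have hL : HasFDerivAt (fun ν : E3 => cross ν z) (crossL.flip (z : E3)) 0 :=
    (crossL.flip (z : E3)).hasFDerivAt
  have hg : HasFDerivAt (fun ν : E3 => (z : E3) + cross ν z) (crossL.flip (z : E3)) 0 :=
    hL.const_add _
  have hn : (fun ν : E3 => ‖(z : E3) + cross ν z‖⁻¹) = fun ν => (Real.sqrt (1 + ‖cross ν z‖ ^ 2))⁻¹ := by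
    funext ν
    have := norm_mv_sq (ν, z)
    simp only at this
    rw [← this, Real.sqrt_sq (norm_nonneg _)]
  have h2 : HasFDerivAt (fun ν : E3 => 1 + ‖cross ν z‖ ^ 2) (0 : E3 →L[ℝ] ℝ) 0 := by
    refine ((hL.norm_sq).const_add (1 : ℝ)).congr_fderiv ?_
    rw [hc0]
    ext v
    simp
  have h3 : HasFDerivAt (fun ν : E3 => (Real.sqrt (1 + ‖cross ν z‖ ^ 2))⁻¹) (0 : E3 →L[ℝ] ℝ) 0 := by
    have h4 := (h2.sqrt (by simp [hc0]))
    have h5 := (hasFDerivAt_inv (x := Real.sqrt (1 + ‖cross 0 (z : E3)‖ ^ 2)) (by simp [hc0])).comp (0 : E3) h4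
    refine h5.congr_fderiv ?_
    ext v; simp
  rw [← hn] at h3
  have h6 := h3.smul hg
  refine h6.congr_fderiv ?_
  rw [hc0, add_zero, hz]
  ext v
  simp

theorem Di_Q (z : S2) (ν : E3) : Di z (Q z ν) = cross ν z := by
  have hmv : MDifferentiableAt (𝓘(ℝ, E3).prod (𝓡 2)) (𝓡 2) mv (0, z) :=
    contMDiff_mv.mdifferentiableAt (by simp)
  have hi : MDifferentiableAt (𝓡 2) 𝓘(ℝ, E3) (fun x : S2 => (x : E3)) (mv (0, z)) :=
    contMDiff_coe_S2.mdifferentiableAt (by simp)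
  have hF : MDifferentiableAt (𝓘(ℝ, E3).prod (𝓡 2)) 𝓘(ℝ, E3) mvF (0, z) :=
    contMDiff_mvF.mdifferentiableAt (by simp)
  have h1 : mfderiv (𝓘(ℝ, E3).prod (𝓡 2)) 𝓘(ℝ, E3) mvF (0, z) =
      (mfderiv (𝓡 2) 𝓘(ℝ, E3) (fun x : S2 => (x : E3)) (mv (0, z))).comp
        (mfderiv (𝓘(ℝ, E3).prod (𝓡 2)) (𝓡 2) mv (0, z)) := mfderiv_comp (0, z) hi hmv
  have hin : HasMFDerivAt 𝓘(ℝ, E3) (𝓘(ℝ, E3).prod (𝓡 2)) (fun ν : E3 => (ν, z)) 0
      ((ContinuousLinearMap.id ℝ (TangentSpace 𝓘(ℝ, E3) (0 : E3))).prod 0) :=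
    (hasMFDerivAt_id (0 : E3)).prodMk (hasMFDerivAt_const z (0 : E3))
  have h2 := (hF.hasMFDerivAt.comp (0 : E3) hin)
  have h3 : HasMFDerivAt 𝓘(ℝ, E3) 𝓘(ℝ, E3) (fun ν : E3 => mvF (ν, z)) 0 (crossL.flip (z : E3)) :=
    (hasFDerivAt_F z).hasMFDerivAt
  have h4 := hasMFDerivAt_unique h2 h3
  have h5 : mfderiv (𝓘(ℝ, E3).prod (𝓡 2)) 𝓘(ℝ, E3) mvF (0, z) (ν, (0 : EuclideanSpace ℝ (Fin 2))) = cross ν z := by
    have := congrArg (fun L : E3 →L[ℝ] E3 => L ν) h4
    exact this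
  rw [h1] at h5
  have h6 : ∀ (y : S2) (h : mv (0, z) = y) , mfderiv (𝓡 2) 𝓘(ℝ, E3) (fun x : S2 => (x : E3)) y
      (mfderiv (𝓘(ℝ, E3).prod (𝓡 2)) (𝓡 2) mv (0, z) (ν, (0 : EuclideanSpace ℝ (Fin 2)))) = cross ν z := by
    intro y h
    subst h
    exact h5
  exact h6 z (mv_zero z)

section
variable {EN : Type*} [NormedAddCommGroup EN] [NormedSpace ℝ EN] {HN : Type*} [TopologicalSpace HN]
  {IN : ModelWithCorners ℝ EN HN} {N : Type*} [TopologicalSpace N] [ChartedSpace HN N]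

/-- smooth maps to the tangent bundle of a vector space -/
theorem smooth_mk_vector {F : Type*} [NormedAddCommGroup F] [NormedSpace ℝ F] {b v : N → F}
    (hb : ContMDiff IN 𝓘(ℝ, F) ∞ b) (hv : ContMDiff IN 𝓘(ℝ, F) ∞ v) :
    ContMDiff IN (𝓘(ℝ, F).tangent) ∞ (fun x => (⟨b x, v x⟩ : TangentBundle 𝓘(ℝ, F) F)) := by
  intro x
  refine contMDiffAt_totalSpace.2 ⟨hb x, ?_⟩
  refine (hv x).congr_of_eventuallyEq (Filter.Eventually.of_forall fun y => ?_)
  simp

theorem smooth_Q {a : N → S2} {ν : N → E3} (ha : ContMDiff IN (𝓡 2) ∞ a)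
    (hν : ContMDiff IN 𝓘(ℝ, E3) ∞ ν) :
    ContMDiff IN (𝓡 2).tangent ∞ (fun x => (⟨a x, Q (a x) (ν x)⟩ : TangentBundle (𝓡 2) S2)) := by
  have h1 : ContMDiff IN 𝓘(ℝ, E3).tangent ∞ (fun x => (⟨0, ν x⟩ : TangentBundle 𝓘(ℝ, E3) E3)) :=
    smooth_mk_vector contMDiff_const hν
  have h2 : ContMDiff IN (𝓡 2).tangent ∞ (fun x => (⟨a x, 0⟩ : TangentBundle (𝓡 2) S2)) :=
    (contMDiff_zeroSection ℝ (TangentSpace (𝓡 2) : S2 → Type _)).comp ha
  have h3 := (contMDiff_equivTangentBundleProd_symm (n := ∞) (I := 𝓘(ℝ, E3)) (M := E3)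
    (I' := 𝓡 2) (M' := S2)).comp (h1.prodMk h2)
  have h4 := (contMDiff_mv.contMDiff_tangentMap (m := ∞) (by simp)).comp h3
  refine h4.congr fun x => ?_
  have h5 : ∀ (y : S2) (h : mv (0, a x) = y), (⟨y, Q (a x) (ν x)⟩ : TangentBundle (𝓡 2) S2) =
      ⟨mv (0, a x), Q (a x) (ν x)⟩ := by
    intro y h
    subst h
    rfl
  rw [h5 (a x) (mv_zero (a x))]
  rfl

theorem smooth_Di {a : N → S2} {v : ∀ x, TangentSpace (𝓡 2) (a x)}
    (hv : ContMDiff IN (𝓡 2).tangent ∞ (fun x => (⟨a x, v x⟩ : TangentBundle (𝓡 2) S2))) :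
    ContMDiff IN 𝓘(ℝ, E3) ∞ (fun x => Di (a x) (v x)) := by
  have h1 := (contMDiff_coe_S2.contMDiff_tangentMap (m := ∞) (by simp)).comp hv
  have h2 := (contMDiff_snd_tangentBundle_modelSpace (n := ∞) E3 𝓘(ℝ, E3)).comp h1
  exact h2

end

section forms

variable {E : Type*} [NormedAddCommGroup E] [NormedSpace ℝ E] {H : Type*} [TopologicalSpace H]
  (I : ModelWithCorners ℝ E H) {X : Type*} [TopologicalSpace X] [ChartedSpace H X]
  {F : Type*} [NormedAddCommGroup F] [NormedSpace ℝ F] {H' : Type*} [TopologicalSpace H']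
  (I' : ModelWithCorners ℝ F H') {Y : Type*} [TopologicalSpace Y] [ChartedSpace H' Y]

/-- The pullback of a bilinear form by a linear map. -/
noncomputable def bpull {E G : Type*} [NormedAddCommGroup E] [NormedSpace ℝ E]
    [NormedAddCommGroup G] [NormedSpace ℝ G]
    (B : E →L[ℝ] E →L[ℝ] ℝ) (L : G →L[ℝ] E) : G →L[ℝ] G →L[ℝ] ℝ := B.bilinearComp L L

/-- The sum of the pullbacks of two forms to the product. -/
noncomputable def prodForm
    (Ω : ∀ x : X, TangentSpace I x →L[ℝ] TangentSpace I x →L[ℝ] ℝ)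
    (Ω' : ∀ x : Y, TangentSpace I' x →L[ℝ] TangentSpace I' x →L[ℝ] ℝ)
    (p : X × Y) : TangentSpace (I.prod I') p →L[ℝ] TangentSpace (I.prod I') p →L[ℝ] ℝ :=
  (bpull (E := E) (G := E × F) (Ω p.1) (ContinuousLinearMap.fst ℝ E F) +
    bpull (E := F) (G := E × F) (Ω' p.2) (ContinuousLinearMap.snd ℝ E F) :
    E × F →L[ℝ] E × F →L[ℝ] ℝ)

variable {I I'}

theorem prodForm_apply
    (Ω : ∀ x : X, TangentSpace I x →L[ℝ] TangentSpace I x →L[ℝ] ℝ)
    (Ω' : ∀ x : Y, TangentSpace I' x →L[ℝ] TangentSpace I' x →L[ℝ] ℝ)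
    (p : X × Y) (v w : TangentSpace (I.prod I') p) :
    prodForm I I' Ω Ω' p v w = Ω p.1 v.1 w.1 + Ω' p.2 v.2 w.2 := rfl

theorem mdiffAt_symm [I.Boundaryless] [IsManifold I ∞ X] (x₀ : X) {y : E}
    (hy : y ∈ (extChartAt I x₀).target) :
    MDifferentiableAt 𝓘(ℝ, E) I (extChartAt I x₀).symm y := by
  have : IsManifold I 1 X := IsManifold.of_le (n := ∞) (by simp)
  have h := mdifferentiableWithinAt_extChartAt_symm (I := I) hy
  rwa [I.range_eq_univ, mdifferentiableWithinAt_univ] at h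

theorem coordForm_prod [I.Boundaryless] [I'.Boundaryless] [IsManifold I ∞ X] [IsManifold I' ∞ Y]
    (Ω : ∀ x : X, TangentSpace I x →L[ℝ] TangentSpace I x →L[ℝ] ℝ)
    (Ω' : ∀ x : Y, TangentSpace I' x →L[ℝ] TangentSpace I' x →L[ℝ] ℝ)
    (p : X × Y) (v w : E × F) (y : E × F) (hy : y ∈ (extChartAt (I.prod I') p).target) :
    coordForm (I.prod I') (prodForm I I' Ω Ω') p v w y =
      coordForm I Ω p.1 v.1 w.1 y.1 + coordForm I' Ω' p.2 v.2 w.2 y.2 := by
  have hy1 : y.1 ∈ (extChartAt I p.1).target := by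
    rw [extChartAt_prod] at hy; exact hy.1
  have hy2 : y.2 ∈ (extChartAt I' p.2).target := by
    rw [extChartAt_prod] at hy; exact hy.2
  have h1 := mdiffAt_symm p.1 hy1
  have h2 := mdiffAt_symm p.2 hy2
  have key : mfderiv 𝓘(ℝ, E × F) (I.prod I') (extChartAt (I.prod I') p).symm y =
      (mfderiv 𝓘(ℝ, E) I (extChartAt I p.1).symm y.1).prodMap
        (mfderiv 𝓘(ℝ, F) I' (extChartAt I' p.2).symm y.2) := by
    have e : ((extChartAt (I.prod I') p).symm : E × F → X × Y) =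
        Prod.map (extChartAt I p.1).symm (extChartAt I' p.2).symm := by
      rw [extChartAt_prod]; rfl
    rw [e]
    have := mfderiv_prodMap (p := y) h1 h2
    rw [modelWithCornersSelf_prod, ← chartedSpaceSelf_prod] 
    exact this
  simp only [coordForm]
  rw [key]
  rfl

theorem isOpen_target [I.Boundaryless] (x₀ : X) : IsOpen (extChartAt I x₀).target :=
  isOpen_extChartAt_target x₀

theorem IsClosedForm.prod [I.Boundaryless] [I'.Boundaryless] [IsManifold I ∞ X] [IsManifold I' ∞ Y]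
    {Ω : ∀ x : X, TangentSpace I x →L[ℝ] TangentSpace I x →L[ℝ] ℝ}
    {Ω' : ∀ x : Y, TangentSpace I' x →L[ℝ] TangentSpace I' x →L[ℝ] ℝ}
    (h : IsClosedForm I Ω) (h' : IsClosedForm I' Ω') :
    IsClosedForm (I.prod I') (prodForm I I' Ω Ω') where
  alt p v := by
    exact (congrArg₂ (· + ·) (h.alt p.1 v.1) (h'.alt p.2 v.2)).trans (add_zero 0)
  smooth p v w := by
    have e1 : ContDiffOn ℝ ∞ (fun y : E × F => coordForm I Ω p.1 v.1 w.1 y.1 +
        coordForm I' Ω' p.2 v.2 w.2 y.2) (extChartAt (I.prod I') p).target := by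
      rw [extChartAt_prod]
      refine ContDiffOn.add ?_ ?_
      · exact (h.smooth p.1 v.1 w.1).comp contDiff_fst.contDiffOn (fun y hy => hy.1)
      · exact (h'.smooth p.2 v.2 w.2).comp contDiff_snd.contDiffOn (fun y hy => hy.2)
    exact e1.congr (fun y hy => coordForm_prod Ω Ω' p v w y hy)
  closed p u v w y hy := by
    have hy1 : y.1 ∈ (extChartAt I p.1).target := by
      rw [extChartAt_prod] at hy; exact hy.1
    have hy2 : y.2 ∈ (extChartAt I' p.2).target := by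
      rw [extChartAt_prod] at hy; exact hy.2
    have key : ∀ a b c : E × F, fderiv ℝ (coordForm (I.prod I') (prodForm I I' Ω Ω') p a b) y c =
        fderiv ℝ (coordForm I Ω p.1 a.1 b.1) y.1 c.1 + fderiv ℝ (coordForm I' Ω' p.2 a.2 b.2) y.2 c.2 := by
      intro a b c
      have e : coordForm (I.prod I') (prodForm I I' Ω Ω') p a b =ᶠ[𝓝 y]
          (fun y : E × F => coordForm I Ω p.1 a.1 b.1 y.1 + coordForm I' Ω' p.2 a.2 b.2 y.2) := by
        filter_upwards [(isOpen_target (I := I.prod I') p).mem_nhds hy] with z hz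
        exact coordForm_prod Ω Ω' p a b z hz
      rw [e.fderiv_eq]
      have d1 : DifferentiableAt ℝ (coordForm I Ω p.1 a.1 b.1) y.1 :=
        ((h.smooth p.1 a.1 b.1).contDiffAt ((isOpen_target p.1).mem_nhds hy1)).differentiableAt (by simp)
      have d2 : DifferentiableAt ℝ (coordForm I' Ω' p.2 a.2 b.2) y.2 :=
        ((h'.smooth p.2 a.2 b.2).contDiffAt ((isOpen_target p.2).mem_nhds hy2)).differentiableAt (by simp)
      have d3 := (d1.hasFDerivAt.comp y (hasFDerivAt_fst (𝕜 := ℝ) (E := E) (F := F))).add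
        (d2.hasFDerivAt.comp y (hasFDerivAt_snd (𝕜 := ℝ) (E := E) (F := F)))
      have d4 := d3.fderiv
      have d5 : fderiv ℝ (fun y : E × F => coordForm I Ω p.1 a.1 b.1 y.1 + coordForm I' Ω' p.2 a.2 b.2 y.2) y =
        (fderiv ℝ (coordForm I Ω p.1 a.1 b.1) y.1).comp (ContinuousLinearMap.fst ℝ E F) +
        (fderiv ℝ (coordForm I' Ω' p.2 a.2 b.2) y.2).comp (ContinuousLinearMap.snd ℝ E F) := d4
      rw [d5]
      rfl
    rw [key, key, key]
    have c1 := h.closed p.1 u.1 v.1 w.1 y.1 hy1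
    have c2 := h'.closed p.2 u.2 v.2 w.2 y.2 hy2
    linarith

theorem coordForm_add_left (Ω : ∀ x : X, TangentSpace I x →L[ℝ] TangentSpace I x →L[ℝ] ℝ)
    (x₀ : X) (v v' w : E) (y : E) :
    coordForm I Ω x₀ (v + v') w y = coordForm I Ω x₀ v w y + coordForm I Ω x₀ v' w y := by
  unfold coordForm
  have h := (mfderiv 𝓘(ℝ, E) I (extChartAt I x₀).symm y).map_add v v'
  have h2 := (Ω ((extChartAt I x₀).symm y)).map_add
    (mfderiv 𝓘(ℝ, E) I (extChartAt I x₀).symm y v) (mfderiv 𝓘(ℝ, E) I (extChartAt I x₀).symm y v')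
  exact (congrArg (fun t => Ω ((extChartAt I x₀).symm y) t
    (mfderiv 𝓘(ℝ, E) I (extChartAt I x₀).symm y w)) h).trans (congrArg (fun f => f
    (mfderiv 𝓘(ℝ, E) I (extChartAt I x₀).symm y w)) h2)

theorem coordForm_smul_left (Ω : ∀ x : X, TangentSpace I x →L[ℝ] TangentSpace I x →L[ℝ] ℝ)
    (x₀ : X) (c : ℝ) (v w : E) (y : E) :
    coordForm I Ω x₀ (c • v) w y = c * coordForm I Ω x₀ v w y := by
  unfold coordForm
  have h := (mfderiv 𝓘(ℝ, E) I (extChartAt I x₀).symm y).map_smul c v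
  have h2 := (Ω ((extChartAt I x₀).symm y)).map_smul c
    (mfderiv 𝓘(ℝ, E) I (extChartAt I x₀).symm y v)
  exact (congrArg (fun t => Ω ((extChartAt I x₀).symm y) t
    (mfderiv 𝓘(ℝ, E) I (extChartAt I x₀).symm y w)) h).trans (congrArg (fun f => f
    (mfderiv 𝓘(ℝ, E) I (extChartAt I x₀).symm y w)) h2)

theorem coordForm_self (Ω : ∀ x : X, TangentSpace I x →L[ℝ] TangentSpace I x →L[ℝ] ℝ)
    (alt : ∀ x v, Ω x v v = 0) (x₀ : X) (v : E) (y : E) :
    coordForm I Ω x₀ v v y = 0 := alt _ _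

theorem alt_swap (Ω : ∀ x : X, TangentSpace I x →L[ℝ] TangentSpace I x →L[ℝ] ℝ)
    (alt : ∀ x v, Ω x v v = 0) (x : X) (v w : TangentSpace I x) : Ω x v w = - Ω x w v := by
  have h := alt x (v + w)
  simp only [map_add, add_apply, alt] at h
  linarith

theorem coordForm_swap (Ω : ∀ x : X, TangentSpace I x →L[ℝ] TangentSpace I x →L[ℝ] ℝ)
    (alt : ∀ x v, Ω x v v = 0) (x₀ : X) (v w : E) (y : E) :
    coordForm I Ω x₀ v w y = - coordForm I Ω x₀ w v y := alt_swap Ω alt _ _ _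

theorem closed_of_finrank_two [I.Boundaryless] [IsManifold I ∞ X]
    (hE : Module.finrank ℝ E = 2)
    (Ω : ∀ x : X, TangentSpace I x →L[ℝ] TangentSpace I x →L[ℝ] ℝ)
    (alt : ∀ x v, Ω x v v = 0)
    (smooth : ∀ (x₀ : X) (v w : E), ContDiffOn ℝ ∞ (coordForm I Ω x₀ v w) (extChartAt I x₀).target) :
    IsClosedForm I Ω where
  alt := alt
  smooth := smooth
  closed x₀ u v w y hy := by
    have : FiniteDimensional ℝ E := Module.finite_of_finrank_eq_succ hE
    let b := Module.finBasisOfFinrankEq ℝ E hE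
    have key : ∀ v w : E, coordForm I Ω x₀ v w = fun y =>
        (b.repr v 0 * b.repr w 1 - b.repr v 1 * b.repr w 0) * coordForm I Ω x₀ (b 0) (b 1) y := by
      intro v w
      funext y
      have hv : v = b.repr v 0 • b 0 + b.repr v 1 • b 1 := by
        conv_lhs => rw [← b.sum_repr v, Fin.sum_univ_two]
      have hw : w = b.repr w 0 • b 0 + b.repr w 1 • b 1 := by
        conv_lhs => rw [← b.sum_repr w, Fin.sum_univ_two]
      generalize b.repr v 0 = v0 at *
      generalize b.repr v 1 = v1 at *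
      generalize b.repr w 0 = w0 at *
      generalize b.repr w 1 = w1 at *
      subst hv
      subst hw
      rw [coordForm_add_left, coordForm_smul_left, coordForm_smul_left,
        coordForm_swap Ω alt x₀ (b 0), coordForm_swap Ω alt x₀ (b 1) (w0 • b 0 + w1 • b 1),
        coordForm_add_left, coordForm_smul_left, coordForm_smul_left,
        coordForm_add_left, coordForm_smul_left, coordForm_smul_left,
        coordForm_self Ω alt, coordForm_self Ω alt, coordForm_swap Ω alt x₀ (b 1) (b 0)]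
      ring
    have d : DifferentiableAt ℝ (coordForm I Ω x₀ (b 0) (b 1)) y :=
      ((smooth x₀ (b 0) (b 1)).contDiffAt ((isOpen_target x₀).mem_nhds hy)).differentiableAt (by simp)
    have key2 : ∀ a c e : E, fderiv ℝ (coordForm I Ω x₀ a c) y e =
        (b.repr a 0 * b.repr c 1 - b.repr a 1 * b.repr c 0) *
          fderiv ℝ (coordForm I Ω x₀ (b 0) (b 1)) y e := by
      intro a c e
      rw [key a c, fderiv_const_mul d]
      simp
    rw [key2 v w u, key2 w u v, key2 u v w]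
    have hL : ∀ e : E, fderiv ℝ (coordForm I Ω x₀ (b 0) (b 1)) y e =
        b.repr e 0 * fderiv ℝ (coordForm I Ω x₀ (b 0) (b 1)) y (b 0) +
        b.repr e 1 * fderiv ℝ (coordForm I Ω x₀ (b 0) (b 1)) y (b 1) := by
      intro e
      conv_lhs => rw [← b.sum_repr e, Fin.sum_univ_two]
      simp
    rw [hL u, hL v, hL w]
    ring

end forms

section
variable {E : Type*} [NormedAddCommGroup E] [NormedSpace ℝ E] {H : Type*} [TopologicalSpace H]
  {I : ModelWithCorners ℝ E H} {X : Type*} [TopologicalSpace X] [ChartedSpace H X]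
  {F : Type*} [NormedAddCommGroup F] [NormedSpace ℝ F]

theorem contDiffOn_comp_symm [I.Boundaryless] [IsManifold I ∞ X] {g : X → F}
    (hg : ContMDiff I 𝓘(ℝ, F) ∞ g) (x₀ : X) :
    ContDiffOn ℝ ∞ (fun y => g ((extChartAt I x₀).symm y)) (extChartAt I x₀).target := by
  have h := hg.comp_contMDiffOn (contMDiffOn_extChartAt_symm (n := ∞) (I := I) x₀)
  exact h.contDiffOn

theorem mfderiv_comp_symm [I.Boundaryless] [IsManifold I ∞ X] {g : X → F}
    (hg : ContMDiff I 𝓘(ℝ, F) ∞ g) (x₀ : X) {y : E} (hy : y ∈ (extChartAt I x₀).target) (v : E) :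
    mvfderiv I g ((extChartAt I x₀).symm y) (mfderiv 𝓘(ℝ, E) I (extChartAt I x₀).symm y v) =
      fderiv ℝ (fun y => g ((extChartAt I x₀).symm y)) y v := by
  have h1 : MDifferentiableAt I 𝓘(ℝ, F) g ((extChartAt I x₀).symm y) :=
    hg.mdifferentiableAt (by simp)
  have h2 := mdiffAt_symm (I := I) x₀ hy
  have h3 := mfderiv_comp y h1 h2
  have h4 := congrArg (fun L : E →L[ℝ] F => L v) h3
  rw [← mfderiv_eq_fderiv]
  exact h4.symm

theorem contDiffOn_fderiv_symm [I.Boundaryless] [IsManifold I ∞ X] {g : X → F}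
    (hg : ContMDiff I 𝓘(ℝ, F) ∞ g) (x₀ : X) (v : E) :
    ContDiffOn ℝ ∞ (fun y => fderiv ℝ (fun y => g ((extChartAt I x₀).symm y)) y v)
      (extChartAt I x₀).target := by
  have h := contDiffOn_comp_symm hg x₀
  have h2 := h.fderiv_of_isOpen (isOpen_target x₀) (m := ∞) (by simp)
  exact h2.clm_apply contDiffOn_const

end

/-- The area form of the unit sphere. -/
noncomputable def sigma (z : S2) : TangentSpace (𝓡 2) z →L[ℝ] TangentSpace (𝓡 2) z →L[ℝ] ℝ :=
  bpull (E := E3) (G := EuclideanSpace ℝ (Fin 2)) ((innerSL ℝ).comp (crossL z)) (Di z)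

theorem sigma_apply (z : S2) (v w : TangentSpace (𝓡 2) z) :
    sigma z v w = ⟪cross z (Di z v), Di z w⟫ := rfl

theorem sigma_closed : IsClosedForm (𝓡 2) sigma := by
  refine closed_of_finrank_two (by simp) sigma ?_ ?_
  · intro z v
    rw [sigma_apply, inner_cross_right]
  · intro x₀ v w
    have h1 : ContDiffOn ℝ ∞ (fun y => (((extChartAt (𝓡 2) x₀).symm y : S2) : E3)) (extChartAt (𝓡 2) x₀).target :=
      contDiffOn_comp_symm contMDiff_coe_S2 x₀
    have h2 := contDiffOn_fderiv_symm contMDiff_coe_S2 x₀ v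
    have h3 := contDiffOn_fderiv_symm contMDiff_coe_S2 x₀ w
    have h4 : ContDiffOn ℝ ∞ (fun y => ⟪crossL (((extChartAt (𝓡 2) x₀).symm y : S2) : E3)
        (fderiv ℝ (fun y => (((extChartAt (𝓡 2) x₀).symm y : S2) : E3)) y v),
        fderiv ℝ (fun y => (((extChartAt (𝓡 2) x₀).symm y : S2) : E3)) y w⟫)
        (extChartAt (𝓡 2) x₀).target := by
      refine ContDiffOn.inner ℝ ?_ h3
      exact (crossL.contDiff.comp_contDiffOn h1).clm_apply h2
    refine h4.congr fun y hy => ?_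
    have e1 := mfderiv_comp_symm contMDiff_coe_S2 x₀ hy v
    have e2 := mfderiv_comp_symm contMDiff_coe_S2 x₀ hy w
    rw [← e1, ← e2]
    rfl

section
variable {E : Type*} [NormedAddCommGroup E] [NormedSpace ℝ E] {H : Type*} [TopologicalSpace H]
  {I : ModelWithCorners ℝ E H} {X : Type*} [TopologicalSpace X] [ChartedSpace H X]
  {EN : Type*} [NormedAddCommGroup EN] [NormedSpace ℝ EN] {HN : Type*} [TopologicalSpace HN]
  {IN : ModelWithCorners ℝ EN HN} {N : Type*} [TopologicalSpace N] [ChartedSpace HN N]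

theorem coordForm_add_right (Ω : ∀ x : X, TangentSpace I x →L[ℝ] TangentSpace I x →L[ℝ] ℝ)
    (alt : ∀ x v, Ω x v v = 0)
    (x₀ : X) (v w w' : E) (y : E) :
    coordForm I Ω x₀ v (w + w') y = coordForm I Ω x₀ v w y + coordForm I Ω x₀ v w' y := by
  rw [coordForm_swap Ω alt, coordForm_add_left, coordForm_swap Ω alt x₀ v w,
    coordForm_swap Ω alt x₀ v w']
  ring

theorem coordForm_smul_right (Ω : ∀ x : X, TangentSpace I x →L[ℝ] TangentSpace I x →L[ℝ] ℝ)
    (alt : ∀ x v, Ω x v v = 0)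
    (x₀ : X) (c : ℝ) (v w : E) (y : E) :
    coordForm I Ω x₀ v (c • w) y = c * coordForm I Ω x₀ v w y := by
  rw [coordForm_swap Ω alt, coordForm_smul_left, coordForm_swap Ω alt x₀ v w]
  ring

theorem coordForm_sum_left (Ω : ∀ x : X, TangentSpace I x →L[ℝ] TangentSpace I x →L[ℝ] ℝ)
    {ι : Type*} (s : Finset ι) (x₀ : X) (c : ι → ℝ) (b : ι → E) (w : E) (y : E) :
    coordForm I Ω x₀ (∑ i ∈ s, c i • b i) w y = ∑ i ∈ s, c i * coordForm I Ω x₀ (b i) w y := by
  classical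
  induction s using Finset.induction_on with
  | empty =>
    have := coordForm_smul_left Ω x₀ 0 0 w y
    simpa using this
  | insert i s hi ih =>
    rw [Finset.sum_insert hi, Finset.sum_insert hi, coordForm_add_left, coordForm_smul_left, ih]

theorem coordForm_sum_right (Ω : ∀ x : X, TangentSpace I x →L[ℝ] TangentSpace I x →L[ℝ] ℝ)
    (alt : ∀ x v, Ω x v v = 0)
    {ι : Type*} (s : Finset ι) (x₀ : X) (c : ι → ℝ) (b : ι → E) (v : E) (y : E) :
    coordForm I Ω x₀ v (∑ i ∈ s, c i • b i) y = ∑ i ∈ s, c i * coordForm I Ω x₀ v (b i) y := by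
  rw [coordForm_swap Ω alt, coordForm_sum_left, ← Finset.sum_neg_distrib]
  refine Finset.sum_congr rfl fun i _ => ?_
  rw [coordForm_swap Ω alt x₀ v (b i)]
  ring

theorem IsClosedForm.smooth_along [I.Boundaryless] [IsManifold I ∞ X] [FiniteDimensional ℝ E]
    {Ω : ∀ x : X, TangentSpace I x →L[ℝ] TangentSpace I x →L[ℝ] ℝ} (h : IsClosedForm I Ω)
    {a : N → X} {v w : ∀ n, TangentSpace I (a n)}
    (hv : ContMDiff IN I.tangent ∞ (fun n => (⟨a n, v n⟩ : TangentBundle I X)))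
    (hw : ContMDiff IN I.tangent ∞ (fun n => (⟨a n, w n⟩ : TangentBundle I X))) :
    ContMDiff IN 𝓘(ℝ, ℝ) ∞ (fun n => Ω (a n) (v n) (w n)) := by
  have : IsManifold I 1 X := IsManifold.of_le (n := ∞) (by simp)
  intro n₀
  have hv' := contMDiffAt_totalSpace.1 (hv n₀)
  have hw' := contMDiffAt_totalSpace.1 (hw n₀)
  have ha : ContMDiffAt IN I ∞ a n₀ := hv'.1
  set x₀ := a n₀ with hx₀
  set e := trivializationAt E (TangentSpace I) x₀ with he
  let b := Module.finBasis ℝ E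
  have hsrc : ∀ᶠ n in 𝓝 n₀, a n ∈ (chartAt H x₀).source :=
    ha.continuousAt.preimage_mem_nhds ((chartAt H x₀).open_source.mem_nhds (mem_chart_source H x₀))
  have hφ : ContMDiffAt IN 𝓘(ℝ, E) ∞ (fun n => extChartAt I x₀ (a n)) n₀ :=
    (contMDiffAt_extChartAt (n := ∞) (I := I) (x := x₀)).comp n₀ ha
  have hrepr : ∀ i, ContMDiff 𝓘(ℝ, E) 𝓘(ℝ, ℝ) ∞ (fun z : E => b.repr z i) := by
    intro i
    exact (LinearMap.toContinuousLinearMap (b.coord i)).contDiff.contMDiff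
  have hcoord : ∀ i j, ContMDiffAt IN 𝓘(ℝ, ℝ) ∞
      (fun n => coordForm I Ω x₀ (b i) (b j) (extChartAt I x₀ (a n))) n₀ := by
    intro i j
    have h1 : ContDiffAt ℝ ∞ (coordForm I Ω x₀ (b i) (b j)) (extChartAt I x₀ (a n₀)) :=
      (h.smooth x₀ (b i) (b j)).contDiffAt
        ((isOpen_target x₀).mem_nhds (mem_extChartAt_target x₀))
    exact ContMDiffAt.comp (I' := 𝓘(ℝ, E)) (g := coordForm I Ω x₀ (b i) (b j))
      (f := fun n => extChartAt I x₀ (a n)) n₀ h1.contMDiffAt hφ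
  have hsum : ContMDiffAt IN 𝓘(ℝ, ℝ) ∞ (fun n => ∑ i, b.repr (e ⟨a n, v n⟩).2 i *
      ∑ j, b.repr (e ⟨a n, w n⟩).2 j * coordForm I Ω x₀ (b i) (b j) (extChartAt I x₀ (a n))) n₀ := by
    refine contMDiffAt_finsetSum (t := Finset.univ) fun i _ => ?_
    refine ((hrepr i).contMDiffAt.comp n₀ hv'.2).mul ?_
    refine contMDiffAt_finsetSum (t := Finset.univ) fun j _ => ?_
    exact ((hrepr j).contMDiffAt.comp n₀ hw'.2).mul (hcoord i j)
  refine hsum.congr_of_eventuallyEq ?_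
  filter_upwards [hsrc] with n hn
  have hbase : a n ∈ e.baseSet := by
    rw [he, TangentBundle.trivializationAt_baseSet]; exact hn
  have key : ∀ u : TangentSpace I (a n),
      mfderiv 𝓘(ℝ, E) I (extChartAt I x₀).symm (extChartAt I x₀ (a n)) (e ⟨a n, u⟩).2 = u := by
    intro u
    have h1 := TangentBundle.symmL_trivializationAt (I := I) hn
    rw [I.range_eq_univ, mfderivWithin_univ] at h1
    have h2 : e.symmL ℝ (a n) (e.continuousLinearMapAt ℝ (a n) u) = u :=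
      e.symmL_continuousLinearMapAt hbase u
    have h3 : e.continuousLinearMapAt ℝ (a n) u = (e ⟨a n, u⟩).2 :=
      Trivialization.continuousLinearMapAt_apply_of_mem (R := ℝ) e hbase u
    rw [h3] at h2
    exact (congrArg (fun L : E →L[ℝ] E => L (e ⟨a n, u⟩).2) h1.symm).trans h2
  have hback : (extChartAt I x₀).symm (extChartAt I x₀ (a n)) = a n :=
    (extChartAt I x₀).left_inv (by rw [extChartAt_source]; exact hn)
  have hΩ : Ω (a n) (v n) (w n) = coordForm I Ω x₀ (e ⟨a n, v n⟩).2 (e ⟨a n, w n⟩).2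
      (extChartAt I x₀ (a n)) := by
    unfold coordForm
    have h1 := key (v n)
    have h2 := key (w n)
    have gen : ∀ (x : X) (hx : x = a n) (p q : E) (hp : p = v n) (hq : q = w n),
        Ω x p q = Ω (a n) (v n) (w n) := by
      intro x hx p q hp hq
      subst hx; subst hp; subst hq; rfl
    exact (gen _ hback _ _ h1 h2).symm
  rw [hΩ]
  conv_lhs => rw [← b.sum_repr (e ⟨a n, v n⟩).2, coordForm_sum_left]
  refine Finset.sum_congr rfl fun i _ => ?_
  congr 1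
  conv_lhs => rw [← b.sum_repr (e ⟨a n, w n⟩).2, coordForm_sum_right Ω h.alt]

end

section prodTangent
variable {E : Type*} [NormedAddCommGroup E] [NormedSpace ℝ E] {H : Type*} [TopologicalSpace H]
  {I : ModelWithCorners ℝ E H} {X : Type*} [TopologicalSpace X] [ChartedSpace H X]
  {F : Type*} [NormedAddCommGroup F] [NormedSpace ℝ F] {H' : Type*} [TopologicalSpace H']
  {I' : ModelWithCorners ℝ F H'} {Y : Type*} [TopologicalSpace Y] [ChartedSpace H' Y]
  {EN : Type*} [NormedAddCommGroup EN] [NormedSpace ℝ EN] {HN : Type*} [TopologicalSpace HN]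
  {IN : ModelWithCorners ℝ EN HN} {N : Type*} [TopologicalSpace N] [ChartedSpace HN N]

theorem smooth_mk_prod [IsManifold I ∞ X] [IsManifold I' ∞ Y] {a : N → X} {b : N → Y}
    {v : ∀ n, TangentSpace I (a n)} {w : ∀ n, TangentSpace I' (b n)}
    (hv : ContMDiff IN I.tangent ∞ (fun n => (⟨a n, v n⟩ : TangentBundle I X)))
    (hw : ContMDiff IN I'.tangent ∞ (fun n => (⟨b n, w n⟩ : TangentBundle I' Y))) :
    ContMDiff IN (I.prod I').tangent ∞
      (fun n => (⟨(a n, b n), (v n, w n)⟩ : TangentBundle (I.prod I') (X × Y))) := by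
  have : IsManifold I 1 X := IsManifold.of_le (n := ∞) (by simp)
  have : IsManifold I' 1 Y := IsManifold.of_le (n := ∞) (by simp)
  exact (contMDiff_equivTangentBundleProd_symm (n := ∞) (I := I) (M := X)
    (I' := I') (M' := Y)).comp (hv.prodMk hw)

theorem smooth_fst_prod [IsManifold I ∞ X] [IsManifold I' ∞ Y] {g : N → X × Y}
    {v : ∀ n, TangentSpace (I.prod I') (g n)}
    (hv : ContMDiff IN (I.prod I').tangent ∞ (fun n => (⟨g n, v n⟩ : TangentBundle (I.prod I') (X × Y)))) :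
    ContMDiff IN I.tangent ∞ (fun n => (⟨(g n).1, (v n).1⟩ : TangentBundle I X)) := by
  have : IsManifold I 1 X := IsManifold.of_le (n := ∞) (by simp)
  have : IsManifold I' 1 Y := IsManifold.of_le (n := ∞) (by simp)
  exact contMDiff_fst.comp ((contMDiff_equivTangentBundleProd (n := ∞) (I := I) (M := X)
    (I' := I') (M' := Y)).comp hv)

theorem smooth_snd_prod [IsManifold I ∞ X] [IsManifold I' ∞ Y] {g : N → X × Y}
    {v : ∀ n, TangentSpace (I.prod I') (g n)}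
    (hv : ContMDiff IN (I.prod I').tangent ∞ (fun n => (⟨g n, v n⟩ : TangentBundle (I.prod I') (X × Y)))) :
    ContMDiff IN I'.tangent ∞ (fun n => (⟨(g n).2, (v n).2⟩ : TangentBundle I' Y)) := by
  have : IsManifold I 1 X := IsManifold.of_le (n := ∞) (by simp)
  have : IsManifold I' 1 Y := IsManifold.of_le (n := ∞) (by simp)
  exact contMDiff_snd.comp ((contMDiff_equivTangentBundleProd (n := ∞) (I := I) (M := X)
    (I' := I') (M' := Y)).comp hv)

end prodTangent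

section shear

variable {A B C : Type*} [NormedAddCommGroup A] [NormedSpace ℝ A] [NormedAddCommGroup B]
  [NormedSpace ℝ B] [NormedAddCommGroup C] [NormedSpace ℝ C]

/-- The shear `(a, b, c) ↦ (a + κ c • Z, b, c + α a • ξ)`. -/
noncomputable def shear (α : A →L[ℝ] ℝ) (κ : C →L[ℝ] ℝ) (Z : A) (ξ : C) :
    A × (B × C) →L[ℝ] A × (B × C) :=
  ContinuousLinearMap.id ℝ (A × (B × C)) +
    ((κ.comp ((ContinuousLinearMap.snd ℝ B C).comp (ContinuousLinearMap.snd ℝ A (B × C)))).smulRight Z).prod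
      ((0 : A × (B × C) →L[ℝ] B).prod ((α.comp (ContinuousLinearMap.fst ℝ A (B × C))).smulRight ξ))

theorem shear_apply (α : A →L[ℝ] ℝ) (κ : C →L[ℝ] ℝ) (Z : A) (ξ : C) (v : A × (B × C)) :
    shear α κ Z ξ v = (v.1 + κ v.2.2 • Z, (v.2.1, v.2.2 + α v.1 • ξ)) := by
  simp [shear, Prod.ext_iff]

end shear

theorem shear_shear {A B C : Type*} [NormedAddCommGroup A] [NormedSpace ℝ A] [NormedAddCommGroup B]
    [NormedSpace ℝ B] [NormedAddCommGroup C] [NormedSpace ℝ C]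
    (α : A →L[ℝ] ℝ) (κ : C →L[ℝ] ℝ) (Z : A) (ξ : C) (hα : α Z = 0) (hκ : κ ξ = 0)
    (v : A × (B × C)) :
    shear (-α) κ Z ξ (shear α (-κ) Z ξ v) = v := by
  simp [shear_apply, hα, hκ]

theorem shear_shear' {A B C : Type*} [NormedAddCommGroup A] [NormedSpace ℝ A] [NormedAddCommGroup B]
    [NormedSpace ℝ B] [NormedAddCommGroup C] [NormedSpace ℝ C]
    (α : A →L[ℝ] ℝ) (κ : C →L[ℝ] ℝ) (Z : A) (ξ : C) (hα : α Z = 0) (hκ : κ ξ = 0)
    (v : A × (B × C)) :
    shear α (-κ) Z ξ (shear (-α) κ Z ξ v) = v := by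
  simp [shear_apply, hα, hκ]

theorem shear_symp {A B C : Type*} [NormedAddCommGroup A] [NormedSpace ℝ A] [NormedAddCommGroup B]
    [NormedSpace ℝ B] [NormedAddCommGroup C] [NormedSpace ℝ C]
    (σ : A →L[ℝ] A →L[ℝ] ℝ) (β : B →L[ℝ] B →L[ℝ] ℝ) (τ : C →L[ℝ] C →L[ℝ] ℝ)
    (hσ : ∀ a, σ a a = 0) (hτ : ∀ c, τ c c = 0)
    (α : A →L[ℝ] ℝ) (κ : C →L[ℝ] ℝ) (Z : A) (ξ : C)
    (hα : ∀ a, σ a Z = α a) (hκ : ∀ c, τ ξ c = κ c) (v w : A × (B × C)) :
    σ (shear α (-κ) Z ξ v).1 (shear α (-κ) Z ξ w).1 +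
      (β (shear α (-κ) Z ξ v).2.1 (shear α (-κ) Z ξ w).2.1 +
        τ (shear α (-κ) Z ξ v).2.2 (shear α (-κ) Z ξ w).2.2) =
    σ v.1 w.1 + (β v.2.1 w.2.1 + τ v.2.2 w.2.2) := by
  have hσ' : ∀ a a', σ a a' = - σ a' a := by
    intro a a'
    have h := hσ (a + a')
    simp only [map_add, add_apply, hσ] at h
    linarith
  have hτ' : ∀ a a', τ a a' = - τ a' a := by
    intro a a'
    have h := hτ (a + a')
    simp only [map_add, add_apply, hτ] at h
    linarith
  simp only [shear_apply]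
  simp only [map_add, map_smul, add_apply, smul_apply, neg_apply, smul_eq_mul, hα, hκ, hσ' Z, hτ' v.2.2 ξ]
  have h1 : α Z = 0 := by rw [← hα, hσ]
  have h2 : κ ξ = 0 := by rw [← hκ, hτ]
  rw [h1, h2]
  ring

/-- rotation on the sphere. -/
noncomputable def jS (z : S2) : TangentSpace (𝓡 2) z →L[ℝ] TangentSpace (𝓡 2) z :=
  (Q z).comp (-(Di z))

theorem Di_jS (z : S2) (v : TangentSpace (𝓡 2) z) : Di z (jS z v) = cross z (Di z v) := by
  have h : jS z v = Q z (-(Di z v)) := rfl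
  rw [h, Di_Q]
  apply e3_ext <;> simp only [cross_0, cross_1, cross_2, PiLp.neg_apply] <;> ring

theorem cross_cross (z : S2) (v : TangentSpace (𝓡 2) z) :
    cross z (cross z (Di z v)) = - Di z v := by
  have h1 := s2_sq z
  have h2 := inner_Di z v
  rw [inner3] at h2
  generalize Di z v = a at *
  apply e3_ext <;> simp only [cross_0, cross_1, cross_2, PiLp.neg_apply]
  · linear_combination (z : E3) 0 * h2 - a 0 * h1
  · linear_combination (z : E3) 1 * h2 - a 1 * h1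
  · linear_combination (z : E3) 2 * h2 - a 2 * h1

theorem jS_jS (z : S2) (v : TangentSpace (𝓡 2) z) : jS z (jS z v) = -v := by
  apply Di_injective z
  rw [Di_jS, Di_jS, cross_cross, map_neg]

theorem inner_cross_cross (z : S2) (v w : TangentSpace (𝓡 2) z) :
    ⟪cross z (Di z v), cross z (Di z w)⟫ = ⟪Di z v, Di z w⟫ := by
  have h1 := s2_sq z
  have h2 := inner_Di z v
  have h3 := inner_Di z w
  rw [inner3] at h2 h3
  generalize Di z v = a at *
  generalize Di z w = b at *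
  rw [inner3, inner3]
  simp only [cross_0, cross_1, cross_2]
  linear_combination (a 0 * b 0 + a 1 * b 1 + a 2 * b 2) * h1 -
    ((z : E3) 0 * b 0 + (z : E3) 1 * b 1 + (z : E3) 2 * b 2) * h2

theorem sigma_alt (z : S2) (v : TangentSpace (𝓡 2) z) : sigma z v v = 0 := sigma_closed.alt z v

theorem sigma_jS_jS (z : S2) (v w : TangentSpace (𝓡 2) z) :
    sigma z (jS z v) (jS z w) = sigma z v w := by
  rw [sigma_apply, sigma_apply, Di_jS, Di_jS, cross_cross]
  rw [inner3, inner3]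
  simp only [cross_0, cross_1, cross_2, PiLp.neg_apply]
  ring

theorem sigma_pos (z : S2) (v : TangentSpace (𝓡 2) z) (hv : v ≠ 0) : 0 < sigma z v (jS z v) := by
  rw [sigma_apply, Di_jS, inner_cross_cross, real_inner_self_eq_norm_sq]
  have : Di z v ≠ 0 := by
    intro h
    apply hv
    apply Di_injective z
    rw [h, map_zero]
  positivity

theorem smooth_jS : ContMDiff (𝓡 2).tangent (𝓡 2).tangent ∞
    (fun p : TangentBundle (𝓡 2) S2 => (⟨p.1, jS p.1 p.2⟩ : TangentBundle (𝓡 2) S2)) := by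
  have h1 : ContMDiff (𝓡 2).tangent 𝓘(ℝ, E3) ∞ (fun p : TangentBundle (𝓡 2) S2 => Di p.1 p.2) :=
    smooth_Di (a := fun p : TangentBundle (𝓡 2) S2 => p.1) (v := fun p => p.2) contMDiff_id
  exact smooth_Q (contMDiff_proj (TangentSpace (𝓡 2) : S2 → Type _)) h1.neg

end Pool.Agent.LibRCAK
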