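import Pool.Agent.LibRCAK.Curves
/-!
Stereographic projection as a holomorphic map from the Riemann sphere to `S2`.
-/
set_option autoImplicit false
open scoped Manifold ContDiff Topology RealInnerProductSpace
open Bundle Set

namespace Pool.Agent.LibRCAK

/-- numerator of the inverse stereographic projection -/
noncomputable def sterN (ε : ℝ) (z : ℂ) : E3 :=
  !₂[2 * z.re, -ε * (2 * z.im), ε * (z.re * z.re + z.im * z.im - 1)]

/-- denominator -/
noncomputable def sterD (z : ℂ) : ℝ := 1 + (z.re * z.re + z.im * z.im)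

theorem sterD_pos (z : ℂ) : 0 < sterD z := by
  unfold sterD
  nlinarith [mul_self_nonneg z.re, mul_self_nonneg z.im]

/-- inverse stereographic projection (`ε = 1` or `ε = -1`). -/
noncomputable def ster (ε : ℝ) (z : ℂ) : E3 := (sterD z)⁻¹ • sterN ε z

theorem ster_0 (ε : ℝ) (z : ℂ) : ster ε z 0 = (sterD z)⁻¹ * (2 * z.re) := rfl
theorem ster_1 (ε : ℝ) (z : ℂ) : ster ε z 1 = (sterD z)⁻¹ * (-ε * (2 * z.im)) := rfl
theorem ster_2 (ε : ℝ) (z : ℂ) : ster ε z 2 = (sterD z)⁻¹ * (ε * (z.re * z.re + z.im * z.im - 1)) := rfl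

theorem ster_mem {ε : ℝ} (hε : ε * ε = 1) (z : ℂ) : ster ε z ∈ Metric.sphere (0 : E3) 1 := by
  rw [mem_sphere_zero_iff_norm, ← sq_eq_sq₀ (norm_nonneg _) zero_le_one, ← real_inner_self_eq_norm_sq,
    inner3, ster_0, ster_1, ster_2]
  have h := (sterD_pos z).ne'
  field_simp
  unfold sterD
  linear_combination (4 * z.im * z.im + (z.re * z.re + z.im * z.im - 1) ^ 2) * hε

/-- derivative of the numerator -/
noncomputable def sterN' (ε : ℝ) (z : ℂ) : ℂ →L[ℝ] E3 :=
  LinearMap.toContinuousLinearMap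
    { toFun := fun w => !₂[2 * w.re, -ε * (2 * w.im), ε * (2 * (z.re * w.re + z.im * w.im))]
      map_add' := by
        intro a b
        apply e3_ext
        · show 2 * (a + b).re = 2 * a.re + 2 * b.re
          rw [Complex.add_re]; ring
        · show -ε * (2 * (a + b).im) = -ε * (2 * a.im) + -ε * (2 * b.im)
          rw [Complex.add_im]; ring
        · show ε * (2 * (z.re * (a + b).re + z.im * (a + b).im)) =
            ε * (2 * (z.re * a.re + z.im * a.im)) + ε * (2 * (z.re * b.re + z.im * b.im))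
          rw [Complex.add_im, Complex.add_re]; ring
      map_smul' := by
        intro c a
        apply e3_ext
        · show 2 * (c • a).re = c * (2 * a.re)
          rw [Complex.smul_re]; simp only [smul_eq_mul]; ring
        · show -ε * (2 * (c • a).im) = c * (-ε * (2 * a.im))
          rw [Complex.smul_im]; simp only [smul_eq_mul]; ring
        · show ε * (2 * (z.re * (c • a).re + z.im * (c • a).im)) =
            c * (ε * (2 * (z.re * a.re + z.im * a.im)))
          rw [Complex.smul_im, Complex.smul_re]; simp only [smul_eq_mul]; ring }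

theorem hasFDerivAt_re_sq (z : ℂ) : HasFDerivAt (fun z : ℂ => z.re * z.re + z.im * z.im)
    ((2 * z.re) • Complex.reCLM + (2 * z.im) • Complex.imCLM) z := by
  have h1 := (Complex.reCLM.hasFDerivAt (x := z)).mul (Complex.reCLM.hasFDerivAt (x := z))
  have h2 := (Complex.imCLM.hasFDerivAt (x := z)).mul (Complex.imCLM.hasFDerivAt (x := z))
  refine (h1.add h2).congr_fderiv ?_
  ext w
  simp; ring

theorem hasFDerivAt_sterN (ε : ℝ) (z : ℂ) : HasFDerivAt (sterN ε) (sterN' ε z) z := by
  rw [← hasFDerivWithinAt_univ, hasFDerivWithinAt_euclidean]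
  intro i
  rw [hasFDerivWithinAt_univ]
  fin_cases i
  · refine ((Complex.reCLM.hasFDerivAt (x := z)).const_mul 2).congr_fderiv ?_
    ext w
    simp [sterN']
  · refine (((Complex.imCLM.hasFDerivAt (x := z)).const_mul 2).const_mul (-ε)).congr_fderiv ?_
    ext w
    simp [sterN']
  · refine (((hasFDerivAt_re_sq z).sub_const 1).const_mul ε).congr_fderiv ?_
    ext w
    simp [sterN']
    ring

theorem hasFDerivAt_ster (ε : ℝ) (z : ℂ) : HasFDerivAt (ster ε)
    ((sterD z)⁻¹ • sterN' ε z + ((-(sterD z ^ 2)⁻¹) • ((2 * z.re) • Complex.reCLM + (2 * z.im) • Complex.imCLM)).smulRight (sterN ε z)) z := by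
  have h1 : HasFDerivAt sterD ((2 * z.re) • Complex.reCLM + (2 * z.im) • Complex.imCLM) z :=
    (hasFDerivAt_re_sq z).const_add 1
  have h2 : HasFDerivAt (fun z => (sterD z)⁻¹)
      ((-(sterD z ^ 2)⁻¹) • ((2 * z.re) • Complex.reCLM + (2 * z.im) • Complex.imCLM)) z := by
    refine ((hasDerivAt_inv (sterD_pos z).ne').comp_hasFDerivAt z h1).congr_fderiv ?_
    rfl
  exact h2.smul (hasFDerivAt_sterN ε z)

theorem contDiff_ster (ε : ℝ) : ContDiff ℝ ∞ (ster ε) := by
  have hre : ContDiff ℝ ∞ (fun z : ℂ => z.re) := Complex.reCLM.contDiff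
  have him : ContDiff ℝ ∞ (fun z : ℂ => z.im) := Complex.imCLM.contDiff
  have hD : ContDiff ℝ ∞ (fun z : ℂ => (sterD z)⁻¹) := by
    refine ContDiff.inv ?_ (fun z => (sterD_pos z).ne')
    exact contDiff_const.add ((hre.mul hre).add (him.mul him))
  rw [contDiff_euclidean]
  intro i
  fin_cases i
  · exact hD.mul (contDiff_const.mul hre)
  · exact hD.mul (contDiff_const.mul (contDiff_const.mul him))
  · exact hD.mul (contDiff_const.mul (((hre.mul hre).add (him.mul him)).sub contDiff_const))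

/-- the derivative of `ster ε` intertwines multiplication by `i` with the rotation `p × ·`. -/
theorem ster_holo {ε : ℝ} (hε : ε * ε = 1) (z w : ℂ) :
    fderiv ℝ (ster ε) z (Complex.I * w) = cross (ster ε z) (fderiv ℝ (ster ε) z w) := by
  rw [(hasFDerivAt_ster ε z).fderiv]
  have key : ∀ w : ℂ, ((sterD z)⁻¹ • sterN' ε z + ((-(sterD z ^ 2)⁻¹) • ((2 * z.re) • Complex.reCLM +
      (2 * z.im) • Complex.imCLM)).smulRight (sterN ε z)) w =
      (sterD z)⁻¹ • (!₂[2 * w.re, -ε * (2 * w.im), ε * (2 * (z.re * w.re + z.im * w.im))] : E3) +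
        ((-(sterD z ^ 2)⁻¹) * (2 * z.re * w.re + 2 * z.im * w.im)) • (sterN ε z) := by
    intro w
    rfl
  rw [key, key]
  have e1 : (Complex.I * w).re = -w.im := by simp
  have e2 : (Complex.I * w).im = w.re := by simp
  rw [e1, e2]
  have h := (sterD_pos z).ne'
  have g0 : ∀ a b : ℝ, ((sterD z)⁻¹ • (!₂[2 * a, -ε * (2 * b), ε * (2 * (z.re * a + z.im * b))] : E3) +
        ((-(sterD z ^ 2)⁻¹) * (2 * z.re * a + 2 * z.im * b)) • (sterN ε z)) 0 =
      (sterD z)⁻¹ * (2 * a) + ((-(sterD z ^ 2)⁻¹) * (2 * z.re * a + 2 * z.im * b)) * (2 * z.re) := fun _ _ => rfl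
  have g1 : ∀ a b : ℝ, ((sterD z)⁻¹ • (!₂[2 * a, -ε * (2 * b), ε * (2 * (z.re * a + z.im * b))] : E3) +
        ((-(sterD z ^ 2)⁻¹) * (2 * z.re * a + 2 * z.im * b)) • (sterN ε z)) 1 =
      (sterD z)⁻¹ * (-ε * (2 * b)) + ((-(sterD z ^ 2)⁻¹) * (2 * z.re * a + 2 * z.im * b)) * (-ε * (2 * z.im)) := fun _ _ => rfl
  have g2 : ∀ a b : ℝ, ((sterD z)⁻¹ • (!₂[2 * a, -ε * (2 * b), ε * (2 * (z.re * a + z.im * b))] : E3) +
        ((-(sterD z ^ 2)⁻¹) * (2 * z.re * a + 2 * z.im * b)) • (sterN ε z)) 2 =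
      (sterD z)⁻¹ * (ε * (2 * (z.re * a + z.im * b))) + ((-(sterD z ^ 2)⁻¹) * (2 * z.re * a + 2 * z.im * b)) *
        (ε * (z.re * z.re + z.im * z.im - 1)) := fun _ _ => rfl
  have hD : sterD z = 1 + (z.re * z.re + z.im * z.im) := rfl
  rcases mul_self_eq_one_iff.1 hε with rfl | rfl
  · apply e3_ext
    · rw [cross_0, g0, g1, g2, ster_1, ster_2]
      field_simp
      rw [hD]
      ring
    · rw [cross_1, g0, g1, g2, ster_0, ster_2]
      field_simp
      rw [hD]
      ring
    · rw [cross_2, g0, g1, g2, ster_0, ster_1]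
      field_simp
      rw [hD]
      ring
  · apply e3_ext
    · rw [cross_0, g0, g1, g2, ster_1, ster_2]
      field_simp
      rw [hD]
      ring
    · rw [cross_1, g0, g1, g2, ster_0, ster_2]
      field_simp
      rw [hD]
      ring
    · rw [cross_2, g0, g1, g2, ster_0, ster_1]
      field_simp
      rw [hD]
      ring

/-- inverse stereographic projection as a map to the sphere -/
noncomputable def sterS {ε : ℝ} (hε : ε * ε = 1) : ℂ → S2 :=
  Set.codRestrict (ster ε) (Metric.sphere (0 : E3) 1) (ster_mem hε)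

theorem contMDiff_sterS {ε : ℝ} (hε : ε * ε = 1) : ContMDiff 𝓘(ℝ, ℂ) (𝓡 2) ∞ (sterS hε) :=
  (contDiff_ster ε).contMDiff.codRestrict_sphere (ster_mem hε)

theorem Di_mfderiv_sterS {ε : ℝ} (hε : ε * ε = 1) (z w : ℂ) :
    Di (sterS hε z) (mfderiv 𝓘(ℝ, ℂ) (𝓡 2) (sterS hε) z w) = fderiv ℝ (ster ε) z w := by
  have h1 : HasMFDerivAt (𝓡 2) 𝓘(ℝ, E3) (fun x : S2 => (x : E3)) (sterS hε z) (Di (sterS hε z)) :=
    (contMDiff_coe_S2.mdifferentiableAt (by simp)).hasMFDerivAt
  have h2 := ((contMDiff_sterS hε).mdifferentiableAt (x := z) (by simp)).hasMFDerivAt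
  have h3 := h1.comp z h2
  have h4 : HasMFDerivAt 𝓘(ℝ, ℂ) 𝓘(ℝ, E3) (ster ε) z (fderiv ℝ (ster ε) z) :=
    (((contDiff_ster ε).differentiable (by simp)) z).hasFDerivAt.hasMFDerivAt
  have h5 : ((fun x : S2 => (x : E3)) ∘ sterS hε) = ster ε := rfl
  rw [h5] at h3
  exact congrArg (fun L : ℂ →L[ℝ] E3 => L w) (hasMFDerivAt_unique h3 h4)

theorem one_mul_one' : (1 : ℝ) * 1 = 1 := by norm_num
theorem neg_one_mul_neg_one' : (-1 : ℝ) * (-1) = 1 := by norm_num

theorem ster_inv (w : ℂ) (hw : w ≠ 0) : ster 1 w⁻¹ = ster (-1) w := by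
  have hn : Complex.normSq w ≠ 0 := fun h => hw (Complex.normSq_eq_zero.1 h)
  have hn2 : Complex.normSq w = w.re * w.re + w.im * w.im := Complex.normSq_apply w
  have e1 : (w⁻¹).re = w.re / Complex.normSq w := by rw [Complex.inv_re]
  have e2 : (w⁻¹).im = -w.im / Complex.normSq w := by rw [Complex.inv_im]
  have hD1 : sterD w⁻¹ = sterD w / Complex.normSq w := by
    unfold sterD
    rw [e1, e2]
    field_simp
    rw [hn2]
    ring
  have hD := (sterD_pos w).ne'
  apply e3_ext
  · rw [ster_0, ster_0, hD1, e1]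
    field_simp
  · rw [ster_1, ster_1, hD1, e2]
    field_simp
    
  · rw [ster_2, ster_2, hD1, e1, e2]
    field_simp
    rw [hn2]
    ring

/-- The homeomorphism from the one-point compactification of `ℂ` to the sphere, as a function. -/
noncomputable def PsiF (x : OnePoint ℂ) : S2 := x.elim NP (sterS one_mul_one')

theorem PsiF_coe (z : ℂ) : PsiF (z : OnePoint ℂ) = sterS one_mul_one' z := rfl
theorem PsiF_infty : PsiF OnePoint.infty = NP := rfl

theorem sterS_neg_zero : sterS neg_one_mul_neg_one' 0 = NP := by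
  apply Subtype.ext
  show ster (-1) 0 = (NP : E3)
  apply e3_ext
  · rw [ster_0]
    show _ = (0 : ℝ)
    simp
  · rw [ster_1]
    show _ = (0 : ℝ)
    simp
  · rw [ster_2]
    show _ = (1 : ℝ)
    simp [sterD]

theorem PsiF_inv (w : ℂ) : PsiF (if w = 0 then OnePoint.infty else ((w⁻¹ : ℂ) : OnePoint ℂ)) =
    sterS neg_one_mul_neg_one' w := by
  by_cases hw : w = 0
  · rw [if_pos hw, hw, PsiF_infty, sterS_neg_zero]
  · rw [if_neg hw, PsiF_coe]
    exact Subtype.ext (ster_inv w hw)

theorem continuous_PsiF : Continuous PsiF := by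
  rw [OnePoint.continuous_iff]
  refine ⟨?_, ?_⟩
  · rw [Filter.coclosedCompact_eq_cocompact, ← Metric.cobounded_eq_cocompact, PsiF_infty,
      ← sterS_neg_zero]
    have h1 : Filter.Tendsto (fun z : ℂ => sterS neg_one_mul_neg_one' z⁻¹) (Bornology.cobounded ℂ)
        (𝓝 (sterS neg_one_mul_neg_one' 0)) :=
      ((contMDiff_sterS neg_one_mul_neg_one').continuous.tendsto 0).comp Filter.tendsto_inv₀_cobounded
    refine h1.congr' ?_
    filter_upwards [Bornology.eventually_ne_cobounded (0 : ℂ)] with z hz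
    rw [← PsiF_inv, if_neg (inv_ne_zero hz), inv_inv]
  · exact (contMDiff_sterS one_mul_one').continuous

/-- The homeomorphism from the one-point compactification of `ℂ` to the sphere. -/
noncomputable def Psi : C(OnePoint ℂ, S2) := ⟨PsiF, continuous_PsiF⟩

theorem ster_ne_NP (z : ℂ) : sterS one_mul_one' z ≠ NP := by
  intro h
  have h1 := congrArg (fun p : S2 => (p : E3) 2) h
  have h2 : (sterD z)⁻¹ * (1 * (z.re * z.re + z.im * z.im - 1)) = 1 := h1
  have h3 := (sterD_pos z).ne'
  field_simp at h2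
  unfold sterD at h2
  linarith

theorem sterS_injective : Function.Injective (sterS one_mul_one') := by
  intro z z' h
  have h0 : (sterD z)⁻¹ * (2 * z.re) = (sterD z')⁻¹ * (2 * z'.re) :=
    congrArg (fun p : S2 => (p : E3) 0) h
  have h1 : (sterD z)⁻¹ * (-1 * (2 * z.im)) = (sterD z')⁻¹ * (-1 * (2 * z'.im)) :=
    congrArg (fun p : S2 => (p : E3) 1) h
  have h2 : (sterD z)⁻¹ * (1 * (z.re * z.re + z.im * z.im - 1)) =
      (sterD z')⁻¹ * (1 * (z'.re * z'.re + z'.im * z'.im - 1)) :=
    congrArg (fun p : S2 => (p : E3) 2) h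
  have hz := (sterD_pos z).ne'
  have hz' := (sterD_pos z').ne'
  have hD : sterD z = sterD z' := by
    have e1 : z.re * z.re + z.im * z.im - 1 = sterD z - 2 := by unfold sterD; ring
    have e2 : z'.re * z'.re + z'.im * z'.im - 1 = sterD z' - 2 := by unfold sterD; ring
    rw [e1, e2] at h2
    field_simp at h2
    linarith
  rw [hD] at h0 h1
  have hi := inv_ne_zero hz'
  have k0 := mul_left_cancel₀ hi h0
  have k1 := mul_left_cancel₀ hi h1
  apply Complex.ext
  · linarith
  · linarith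

theorem Psi_injective : Function.Injective Psi := by
  intro x y h
  induction x using OnePoint.rec with
  | infty =>
    induction y using OnePoint.rec with
    | infty => rfl
    | coe z => exact absurd h.symm (ster_ne_NP z)
  | coe z =>
    induction y using OnePoint.rec with
    | infty => exact absurd h (ster_ne_NP z)
    | coe z' => rw [sterS_injective h]

theorem Psi_surjective : Function.Surjective Psi := by
  intro p
  by_cases hp : p = NP
  · exact ⟨OnePoint.infty, hp.symm⟩
  · have hs := s2_sq p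
    have hne : (p : E3) 2 ≠ 1 := by
      intro h
      apply hp
      apply Subtype.ext
      rw [h] at hs
      have h0 : (p : E3) 0 = 0 := by nlinarith [mul_self_nonneg ((p : E3) 0), mul_self_nonneg ((p : E3) 1)]
      have h1 : (p : E3) 1 = 0 := by nlinarith [mul_self_nonneg ((p : E3) 0), mul_self_nonneg ((p : E3) 1)]
      apply e3_ext
      · rw [h0]; rfl
      · rw [h1]; rfl
      · rw [h]; rfl
    have hne' : 1 - (p : E3) 2 ≠ 0 := sub_ne_zero.2 (Ne.symm hne)
    refine ⟨((⟨(p : E3) 0 / (1 - (p : E3) 2), -(p : E3) 1 / (1 - (p : E3) 2)⟩ : ℂ) : OnePoint ℂ), ?_⟩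
    apply Subtype.ext
    show ster 1 _ = (p : E3)
    set a := (p : E3) 0
    set b := (p : E3) 1
    set c := (p : E3) 2
    have hD : sterD (⟨a / (1 - c), -b / (1 - c)⟩ : ℂ) = 2 / (1 - c) := by
      unfold sterD
      simp only
      field_simp
      linear_combination hs
    apply e3_ext
    · rw [ster_0, hD]
      show (2 / (1 - c))⁻¹ * (2 * (a / (1 - c))) = a
      field_simp
    · rw [ster_1, hD]
      show (2 / (1 - c))⁻¹ * (-1 * (2 * (-b / (1 - c)))) = b
      field_simp
    · rw [ster_2, hD]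
      show (2 / (1 - c))⁻¹ * (1 * (a / (1 - c) * (a / (1 - c)) + -b / (1 - c) * (-b / (1 - c)) - 1)) = c
      field_simp
      linear_combination hs

end Pool.Agent.LibRCAK
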