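import Pool.Agent.LibRCAK.Geometry
/-!
The flat torus as an almost Kähler manifold.
-/
set_option autoImplicit false
open scoped Manifold ContDiff Topology RealInnerProductSpace
open Bundle Set

namespace Pool.Agent.LibRCAK

theorem contMDiff_coe_circle : ContMDiff (𝓡 1) 𝓘(ℝ, ℂ) ∞ (fun z : Circle => (z : ℂ)) :=
  haveI := finrank_real_complex_fact'
  contMDiff_coe_sphere

/-- derivative of the inclusion of the circle -/
noncomputable def DC (c : Circle) : TangentSpace (𝓡 1) c →L[ℝ] ℂ :=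
  mvfderiv (𝓡 1) (fun x : Circle => (x : ℂ)) c

theorem DC_injective (c : Circle) : Function.Injective (DC c) :=
  haveI := finrank_real_complex_fact'
  injective_mvfderiv_subtypeVal_sphere (E := ℂ) (n := 1) c

theorem inner_DC (c : Circle) (v : TangentSpace (𝓡 1) c) : ⟪(c : ℂ), DC c v⟫ = 0 := by
  have := finrank_real_complex_fact'
  have h := range_mvfderiv_subtypeVal (E := ℂ) (n := 1) c
  have h2 : DC c v ∈ (ℝ ∙ (c : ℂ))ᗮ := by
    rw [← h]
    exact ⟨v, rfl⟩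
  exact Submodule.mem_orthogonal_singleton_iff_inner_right.1 h2

/-- the angular form -/
noncomputable def dth (c : Circle) : TangentSpace (𝓡 1) c →L[ℝ] ℝ :=
  (innerSL ℝ ((c : ℂ) * Complex.I)).comp (DC c)

theorem dth_apply (c : Circle) (v : TangentSpace (𝓡 1) c) : dth c v = ⟪(c : ℂ) * Complex.I, DC c v⟫ := rfl

/-- rotation -/
noncomputable def mc (p : Circle × ℝ) : Circle := p.1 * Circle.exp p.2

theorem contMDiff_mc : ContMDiff ((𝓡 1).prod 𝓘(ℝ, ℝ)) (𝓡 1) ∞ mc := by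
  have h : ContMDiff 𝓘(ℝ, ℝ) (𝓡 1) ∞ Circle.exp := contMDiff_circleExp
  exact contMDiff_fst.mul (h.comp contMDiff_snd)

theorem mc_zero (c : Circle) : mc (c, 0) = c := by simp [mc]

/-- the unit tangent field -/
noncomputable def dc (c : Circle) : TangentSpace (𝓡 1) c :=
  (mfderiv ((𝓡 1).prod 𝓘(ℝ, ℝ)) (𝓡 1) mc (c, 0) : EuclideanSpace ℝ (Fin 1) × ℝ →L[ℝ] EuclideanSpace ℝ (Fin 1)) (0, 1)

theorem hasDerivAt_curve (c : Circle) (s t : ℝ) :
    HasDerivAt (fun t : ℝ => (c : ℂ) * Complex.exp ((s * t : ℝ) * Complex.I))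
      (s • ((c : ℂ) * Complex.exp ((s * t : ℝ) * Complex.I) * Complex.I)) t := by
  have h1 : HasDerivAt (fun t : ℝ => ((s * t : ℝ) : ℂ)) (s : ℂ) t := by
    have := ((hasDerivAt_id t).const_mul s).ofReal_comp
    simpa using this
  have h2 := (h1.mul_const Complex.I).cexp.const_mul (c : ℂ)
  refine h2.congr_deriv ?_
  simp only [Complex.real_smul]
  ring

theorem DC_curve (c : Circle) (s t : ℝ) :
    DC (c * Circle.exp (s * t)) (mfderiv 𝓘(ℝ, ℝ) (𝓡 1) (fun t : ℝ => c * Circle.exp (s * t)) t (1 : ℝ)) =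
      s • (((c * Circle.exp (s * t) : Circle) : ℂ) * Complex.I) := by
  have hexp : ContMDiff 𝓘(ℝ, ℝ) (𝓡 1) ∞ Circle.exp := contMDiff_circleExp
  have hs : ContMDiff 𝓘(ℝ, ℝ) 𝓘(ℝ, ℝ) ∞ (fun t : ℝ => s * t) :=
    (contDiff_const.mul contDiff_id).contMDiff
  have hcurve : ContMDiff 𝓘(ℝ, ℝ) (𝓡 1) ∞ (fun t : ℝ => c * Circle.exp (s * t)) :=
    contMDiff_const.mul (hexp.comp hs)
  have h1 : MDifferentiableAt (𝓡 1) 𝓘(ℝ, ℂ) (fun z : Circle => (z : ℂ)) (c * Circle.exp (s * t)) :=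
    contMDiff_coe_circle.mdifferentiableAt (by simp)
  have h2 : MDifferentiableAt 𝓘(ℝ, ℝ) (𝓡 1) (fun t : ℝ => c * Circle.exp (s * t)) t :=
    hcurve.mdifferentiableAt (by simp)
  have h3 := h1.hasMFDerivAt.comp t h2.hasMFDerivAt
  have h4 : HasMFDerivAt 𝓘(ℝ, ℝ) 𝓘(ℝ, ℂ) (fun t : ℝ => (c : ℂ) * Complex.exp ((s * t : ℝ) * Complex.I)) t
      (ContinuousLinearMap.toSpanSingleton ℝ (s • ((c : ℂ) * Complex.exp ((s * t : ℝ) * Complex.I) * Complex.I))) :=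
    (hasDerivAt_curve c s t).hasFDerivAt.hasMFDerivAt
  have h5 : ((fun z : Circle => (z : ℂ)) ∘ fun t : ℝ => c * Circle.exp (s * t)) =
      (fun t : ℝ => (c : ℂ) * Complex.exp ((s * t : ℝ) * Complex.I)) := by
    funext t
    simp [Circle.coe_exp]
  rw [h5] at h3
  have h6 := hasMFDerivAt_unique h3 h4
  have h7 := congrArg (fun L : ℝ →L[ℝ] ℂ => L 1) h6
  refine Eq.trans h7 ?_
  show (1 : ℝ) • (s • ((c : ℂ) * Complex.exp ((s * t : ℝ) * Complex.I) * Complex.I)) = _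
  rw [one_smul]
  simp [Circle.coe_exp]

theorem DC_dc (c : Circle) : DC c (dc c) = (c : ℂ) * Complex.I := by
  have hmc : MDifferentiableAt ((𝓡 1).prod 𝓘(ℝ, ℝ)) (𝓡 1) mc (c, 0) :=
    contMDiff_mc.mdifferentiableAt (by simp)
  have hi : MDifferentiableAt (𝓡 1) 𝓘(ℝ, ℂ) (fun x : Circle => (x : ℂ)) (mc (c, 0)) :=
    contMDiff_coe_circle.mdifferentiableAt (by simp)
  have hin : HasMFDerivAt 𝓘(ℝ, ℝ) ((𝓡 1).prod 𝓘(ℝ, ℝ)) (fun t : ℝ => (c, t)) 0
      ((0 : TangentSpace 𝓘(ℝ, ℝ) (0 : ℝ) →L[ℝ] TangentSpace (𝓡 1) c).prod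
        (ContinuousLinearMap.id ℝ (TangentSpace 𝓘(ℝ, ℝ) (0 : ℝ)))) :=
    (hasMFDerivAt_const c (0 : ℝ)).prodMk (hasMFDerivAt_id (0 : ℝ))
  have h1 := (hi.hasMFDerivAt.comp (c, (0 : ℝ)) hmc.hasMFDerivAt).comp (0 : ℝ) hin
  have h4 : HasMFDerivAt 𝓘(ℝ, ℝ) 𝓘(ℝ, ℂ) (fun t : ℝ => (c : ℂ) * Complex.exp ((1 * t : ℝ) * Complex.I)) 0
      (ContinuousLinearMap.toSpanSingleton ℝ ((1 : ℝ) • ((c : ℂ) * Complex.exp ((1 * 0 : ℝ) * Complex.I) * Complex.I))) :=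
    (hasDerivAt_curve c 1 0).hasFDerivAt.hasMFDerivAt
  have h5 : ((fun x : Circle => (x : ℂ)) ∘ mc) ∘ (fun t : ℝ => (c, t)) =
      (fun t : ℝ => (c : ℂ) * Complex.exp ((1 * t : ℝ) * Complex.I)) := by
    funext t
    simp [mc, Circle.coe_exp]
  rw [h5] at h1
  have h6 := hasMFDerivAt_unique h1 h4
  have h7 := congrArg (fun L : ℝ →L[ℝ] ℂ => L 1) h6
  have h8 : mfderiv (𝓡 1) 𝓘(ℝ, ℂ) (fun x : Circle => (x : ℂ)) (mc (c, 0)) (dc c) = (c : ℂ) * Complex.I := by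
    refine Eq.trans h7 ?_
    show (1 : ℝ) • ((1 : ℝ) • ((c : ℂ) * Complex.exp ((1 * 0 : ℝ) * Complex.I) * Complex.I)) = _
    rw [one_smul, one_smul]
    simp
  have h9 : ∀ (y : Circle) (h : mc (c, 0) = y), mfderiv (𝓡 1) 𝓘(ℝ, ℂ) (fun x : Circle => (x : ℂ)) y (dc c) = (c : ℂ) * Complex.I := by
    intro y h
    subst h
    exact h8
  exact h9 c (mc_zero c)

theorem normSq_circle (c : Circle) : ⟪(c : ℂ) * Complex.I, (c : ℂ) * Complex.I⟫ = 1 := by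
  rw [real_inner_self_eq_norm_sq, norm_mul, Complex.norm_I, Circle.norm_coe]
  norm_num

theorem dth_dc (c : Circle) : dth c (dc c) = 1 := by
  rw [dth_apply, DC_dc, normSq_circle]

theorem eq_dth_smul (c : Circle) (v : TangentSpace (𝓡 1) c) : v = dth c v • dc c := by
  apply DC_injective c
  rw [map_smul, DC_dc, dth_apply]
  have h1 := inner_DC c v
  generalize DC c v = w at *
  have h2 : (c : ℂ).re * (c : ℂ).re + (c : ℂ).im * (c : ℂ).im = 1 := by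
    have h : Complex.normSq (c : ℂ) = 1 := by simp
    rw [Complex.normSq_apply] at h
    exact h
  rw [Complex.inner] at h1 ⊢
  simp only [Complex.mul_re, Complex.conj_re, Complex.conj_im, map_mul, Complex.conj_I, Complex.mul_im,
    Complex.I_re, Complex.I_im, Complex.neg_re, Complex.neg_im] at h1 ⊢
  apply Complex.ext
  · simp only [Complex.real_smul, Complex.mul_re, Complex.ofReal_re, Complex.ofReal_im, Complex.I_re, Complex.I_im, Complex.mul_im]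
    linear_combination (-w.re) * h2 + (c : ℂ).re * h1
  · simp only [Complex.real_smul, Complex.mul_re, Complex.ofReal_re, Complex.ofReal_im, Complex.I_re, Complex.I_im, Complex.mul_im]
    linear_combination (-w.im) * h2 + (c : ℂ).im * h1

theorem mfderiv_curve (c : Circle) (s t : ℝ) :
    mfderiv 𝓘(ℝ, ℝ) (𝓡 1) (fun t : ℝ => c * Circle.exp (s * t)) t (1 : ℝ) =
      s • dc (c * Circle.exp (s * t)) := by
  apply DC_injective
  rw [DC_curve, map_smul, DC_dc]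

section
variable {EN : Type*} [NormedAddCommGroup EN] [NormedSpace ℝ EN] {HN : Type*} [TopologicalSpace HN]
  {IN : ModelWithCorners ℝ EN HN} {N : Type*} [TopologicalSpace N] [ChartedSpace HN N]

theorem smooth_dc {a : N → Circle} (ha : ContMDiff IN (𝓡 1) ∞ a) :
    ContMDiff IN (𝓡 1).tangent ∞ (fun x => (⟨a x, dc (a x)⟩ : TangentBundle (𝓡 1) Circle)) := by
  have h1 : ContMDiff IN 𝓘(ℝ, ℝ).tangent ∞ (fun _ : N => (⟨0, 1⟩ : TangentBundle 𝓘(ℝ, ℝ) ℝ)) :=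
    contMDiff_const
  have h2 : ContMDiff IN (𝓡 1).tangent ∞ (fun x => (⟨a x, 0⟩ : TangentBundle (𝓡 1) Circle)) :=
    (contMDiff_zeroSection ℝ (TangentSpace (𝓡 1) : Circle → Type _)).comp ha
  have h3 := (contMDiff_equivTangentBundleProd_symm (n := ∞) (I := 𝓡 1) (M := Circle)
    (I' := 𝓘(ℝ, ℝ)) (M' := ℝ)).comp (h2.prodMk h1)
  have h4 := (contMDiff_mc.contMDiff_tangentMap (m := ∞) (by simp)).comp h3
  refine h4.congr fun x => ?_
  have h5 : ∀ (y : Circle) (h : mc (a x, 0) = y), (⟨y, dc (a x)⟩ : TangentBundle (𝓡 1) Circle) =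
      ⟨mc (a x, 0), dc (a x)⟩ := by
    intro y h
    subst h
    rfl
  rw [h5 (a x) (mc_zero (a x))]
  rfl

theorem smooth_DC {a : N → Circle} {v : ∀ x, TangentSpace (𝓡 1) (a x)}
    (hv : ContMDiff IN (𝓡 1).tangent ∞ (fun x => (⟨a x, v x⟩ : TangentBundle (𝓡 1) Circle))) :
    ContMDiff IN 𝓘(ℝ, ℂ) ∞ (fun x => DC (a x) (v x)) := by
  have h1 := (contMDiff_coe_circle.contMDiff_tangentMap (m := ∞) (by simp)).comp hv
  have h2 := (contMDiff_snd_tangentBundle_modelSpace (n := ∞) ℂ 𝓘(ℝ, ℂ)).comp h1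
  exact h2

theorem smooth_dth {a : N → Circle} {v : ∀ x, TangentSpace (𝓡 1) (a x)}
    (hv : ContMDiff IN (𝓡 1).tangent ∞ (fun x => (⟨a x, v x⟩ : TangentBundle (𝓡 1) Circle))) :
    ContMDiff IN 𝓘(ℝ, ℝ) ∞ (fun x => dth (a x) (v x)) := by
  have h0 : ContMDiff IN (𝓡 1) ∞ a :=
    (contMDiff_proj (IB := 𝓡 1) (n := ∞) (TangentSpace (𝓡 1) : Circle → Type _)).comp hv
  have h1 := smooth_DC hv
  have h2 : ContMDiff IN 𝓘(ℝ, ℂ) ∞ (fun x => (a x : ℂ) * Complex.I) := by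
    have e1 : ContMDiff 𝓘(ℝ, ℂ) 𝓘(ℝ, ℂ) ∞ (fun z : ℂ => z * Complex.I) :=
      (contDiff_id.mul contDiff_const).contMDiff
    exact e1.comp (contMDiff_coe_circle.comp h0)
  have h3 : ContMDiff IN 𝓘(ℝ, ℂ →L[ℝ] ℝ) ∞ (fun x => innerSL ℝ ((a x : ℂ) * Complex.I)) :=
    (innerSL ℝ : ℂ →L[ℝ] ℂ →L[ℝ] ℝ).contDiff.contMDiff.comp h2
  exact h3.clm_apply h1

end

/-- The standard form on the torus. -/
noncomputable def tauT (p : Circle × Circle) :
    TangentSpace ((𝓡 1).prod (𝓡 1)) p →L[ℝ] TangentSpace ((𝓡 1).prod (𝓡 1)) p →L[ℝ] ℝ :=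
  (((dth p.1 : EuclideanSpace ℝ (Fin 1) →L[ℝ] ℝ).comp
      (ContinuousLinearMap.fst ℝ (EuclideanSpace ℝ (Fin 1)) (EuclideanSpace ℝ (Fin 1)))).smulRight
    ((dth p.2 : EuclideanSpace ℝ (Fin 1) →L[ℝ] ℝ).comp
      (ContinuousLinearMap.snd ℝ (EuclideanSpace ℝ (Fin 1)) (EuclideanSpace ℝ (Fin 1)))) -
  ((dth p.2 : EuclideanSpace ℝ (Fin 1) →L[ℝ] ℝ).comp
      (ContinuousLinearMap.snd ℝ (EuclideanSpace ℝ (Fin 1)) (EuclideanSpace ℝ (Fin 1)))).smulRight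
    ((dth p.1 : EuclideanSpace ℝ (Fin 1) →L[ℝ] ℝ).comp
      (ContinuousLinearMap.fst ℝ (EuclideanSpace ℝ (Fin 1)) (EuclideanSpace ℝ (Fin 1)))) :
    EuclideanSpace ℝ (Fin 1) × EuclideanSpace ℝ (Fin 1) →L[ℝ]
      EuclideanSpace ℝ (Fin 1) × EuclideanSpace ℝ (Fin 1) →L[ℝ] ℝ)

theorem tauT_apply (p : Circle × Circle) (v w : TangentSpace ((𝓡 1).prod (𝓡 1)) p) :
    tauT p v w = dth p.1 v.1 * dth p.2 w.2 - dth p.2 v.2 * dth p.1 w.1 := rfl

/-- The standard complex structure on the torus. -/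
noncomputable def JT (p : Circle × Circle) :
    TangentSpace ((𝓡 1).prod (𝓡 1)) p →L[ℝ] TangentSpace ((𝓡 1).prod (𝓡 1)) p :=
  ((((-(dth p.2) : EuclideanSpace ℝ (Fin 1) →L[ℝ] ℝ).comp
      (ContinuousLinearMap.snd ℝ (EuclideanSpace ℝ (Fin 1)) (EuclideanSpace ℝ (Fin 1)))).smulRight
        (dc p.1 : EuclideanSpace ℝ (Fin 1))).prod
    (((dth p.1 : EuclideanSpace ℝ (Fin 1) →L[ℝ] ℝ).comp
      (ContinuousLinearMap.fst ℝ (EuclideanSpace ℝ (Fin 1)) (EuclideanSpace ℝ (Fin 1)))).smulRight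
        (dc p.2 : EuclideanSpace ℝ (Fin 1))) :
    EuclideanSpace ℝ (Fin 1) × EuclideanSpace ℝ (Fin 1) →L[ℝ]
      EuclideanSpace ℝ (Fin 1) × EuclideanSpace ℝ (Fin 1))

theorem JT_apply (p : Circle × Circle) (v : TangentSpace ((𝓡 1).prod (𝓡 1)) p) :
    JT p v = ((-(dth p.2 v.2)) • dc p.1, dth p.1 v.1 • dc p.2) := rfl

theorem tauT_alt (p : Circle × Circle) (v : TangentSpace ((𝓡 1).prod (𝓡 1)) p) : tauT p v v = 0 := by
  rw [tauT_apply]; ring

theorem dth_coord_smooth (x₀ : Circle) (v : EuclideanSpace ℝ (Fin 1)) :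
    ContDiffOn ℝ ∞ (fun y => dth ((extChartAt (𝓡 1) x₀).symm y)
      (mfderiv 𝓘(ℝ, EuclideanSpace ℝ (Fin 1)) (𝓡 1) (extChartAt (𝓡 1) x₀).symm y v))
      (extChartAt (𝓡 1) x₀).target := by
  have h1 : ContDiffOn ℝ ∞ (fun y => (((extChartAt (𝓡 1) x₀).symm y : Circle) : ℂ)) (extChartAt (𝓡 1) x₀).target :=
    contDiffOn_comp_symm contMDiff_coe_circle x₀
  have h2 := contDiffOn_fderiv_symm contMDiff_coe_circle x₀ v
  have h4 : ContDiffOn ℝ ∞ (fun y => ⟪(((extChartAt (𝓡 1) x₀).symm y : Circle) : ℂ) * Complex.I,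
      fderiv ℝ (fun y => (((extChartAt (𝓡 1) x₀).symm y : Circle) : ℂ)) y v⟫)
      (extChartAt (𝓡 1) x₀).target :=
    ContDiffOn.inner ℝ (h1.mul contDiffOn_const) h2
  refine h4.congr fun y hy => ?_
  have e1 := mfderiv_comp_symm contMDiff_coe_circle x₀ hy v
  rw [← e1]
  rfl

theorem tauT_closed : IsClosedForm ((𝓡 1).prod (𝓡 1)) tauT := by
  refine closed_of_finrank_two (by simp) tauT tauT_alt ?_
  intro p v w
  have e1 : ContDiffOn ℝ ∞ (fun y : EuclideanSpace ℝ (Fin 1) × EuclideanSpace ℝ (Fin 1) =>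
      dth ((extChartAt (𝓡 1) p.1).symm y.1)
        (mfderiv 𝓘(ℝ, EuclideanSpace ℝ (Fin 1)) (𝓡 1) (extChartAt (𝓡 1) p.1).symm y.1 v.1) *
      dth ((extChartAt (𝓡 1) p.2).symm y.2)
        (mfderiv 𝓘(ℝ, EuclideanSpace ℝ (Fin 1)) (𝓡 1) (extChartAt (𝓡 1) p.2).symm y.2 w.2) -
      dth ((extChartAt (𝓡 1) p.2).symm y.2)
        (mfderiv 𝓘(ℝ, EuclideanSpace ℝ (Fin 1)) (𝓡 1) (extChartAt (𝓡 1) p.2).symm y.2 v.2) *
      dth ((extChartAt (𝓡 1) p.1).symm y.1)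
        (mfderiv 𝓘(ℝ, EuclideanSpace ℝ (Fin 1)) (𝓡 1) (extChartAt (𝓡 1) p.1).symm y.1 w.1))
      (extChartAt ((𝓡 1).prod (𝓡 1)) p).target := by
    rw [extChartAt_prod]
    refine ContDiffOn.sub (ContDiffOn.mul ?_ ?_) (ContDiffOn.mul ?_ ?_)
    · exact (dth_coord_smooth p.1 v.1).comp contDiff_fst.contDiffOn (fun y hy => hy.1)
    · exact (dth_coord_smooth p.2 w.2).comp contDiff_snd.contDiffOn (fun y hy => hy.2)
    · exact (dth_coord_smooth p.2 v.2).comp contDiff_snd.contDiffOn (fun y hy => hy.2)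
    · exact (dth_coord_smooth p.1 w.1).comp contDiff_fst.contDiffOn (fun y hy => hy.1)
  refine e1.congr fun y hy => ?_
  have hy1 : y.1 ∈ (extChartAt (𝓡 1) p.1).target := by
    rw [extChartAt_prod] at hy; exact hy.1
  have hy2 : y.2 ∈ (extChartAt (𝓡 1) p.2).target := by
    rw [extChartAt_prod] at hy; exact hy.2
  have h1 := mdiffAt_symm (I := 𝓡 1) p.1 hy1
  have h2 := mdiffAt_symm (I := 𝓡 1) p.2 hy2
  have key : mfderiv 𝓘(ℝ, EuclideanSpace ℝ (Fin 1) × EuclideanSpace ℝ (Fin 1)) ((𝓡 1).prod (𝓡 1))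
      (extChartAt ((𝓡 1).prod (𝓡 1)) p).symm y =
      (mfderiv 𝓘(ℝ, EuclideanSpace ℝ (Fin 1)) (𝓡 1) (extChartAt (𝓡 1) p.1).symm y.1).prodMap
        (mfderiv 𝓘(ℝ, EuclideanSpace ℝ (Fin 1)) (𝓡 1) (extChartAt (𝓡 1) p.2).symm y.2) := by
    have e : ((extChartAt ((𝓡 1).prod (𝓡 1)) p).symm : EuclideanSpace ℝ (Fin 1) × EuclideanSpace ℝ (Fin 1) → Circle × Circle) =
        Prod.map (extChartAt (𝓡 1) p.1).symm (extChartAt (𝓡 1) p.2).symm := by
      rw [extChartAt_prod]; rfl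
    rw [e]
    have := mfderiv_prodMap (p := y) h1 h2
    rw [modelWithCornersSelf_prod, ← chartedSpaceSelf_prod]
    exact this
  unfold coordForm
  rw [key]
  rfl

/-- The flat torus as an almost Kähler manifold. -/
noncomputable def torusAK : AlmostKahler ((𝓡 1).prod (𝓡 1)) (Circle × Circle) where
  Ω := tauT
  J := JT
  isClosedForm := tauT_closed
  smooth_J := by
    have hid : ContMDiff ((𝓡 1).prod (𝓡 1)).tangent ((𝓡 1).prod (𝓡 1)).tangent ∞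
      (fun p : TangentBundle ((𝓡 1).prod (𝓡 1)) (Circle × Circle) => (⟨p.1, p.2⟩ : TangentBundle ((𝓡 1).prod (𝓡 1)) (Circle × Circle))) := contMDiff_id
    have h1 := smooth_fst_prod hid
    have h2 := smooth_snd_prod hid
    have b1 : ContMDiff ((𝓡 1).prod (𝓡 1)).tangent (𝓡 1) ∞
        (fun p : TangentBundle ((𝓡 1).prod (𝓡 1)) (Circle × Circle) => p.1.1) :=
      (contMDiff_proj (IB := 𝓡 1) (n := ∞) (TangentSpace (𝓡 1) : Circle → Type _)).comp h1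
    have b2 : ContMDiff ((𝓡 1).prod (𝓡 1)).tangent (𝓡 1) ∞
        (fun p : TangentBundle ((𝓡 1).prod (𝓡 1)) (Circle × Circle) => p.1.2) :=
      (contMDiff_proj (IB := 𝓡 1) (n := ∞) (TangentSpace (𝓡 1) : Circle → Type _)).comp h2
    exact smooth_mk_prod (smooth_smul (smooth_dth h2).neg (smooth_dc b1))
      (smooth_smul (smooth_dth h1) (smooth_dc b2))
  J_J p v := by
    have h1 := eq_dth_smul p.1 v.1
    have h2 := eq_dth_smul p.2 v.2
    have e1 : dth p.1 ((-(dth p.2 v.2)) • dc p.1) = -(dth p.2 v.2) := by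
      rw [map_smul, dth_dc]; simp
    have e2 : dth p.2 ((dth p.1 v.1) • dc p.2) = dth p.1 v.1 := by
      rw [map_smul, dth_dc]; simp
    have k1 : JT p (JT p v) = ((-(dth p.2 ((dth p.1 v.1) • dc p.2))) • dc p.1,
      (dth p.1 ((-(dth p.2 v.2)) • dc p.1)) • dc p.2) := rfl
    rw [e1, e2] at k1
    refine k1.trans ?_
    refine Prod.ext ?_ ?_
    · exact (neg_smul _ _).trans (congrArg Neg.neg h1.symm)
    · exact (neg_smul _ _).trans (congrArg Neg.neg h2.symm)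
  Ω_J_J p v w := by
    have e1 : ∀ u : TangentSpace ((𝓡 1).prod (𝓡 1)) p, dth p.1 (JT p u).1 = -(dth p.2 u.2) := by
      intro u
      have : dth p.1 ((-(dth p.2 u.2)) • dc p.1) = -(dth p.2 u.2) := by
        rw [map_smul, dth_dc]; simp
      exact this
    have e2 : ∀ u : TangentSpace ((𝓡 1).prod (𝓡 1)) p, dth p.2 (JT p u).2 = dth p.1 u.1 := by
      intro u
      have : dth p.2 ((dth p.1 u.1) • dc p.2) = dth p.1 u.1 := by
        rw [map_smul, dth_dc]; simp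
      exact this
    rw [tauT_apply, tauT_apply, e1, e1, e2, e2]
    ring
  Ω_pos p v hv := by
    have e1 : dth p.1 (JT p v).1 = -(dth p.2 v.2) := by
      have : dth p.1 ((-(dth p.2 v.2)) • dc p.1) = -(dth p.2 v.2) := by
        rw [map_smul, dth_dc]; simp
      exact this
    have e2 : dth p.2 (JT p v).2 = dth p.1 v.1 := by
      have : dth p.2 ((dth p.1 v.1) • dc p.2) = dth p.1 v.1 := by
        rw [map_smul, dth_dc]; simp
      exact this
    rw [tauT_apply, e1, e2]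
    have h1 := eq_dth_smul p.1 v.1
    have h2 := eq_dth_smul p.2 v.2
    by_contra hc
    have a1 : dth p.1 v.1 = 0 := by nlinarith [sq_nonneg (dth p.1 v.1), sq_nonneg (dth p.2 v.2)]
    have a2 : dth p.2 v.2 = 0 := by nlinarith [sq_nonneg (dth p.1 v.1), sq_nonneg (dth p.2 v.2)]
    apply hv
    refine Prod.ext ?_ ?_
    · refine h1.trans ?_
      rw [a1, zero_smul]; rfl
    · refine h2.trans ?_
      rw [a2, zero_smul]; rfl

end Pool.Agent.LibRCAK
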