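import Pool.Agent.LibRCAK.General
import Pool.Agent.LibRCAK.Stereo
/-!
From the sphere in `E3` to the Riemann sphere `P1`.
-/
set_option autoImplicit false
open scoped Manifold ContDiff Topology RealInnerProductSpace
open Bundle Set

namespace Pool.Agent.LibRCAK

section
variable {E : Type*} [NormedAddCommGroup E] [NormedSpace ℝ E] {H : Type*} [TopologicalSpace H]
  {I : ModelWithCorners ℝ E H}

theorem IsJHolS.toC {X : Type*} [TopologicalSpace X]
    [ChartedSpace H X] [IsManifold I ∞ X] {K : AlmostKahler I X} {u : S2 → X} (hu : IsJHolS K u)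
    {ε : ℝ} (hε : ε * ε = 1) : IsJHolC K (fun z : ℂ => u (sterS hε z)) where
  smooth := hu.smooth.comp (contMDiff_sterS hε)
  holo z w := by
    have h1 : HasMFDerivAt 𝓘(ℝ, ℂ) I (fun z : ℂ => u (sterS hε z)) z
        ((mfderiv (𝓡 2) I u (sterS hε z)).comp (mfderiv 𝓘(ℝ, ℂ) (𝓡 2) (sterS hε) z)) :=
      ((hu.smooth.mdifferentiableAt (by simp)).hasMFDerivAt).comp z
        ((contMDiff_sterS hε).mdifferentiableAt (by simp)).hasMFDerivAt
    rw [h1.mfderiv]
    refine hu.holo (sterS hε z) (mfderiv 𝓘(ℝ, ℂ) (𝓡 2) (sterS hε) z w)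
      (mfderiv 𝓘(ℝ, ℂ) (𝓡 2) (sterS hε) z (Complex.I * w : ℂ)) ?_
    rw [Di_mfderiv_sterS, Di_mfderiv_sterS]
    exact ster_holo hε z w

theorem IsJHolS.toP1 {X : Type*} [TopologicalSpace X]
    [ChartedSpace H X] [IsManifold I ∞ X] {K : AlmostKahler I X} {u : S2 → X} (hu : IsJHolS K u) :
    IsJHol K (fun x : P1 => u (Psi x)) where
  chart_zero := hu.toC one_mul_one'
  chart_infty := by
    have h : (fun w : ℂ => u (Psi (atInfty w))) = fun w => u (sterS neg_one_mul_neg_one' w) := by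
      funext w
      exact congrArg u (PsiF_inv w)
    rw [h]
    exact hu.toC neg_one_mul_neg_one'

theorem H2map_comp {X Y Z : Type} [TopologicalSpace X] [TopologicalSpace Y] [TopologicalSpace Z]
    (f : C(Y, Z)) (g : C(X, Y)) (c : H2 X) :
    (H2map (f.comp g)).hom c = (H2map f).hom ((H2map g).hom c) := by
  have h : H2map (f.comp g) = CategoryTheory.CategoryStruct.comp (H2map g) (H2map f) :=
    ((AlgebraicTopology.singularHomologyFunctor (ModuleCat.{0} ℤ) 2).obj
      (ModuleCat.of ℤ ℤ)).map_comp (TopCat.ofHom g) (TopCat.ofHom f)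
  rw [h]
  rfl

theorem OnCurveS.toP1 {X : Type} [TopologicalSpace X]
    [ChartedSpace H X] [IsManifold I ∞ X] {K : AlmostKahler I X} (c : H2 P1) {A : H2 X} {x y : X}
    (h : OnCurveS K ((H2map Psi).hom c) A x y) : OnCurve K c A x y := by
  obtain ⟨l, hl, hcon, hch, ⟨u₀, hu₀, xu⟩, ⟨u₁, hu₁, yu⟩, hs⟩ := h
  have hr : ∀ u : C(S2, X), Set.range (u.comp Psi) = Set.range u := by
    intro u
    exact Psi_surjective.range_comp u
  refine ⟨l.map (fun u => u.comp Psi), ?_, ?_, ?_, ?_, ?_, ?_⟩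
  · intro v hv
    obtain ⟨u, hu, rfl⟩ := List.mem_map.1 hv
    exact ⟨(hl u hu).1.toP1, (hl u hu).2.comp Psi_injective⟩
  · have : (⋃ v ∈ l.map (fun u => u.comp Psi), Set.range (v : C(P1, X))) =
        ⋃ u ∈ l, Set.range (u : C(S2, X)) := by
      ext t
      simp only [Set.mem_iUnion, List.mem_map]
      constructor
      · rintro ⟨v, ⟨u, hu, rfl⟩, ht⟩
        rw [hr] at ht
        exact ⟨u, hu, ht⟩
      · rintro ⟨u, hu, ht⟩
        exact ⟨u.comp Psi, ⟨u, hu, rfl⟩, by rw [hr]; exact ht⟩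
    rw [this]
    exact hcon
  · rw [List.isChain_map]
    refine hch.imp ?_
    intro u v huv
    rw [hr, hr]
    exact huv
  · refine ⟨u₀.comp Psi, ?_, by rw [hr]; exact xu⟩
    rw [Option.mem_def] at hu₀ ⊢
    rw [List.head?_map, hu₀]
    rfl
  · refine ⟨u₁.comp Psi, ?_, by rw [hr]; exact yu⟩
    rw [Option.mem_def] at hu₁ ⊢
    rw [List.getLast?_map, hu₁]
    rfl
  · rw [List.map_map]
    rw [← hs]
    congr 1
    refine List.map_congr_left fun u _ => ?_
    exact H2map_comp u Psi c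

end

/-- The Riemann sphere is homeomorphic to the unit sphere. -/
noncomputable def psiHomeo : P1 ≃ₜ S2 :=
  Continuous.homeoOfEquivCompactToT2 (f := Equiv.ofBijective Psi ⟨Psi_injective, Psi_surjective⟩)
    Psi.continuous

/-- The general construction, in bundled form. -/
theorem exists_twisted (N : CompactAK) : ∃ M : CompactAK, M.RationallyConnected ∧
    Nonempty (M.X ≃ₜ P1 × (P1 × N.X)) ∧
    ∃ f : C(M.X, N.X), ∀ x, Function.Surjective (FundamentalGroup.map f x) := by
  have : PathConnectedSpace N.X := pathConnected_of_manifold N.I N.X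
  obtain ⟨K', -, h2⟩ := general_path N.K
  refine ⟨{ E := EuclideanSpace ℝ (Fin 2) × (EuclideanSpace ℝ (Fin 2) × N.E)
            H := ModelProd (EuclideanSpace ℝ (Fin 2)) (ModelProd (EuclideanSpace ℝ (Fin 2)) N.H)
            I := (𝓡 2).prod ((𝓡 2).prod N.I)
            X := S2 × (S2 × N.X)
            K := K' }, ?_, ?_, ?_⟩
  · intro c
    obtain ⟨A, hA⟩ := h2 ((H2map Psi).hom c)
    exact ⟨A, fun x y => (hA x y).toP1⟩
  · exact ⟨psiHomeo.symm.prodCongr (psiHomeo.symm.prodCongr (Homeomorph.refl N.X))⟩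
  · exact ⟨⟨fun x => x.2.2, by fun_prop⟩, fundamentalGroup_prod_surj⟩

end Pool.Agent.LibRCAK
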