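import Pool.Agent.LibRCAK.Geometry
/-!
The twisted almost complex structure on `S2 × (S2 × Y)` and its holomorphic spheres.
-/
set_option autoImplicit false
open scoped Manifold ContDiff Topology RealInnerProductSpace
open Bundle Set

namespace Pool.Agent.LibRCAK

section twisted

variable {E : Type*} [NormedAddCommGroup E] [NormedSpace ℝ E] {H : Type*} [TopologicalSpace H]
  {I : ModelWithCorners ℝ E H} {Y : Type*} [TopologicalSpace Y]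
  [ChartedSpace H Y] [IsManifold I ∞ Y]

/-- third vector of the standard basis -/
noncomputable def e3 : E3 := !₂[0, 0, 1]

/-- the tangent vector represented by `z × e3`. -/
noncomputable def Zv (z : S2) : TangentSpace (𝓡 2) z := Q z (-e3)

theorem Di_Zv (z : S2) : Di z (Zv z) = cross z e3 := by
  rw [Zv, Di_Q]
  apply e3_ext <;> simp only [cross_0, cross_1, cross_2, PiLp.neg_apply] <;> ring

/-- height functional -/
noncomputable def ht (z : S2) : TangentSpace (𝓡 2) z →L[ℝ] ℝ :=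
  (EuclideanSpace.proj (2 : Fin 3) : E3 →L[ℝ] ℝ).comp (Di z)

theorem ht_apply (z : S2) (v : TangentSpace (𝓡 2) z) : ht z v = Di z v 2 := rfl

theorem ht_Zv (z : S2) : ht z (Zv z) = 0 := by
  rw [ht_apply, Di_Zv, cross_2]
  simp [e3]

theorem sigma_Zv (z : S2) (v : TangentSpace (𝓡 2) z) : sigma z v (Zv z) = ht z v := by
  rw [sigma_apply, Di_Zv, ht_apply]
  have h1 := s2_sq z
  have h2 := inner_Di z v
  rw [inner3] at h2
  generalize Di z v = a at *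
  rw [inner3]
  simp only [cross_0, cross_1, cross_2]
  have e0 : e3 0 = 0 := rfl
  have e1 : e3 1 = 0 := rfl
  have e2 : e3 2 = 1 := rfl
  rw [e0, e1, e2]
  linear_combination a 2 * h1 - (z : E3) 2 * h2

variable (K : AlmostKahler I Y) (ξ : S2 → ∀ y : Y, TangentSpace I y)

/-- The twisted almost complex structure. -/
noncomputable def twJ (x : S2 × (S2 × Y)) :
    TangentSpace ((𝓡 2).prod ((𝓡 2).prod I)) x →L[ℝ] TangentSpace ((𝓡 2).prod ((𝓡 2).prod I)) x :=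
  (((shear (A := EuclideanSpace ℝ (Fin 2)) (B := EuclideanSpace ℝ (Fin 2)) (C := E)
    (ht x.1) (-(K.Ω x.2.2 (ξ x.2.1 x.2.2))) (Zv x.1) (ξ x.2.1 x.2.2)).comp
    (ContinuousLinearMap.prodMap (jS x.1 : EuclideanSpace ℝ (Fin 2) →L[ℝ] EuclideanSpace ℝ (Fin 2))
      (ContinuousLinearMap.prodMap
        (jS x.2.1 : EuclideanSpace ℝ (Fin 2) →L[ℝ] EuclideanSpace ℝ (Fin 2))
        (K.J x.2.2 : E →L[ℝ] E)))).comp
    (shear (A := EuclideanSpace ℝ (Fin 2)) (B := EuclideanSpace ℝ (Fin 2)) (C := E)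
    (-(ht x.1)) (K.Ω x.2.2 (ξ x.2.1 x.2.2)) (Zv x.1) (ξ x.2.1 x.2.2)) :
    EuclideanSpace ℝ (Fin 2) × (EuclideanSpace ℝ (Fin 2) × E) →L[ℝ]
      EuclideanSpace ℝ (Fin 2) × (EuclideanSpace ℝ (Fin 2) × E))

/-- the form on the product. -/
noncomputable def twΩ (x : S2 × (S2 × Y)) :
    TangentSpace ((𝓡 2).prod ((𝓡 2).prod I)) x →L[ℝ] TangentSpace ((𝓡 2).prod ((𝓡 2).prod I)) x →L[ℝ] ℝ :=
  prodForm (𝓡 2) ((𝓡 2).prod I) sigma (prodForm (𝓡 2) I sigma K.Ω) x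

theorem twΩ_apply (x : S2 × (S2 × Y)) (v w : TangentSpace ((𝓡 2).prod ((𝓡 2).prod I)) x) :
    twΩ K x v w = sigma x.1 v.1 w.1 + (sigma x.2.1 v.2.1 w.2.1 + K.Ω x.2.2 v.2.2 w.2.2) := rfl

/-- first shear -/
noncomputable def Sh (x : S2 × (S2 × Y)) :
    TangentSpace ((𝓡 2).prod ((𝓡 2).prod I)) x →L[ℝ] TangentSpace ((𝓡 2).prod ((𝓡 2).prod I)) x :=
  shear (A := EuclideanSpace ℝ (Fin 2)) (B := EuclideanSpace ℝ (Fin 2)) (C := E)
    (ht x.1) (-(K.Ω x.2.2 (ξ x.2.1 x.2.2))) (Zv x.1) (ξ x.2.1 x.2.2)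

/-- second shear -/
noncomputable def Sh' (x : S2 × (S2 × Y)) :
    TangentSpace ((𝓡 2).prod ((𝓡 2).prod I)) x →L[ℝ] TangentSpace ((𝓡 2).prod ((𝓡 2).prod I)) x :=
  shear (A := EuclideanSpace ℝ (Fin 2)) (B := EuclideanSpace ℝ (Fin 2)) (C := E)
    (-(ht x.1)) (K.Ω x.2.2 (ξ x.2.1 x.2.2)) (Zv x.1) (ξ x.2.1 x.2.2)

/-- product structure -/
noncomputable def J0 (x : S2 × (S2 × Y)) :
    TangentSpace ((𝓡 2).prod ((𝓡 2).prod I)) x →L[ℝ] TangentSpace ((𝓡 2).prod ((𝓡 2).prod I)) x :=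
  (ContinuousLinearMap.prodMap (jS x.1 : EuclideanSpace ℝ (Fin 2) →L[ℝ] EuclideanSpace ℝ (Fin 2))
      (ContinuousLinearMap.prodMap
        (jS x.2.1 : EuclideanSpace ℝ (Fin 2) →L[ℝ] EuclideanSpace ℝ (Fin 2))
        (K.J x.2.2 : E →L[ℝ] E)) :
    EuclideanSpace ℝ (Fin 2) × (EuclideanSpace ℝ (Fin 2) × E) →L[ℝ]
      EuclideanSpace ℝ (Fin 2) × (EuclideanSpace ℝ (Fin 2) × E))

theorem twJ_eq (x : S2 × (S2 × Y)) (v : TangentSpace ((𝓡 2).prod ((𝓡 2).prod I)) x) :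
    twJ K ξ x v = Sh K ξ x (J0 K x (Sh' K ξ x v)) := rfl

theorem Sh_apply (x : S2 × (S2 × Y)) (v : TangentSpace ((𝓡 2).prod ((𝓡 2).prod I)) x) :
    Sh K ξ x v = (((show TangentSpace (𝓡 2) x.1 from v.1) + (-(K.Ω x.2.2 (ξ x.2.1 x.2.2) v.2.2)) • Zv x.1),
      ((show TangentSpace (𝓡 2) x.2.1 from v.2.1),
        ((show TangentSpace I x.2.2 from v.2.2) + ht x.1 v.1 • ξ x.2.1 x.2.2))) :=
  shear_apply (A := EuclideanSpace ℝ (Fin 2)) (B := EuclideanSpace ℝ (Fin 2)) (C := E)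
    (ht x.1) (-(K.Ω x.2.2 (ξ x.2.1 x.2.2))) (Zv x.1) (ξ x.2.1 x.2.2) v

theorem Sh'_apply (x : S2 × (S2 × Y)) (v : TangentSpace ((𝓡 2).prod ((𝓡 2).prod I)) x) :
    Sh' K ξ x v = (((show TangentSpace (𝓡 2) x.1 from v.1) + (K.Ω x.2.2 (ξ x.2.1 x.2.2) v.2.2) • Zv x.1),
      ((show TangentSpace (𝓡 2) x.2.1 from v.2.1),
        ((show TangentSpace I x.2.2 from v.2.2) + (-(ht x.1 v.1)) • ξ x.2.1 x.2.2))) :=
  shear_apply (A := EuclideanSpace ℝ (Fin 2)) (B := EuclideanSpace ℝ (Fin 2)) (C := E)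
    (-(ht x.1)) (K.Ω x.2.2 (ξ x.2.1 x.2.2)) (Zv x.1) (ξ x.2.1 x.2.2) v

theorem Sh'_Sh (x : S2 × (S2 × Y)) (v : TangentSpace ((𝓡 2).prod ((𝓡 2).prod I)) x) :
    Sh' K ξ x (Sh K ξ x v) = v :=
  shear_shear (A := EuclideanSpace ℝ (Fin 2)) (B := EuclideanSpace ℝ (Fin 2)) (C := E)
    (ht x.1) (K.Ω x.2.2 (ξ x.2.1 x.2.2)) (Zv x.1) (ξ x.2.1 x.2.2) (ht_Zv x.1)
    (K.isClosedForm.alt _ _) v

theorem Sh_Sh' (x : S2 × (S2 × Y)) (v : TangentSpace ((𝓡 2).prod ((𝓡 2).prod I)) x) :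
    Sh K ξ x (Sh' K ξ x v) = v :=
  shear_shear' (A := EuclideanSpace ℝ (Fin 2)) (B := EuclideanSpace ℝ (Fin 2)) (C := E)
    (ht x.1) (K.Ω x.2.2 (ξ x.2.1 x.2.2)) (Zv x.1) (ξ x.2.1 x.2.2) (ht_Zv x.1)
    (K.isClosedForm.alt _ _) v

theorem twΩ_Sh (x : S2 × (S2 × Y)) (v w : TangentSpace ((𝓡 2).prod ((𝓡 2).prod I)) x) :
    twΩ K x (Sh K ξ x v) (Sh K ξ x w) = twΩ K x v w :=
  shear_symp (A := EuclideanSpace ℝ (Fin 2)) (B := EuclideanSpace ℝ (Fin 2)) (C := E)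
    (sigma x.1) (sigma x.2.1) (K.Ω x.2.2) (sigma_alt x.1) (K.isClosedForm.alt x.2.2)
    (ht x.1) (K.Ω x.2.2 (ξ x.2.1 x.2.2)) (Zv x.1) (ξ x.2.1 x.2.2) (sigma_Zv x.1)
    (fun _ => rfl) v w

theorem twΩ_Sh' (x : S2 × (S2 × Y)) (v w : TangentSpace ((𝓡 2).prod ((𝓡 2).prod I)) x) :
    twΩ K x (Sh' K ξ x v) (Sh' K ξ x w) = twΩ K x v w := by
  have h := twΩ_Sh K ξ x (Sh' K ξ x v) (Sh' K ξ x w)
  rw [Sh_Sh', Sh_Sh'] at h
  exact h.symm

theorem J0_J0 (x : S2 × (S2 × Y)) (v : TangentSpace ((𝓡 2).prod ((𝓡 2).prod I)) x) :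
    J0 K x (J0 K x v) = -v := by
  have h1 := jS_jS x.1 v.1
  have h2 := jS_jS x.2.1 v.2.1
  have h3 := K.J_J x.2.2 v.2.2
  exact Prod.ext h1 (Prod.ext h2 h3)

theorem twΩ_J0 (x : S2 × (S2 × Y)) (v w : TangentSpace ((𝓡 2).prod ((𝓡 2).prod I)) x) :
    twΩ K x (J0 K x v) (J0 K x w) = twΩ K x v w := by
  have h1 := sigma_jS_jS x.1 v.1 w.1
  have h2 := sigma_jS_jS x.2.1 v.2.1 w.2.1
  have h3 := K.Ω_J_J x.2.2 v.2.2 w.2.2
  rw [twΩ_apply, twΩ_apply]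
  exact congrArg₂ (· + ·) h1 (congrArg₂ (· + ·) h2 h3)

theorem sigma_nonneg (z : S2) (v : TangentSpace (𝓡 2) z) : 0 ≤ sigma z v (jS z v) := by
  by_cases h : v = 0
  · rw [h]; simp
  · exact (sigma_pos z v h).le

omit [IsManifold I ∞ Y] in
theorem Knonneg [IsManifold I ∞ Y] (K : AlmostKahler I Y) (y : Y) (v : TangentSpace I y) :
    0 ≤ K.Ω y v (K.J y v) := by
  by_cases h : v = 0
  · rw [h]; simp
  · exact (K.Ω_pos y v h).le

theorem twΩ_pos (x : S2 × (S2 × Y)) (v : TangentSpace ((𝓡 2).prod ((𝓡 2).prod I)) x) (hv : v ≠ 0) :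
    0 < twΩ K x v (J0 K x v) := by
  have a1 : 0 ≤ sigma x.1 v.1 (jS x.1 v.1) := sigma_nonneg x.1 v.1
  have a2 : 0 ≤ sigma x.2.1 v.2.1 (jS x.2.1 v.2.1) := sigma_nonneg x.2.1 v.2.1
  have a3 : 0 ≤ K.Ω x.2.2 v.2.2 (K.J x.2.2 v.2.2) := Knonneg K x.2.2 v.2.2
  have key : twΩ K x v (J0 K x v) = sigma x.1 v.1 (jS x.1 v.1) +
    (sigma x.2.1 v.2.1 (jS x.2.1 v.2.1) + K.Ω x.2.2 v.2.2 (K.J x.2.2 v.2.2)) := rfl
  rw [key]
  by_cases h1 : v.1 = 0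
  · by_cases h2 : v.2.1 = 0
    · have h3 : v.2.2 ≠ 0 := by
        intro h3
        exact hv (Prod.ext h1 (Prod.ext h2 h3))
      have := K.Ω_pos x.2.2 v.2.2 h3
      linarith
    · have := sigma_pos x.2.1 v.2.1 h2
      linarith
  · have := sigma_pos x.1 v.1 h1
    linarith

end twisted

section twisted

variable {E : Type*} [NormedAddCommGroup E] [NormedSpace ℝ E] {H : Type*} [TopologicalSpace H]
  {I : ModelWithCorners ℝ E H} {Y : Type*} [TopologicalSpace Y]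
  [ChartedSpace H Y] [IsManifold I ∞ Y]
  {EN : Type*} [NormedAddCommGroup EN] [NormedSpace ℝ EN] {HN : Type*} [TopologicalSpace HN]
  {IN : ModelWithCorners ℝ EN HN} {N : Type*} [TopologicalSpace N] [ChartedSpace HN N]

variable (K : AlmostKahler I Y) (ξ : S2 → ∀ y : Y, TangentSpace I y)

theorem smooth_Sh_along [I.Boundaryless] [FiniteDimensional ℝ E]
    (hξ : ContMDiff ((𝓡 2).prod I) I.tangent ∞
      (fun p : S2 × Y => (⟨p.2, ξ p.1 p.2⟩ : TangentBundle I Y)))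
    {a : N → S2 × (S2 × Y)} {v : ∀ n, TangentSpace ((𝓡 2).prod ((𝓡 2).prod I)) (a n)}
    (hv : ContMDiff IN ((𝓡 2).prod ((𝓡 2).prod I)).tangent ∞
      (fun n => (⟨a n, v n⟩ : TangentBundle ((𝓡 2).prod ((𝓡 2).prod I)) (S2 × (S2 × Y))))) :
    ContMDiff IN ((𝓡 2).prod ((𝓡 2).prod I)).tangent ∞
      (fun n => (⟨a n, Sh K ξ (a n) (v n)⟩ : TangentBundle ((𝓡 2).prod ((𝓡 2).prod I)) (S2 × (S2 × Y)))) := by
  have h1 := smooth_fst_prod hv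
  have h2' := smooth_snd_prod hv
  have h2 := smooth_fst_prod h2'
  have h3 := smooth_snd_prod h2'
  have b1 : ContMDiff IN (𝓡 2) ∞ (fun n => (a n).1) :=
    (contMDiff_proj (TangentSpace (𝓡 2) : S2 → Type _)).comp h1
  have b2 : ContMDiff IN (𝓡 2) ∞ (fun n => (a n).2.1) :=
    (contMDiff_proj (TangentSpace (𝓡 2) : S2 → Type _)).comp h2
  have b3 : ContMDiff IN I ∞ (fun n => (a n).2.2) :=
    (contMDiff_proj (TangentSpace I : Y → Type _)).comp h3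
  have hx : ContMDiff IN I.tangent ∞
      (fun n => (⟨(a n).2.2, ξ (a n).2.1 (a n).2.2⟩ : TangentBundle I Y)) :=
    hξ.comp (b2.prodMk b3)
  have hκ : ContMDiff IN 𝓘(ℝ, ℝ) ∞
      (fun n => -(K.Ω (a n).2.2 (ξ (a n).2.1 (a n).2.2) (v n).2.2)) :=
    (K.isClosedForm.smooth_along hx h3).neg
  have hZ : ContMDiff IN (𝓡 2).tangent ∞ (fun n => (⟨(a n).1, Zv (a n).1⟩ : TangentBundle (𝓡 2) S2)) :=
    smooth_Q b1 contMDiff_const
  have hht : ContMDiff IN 𝓘(ℝ, ℝ) ∞ (fun n => ht (a n).1 (v n).1) := by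
    have := smooth_Di h1
    exact ((EuclideanSpace.proj (2 : Fin 3) : E3 →L[ℝ] ℝ).contDiff.contMDiff).comp this
  have c1 := smooth_add h1 (smooth_smul hκ hZ)
  have c3 := smooth_add h3 (smooth_smul hht hx)
  exact (smooth_mk_prod c1 (smooth_mk_prod h2 c3)).congr fun n =>
    congrArg (fun t => (⟨a n, t⟩ : TangentBundle ((𝓡 2).prod ((𝓡 2).prod I)) (S2 × (S2 × Y))))
      (Sh_apply K ξ (a n) (v n))

theorem smooth_Sh'_along [I.Boundaryless] [FiniteDimensional ℝ E]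
    (hξ : ContMDiff ((𝓡 2).prod I) I.tangent ∞
      (fun p : S2 × Y => (⟨p.2, ξ p.1 p.2⟩ : TangentBundle I Y)))
    {a : N → S2 × (S2 × Y)} {v : ∀ n, TangentSpace ((𝓡 2).prod ((𝓡 2).prod I)) (a n)}
    (hv : ContMDiff IN ((𝓡 2).prod ((𝓡 2).prod I)).tangent ∞
      (fun n => (⟨a n, v n⟩ : TangentBundle ((𝓡 2).prod ((𝓡 2).prod I)) (S2 × (S2 × Y))))) :
    ContMDiff IN ((𝓡 2).prod ((𝓡 2).prod I)).tangent ∞
      (fun n => (⟨a n, Sh' K ξ (a n) (v n)⟩ : TangentBundle ((𝓡 2).prod ((𝓡 2).prod I)) (S2 × (S2 × Y)))) := by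
  have h1 := smooth_fst_prod hv
  have h2' := smooth_snd_prod hv
  have h2 := smooth_fst_prod h2'
  have h3 := smooth_snd_prod h2'
  have b1 : ContMDiff IN (𝓡 2) ∞ (fun n => (a n).1) :=
    (contMDiff_proj (TangentSpace (𝓡 2) : S2 → Type _)).comp h1
  have b2 : ContMDiff IN (𝓡 2) ∞ (fun n => (a n).2.1) :=
    (contMDiff_proj (TangentSpace (𝓡 2) : S2 → Type _)).comp h2
  have b3 : ContMDiff IN I ∞ (fun n => (a n).2.2) :=
    (contMDiff_proj (TangentSpace I : Y → Type _)).comp h3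
  have hx : ContMDiff IN I.tangent ∞
      (fun n => (⟨(a n).2.2, ξ (a n).2.1 (a n).2.2⟩ : TangentBundle I Y)) :=
    hξ.comp (b2.prodMk b3)
  have hκ : ContMDiff IN 𝓘(ℝ, ℝ) ∞
      (fun n => (K.Ω (a n).2.2 (ξ (a n).2.1 (a n).2.2) (v n).2.2)) :=
    (K.isClosedForm.smooth_along hx h3)
  have hZ : ContMDiff IN (𝓡 2).tangent ∞ (fun n => (⟨(a n).1, Zv (a n).1⟩ : TangentBundle (𝓡 2) S2)) :=
    smooth_Q b1 contMDiff_const
  have hht : ContMDiff IN 𝓘(ℝ, ℝ) ∞ (fun n => ht (a n).1 (v n).1) := by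
    have := smooth_Di h1
    exact ((EuclideanSpace.proj (2 : Fin 3) : E3 →L[ℝ] ℝ).contDiff.contMDiff).comp this
  have c1 := smooth_add h1 (smooth_smul hκ hZ)
  have c3 := smooth_add h3 (smooth_smul hht.neg hx)
  exact (smooth_mk_prod c1 (smooth_mk_prod h2 c3)).congr fun n =>
    congrArg (fun t => (⟨a n, t⟩ : TangentBundle ((𝓡 2).prod ((𝓡 2).prod I)) (S2 × (S2 × Y))))
      (Sh'_apply K ξ (a n) (v n))

theorem smooth_J0_along
    {a : N → S2 × (S2 × Y)} {v : ∀ n, TangentSpace ((𝓡 2).prod ((𝓡 2).prod I)) (a n)}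
    (hv : ContMDiff IN ((𝓡 2).prod ((𝓡 2).prod I)).tangent ∞
      (fun n => (⟨a n, v n⟩ : TangentBundle ((𝓡 2).prod ((𝓡 2).prod I)) (S2 × (S2 × Y))))) :
    ContMDiff IN ((𝓡 2).prod ((𝓡 2).prod I)).tangent ∞
      (fun n => (⟨a n, J0 K (a n) (v n)⟩ : TangentBundle ((𝓡 2).prod ((𝓡 2).prod I)) (S2 × (S2 × Y)))) := by
  have h1 := smooth_fst_prod hv
  have h2' := smooth_snd_prod hv
  have h2 := smooth_fst_prod h2'
  have h3 := smooth_snd_prod h2'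
  exact smooth_mk_prod (smooth_jS.comp h1) (smooth_mk_prod (smooth_jS.comp h2) (K.smooth_J.comp h3))

/-- The twisted almost Kähler structure. -/
noncomputable def twisted [I.Boundaryless] [FiniteDimensional ℝ E]
    (hξ : ContMDiff ((𝓡 2).prod I) I.tangent ∞
      (fun p : S2 × Y => (⟨p.2, ξ p.1 p.2⟩ : TangentBundle I Y))) :
    AlmostKahler ((𝓡 2).prod ((𝓡 2).prod I)) (S2 × (S2 × Y)) where
  Ω := twΩ K
  J := twJ K ξ
  isClosedForm := sigma_closed.prod (sigma_closed.prod K.isClosedForm)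
  smooth_J := by
    have h := smooth_Sh_along K ξ hξ (smooth_J0_along K (smooth_Sh'_along K ξ hξ
      (a := fun p : TangentBundle ((𝓡 2).prod ((𝓡 2).prod I)) (S2 × (S2 × Y)) => p.1)
      (v := fun p => p.2) contMDiff_id))
    exact h
  J_J x v := by
    rw [twJ_eq, twJ_eq, Sh'_Sh, J0_J0, map_neg, Sh_Sh']
  Ω_J_J x v w := by
    rw [twJ_eq, twJ_eq, twΩ_Sh, twΩ_J0, twΩ_Sh']
  Ω_pos x v hv := by
    have h0 : Sh' K ξ x v ≠ 0 := by
      intro h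
      apply hv
      rw [← Sh_Sh' K ξ x v, h, map_zero]
    have h1 := twΩ_pos K x _ h0
    have h2 := twΩ_Sh K ξ x (Sh' K ξ x v) (J0 K x (Sh' K ξ x v))
    rw [Sh_Sh'] at h2
    rw [twJ_eq, h2]
    exact h1

end twisted

section
variable {E : Type*} [NormedAddCommGroup E] [NormedSpace ℝ E] {H : Type*} [TopologicalSpace H]
  {I : ModelWithCorners ℝ E H} {X : Type*} [TopologicalSpace X]
  [ChartedSpace H X] [IsManifold I ∞ X]

/-- `J`-holomorphic maps from the Riemann sphere. -/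
structure IsJHolS (K : AlmostKahler I X) (u : S2 → X) : Prop where
  smooth : ContMDiff (𝓡 2) I ∞ u
  holo : ∀ (p : S2) (v w : TangentSpace (𝓡 2) p), Di p w = cross p (Di p v) →
    mfderiv (𝓡 2) I u p w = K.J (u p) (mfderiv (𝓡 2) I u p v)

theorem eq_jS {p : S2} {v w : TangentSpace (𝓡 2) p} (h : Di p w = cross p (Di p v)) :
    w = jS p v := by
  apply Di_injective p
  rw [h, Di_jS]

end

section
variable {E : Type*} [NormedAddCommGroup E] [NormedSpace ℝ E] {H : Type*} [TopologicalSpace H]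
  {I : ModelWithCorners ℝ E H} {Y : Type*} [TopologicalSpace Y]
  [ChartedSpace H Y] [IsManifold I ∞ Y] [I.Boundaryless] [FiniteDimensional ℝ E]
variable (K : AlmostKahler I Y) (ξ : S2 → ∀ y : Y, TangentSpace I y)
    (hξ : ContMDiff ((𝓡 2).prod I) I.tangent ∞
      (fun p : S2 × Y => (⟨p.2, ξ p.1 p.2⟩ : TangentBundle I Y)))

theorem lin_one {G : Type*} [NormedAddCommGroup G] [NormedSpace ℝ G] (L : ℝ →L[ℝ] G) (c : ℝ) :
    L c = c • L 1 := by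
  rw [← map_smul]; simp

theorem shear_mid {A B C : Type*} [NormedAddCommGroup A] [NormedSpace ℝ A] [NormedAddCommGroup B]
    [NormedSpace ℝ B] [NormedAddCommGroup C] [NormedSpace ℝ C]
    (α : A →L[ℝ] ℝ) (κ : C →L[ℝ] ℝ) (Z : A) (ξ : C) (b : B) :
    shear α κ Z ξ ((0, (b, 0)) : A × (B × C)) = (0, (b, 0)) := by
  simp [shear_apply]

theorem shear_left {A B C : Type*} [NormedAddCommGroup A] [NormedSpace ℝ A] [NormedAddCommGroup B]
    [NormedSpace ℝ B] [NormedAddCommGroup C] [NormedSpace ℝ C]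
    (α : A →L[ℝ] ℝ) (κ : C →L[ℝ] ℝ) (Z : A) (ξ : C) (a : A) :
    shear α κ Z ξ ((a, (0, 0)) : A × (B × C)) = (a, (0, α a • ξ)) := by
  simp [shear_apply]

omit [I.Boundaryless] [FiniteDimensional ℝ E] in
theorem twJ_fiber (x : S2 × (S2 × Y)) (b : TangentSpace (𝓡 2) x.2.1) :
    twJ K ξ x ((0, (b, 0)) : EuclideanSpace ℝ (Fin 2) × (EuclideanSpace ℝ (Fin 2) × E)) =
      ((0, (jS x.2.1 b, 0)) : EuclideanSpace ℝ (Fin 2) × (EuclideanSpace ℝ (Fin 2) × E)) := by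
  have h1 : Sh' K ξ x
      ((0, (b, 0)) : EuclideanSpace ℝ (Fin 2) × (EuclideanSpace ℝ (Fin 2) × E)) =
      ((0, (b, 0)) : EuclideanSpace ℝ (Fin 2) × (EuclideanSpace ℝ (Fin 2) × E)) :=
    shear_mid (A := EuclideanSpace ℝ (Fin 2)) (B := EuclideanSpace ℝ (Fin 2)) (C := E)
      (-(ht x.1)) (K.Ω x.2.2 (ξ x.2.1 x.2.2)) (Zv x.1) (ξ x.2.1 x.2.2) b
  have h2 : Sh K ξ x
      ((0, (jS x.2.1 b, 0)) : EuclideanSpace ℝ (Fin 2) × (EuclideanSpace ℝ (Fin 2) × E)) =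
      ((0, (jS x.2.1 b, 0)) : EuclideanSpace ℝ (Fin 2) × (EuclideanSpace ℝ (Fin 2) × E)) :=
    shear_mid (A := EuclideanSpace ℝ (Fin 2)) (B := EuclideanSpace ℝ (Fin 2)) (C := E)
      (ht x.1) (-(K.Ω x.2.2 (ξ x.2.1 x.2.2))) (Zv x.1) (ξ x.2.1 x.2.2) (jS x.2.1 b)
  have h3 : J0 K x ((0, (b, 0)) : EuclideanSpace ℝ (Fin 2) × (EuclideanSpace ℝ (Fin 2) × E)) =
      ((0, (jS x.2.1 b, 0)) : EuclideanSpace ℝ (Fin 2) × (EuclideanSpace ℝ (Fin 2) × E)) :=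
    Prod.ext (map_zero (jS x.1)) (Prod.ext rfl (map_zero (K.J x.2.2)))
  exact ((congrArg (fun t => Sh K ξ x (J0 K x t)) h1).trans (congrArg (Sh K ξ x) h3)).trans h2

omit [I.Boundaryless] [FiniteDimensional ℝ E] in
theorem Sh_leaf (x : S2 × (S2 × Y)) (a : TangentSpace (𝓡 2) x.1) :
    Sh K ξ x ((a, (0, 0)) : EuclideanSpace ℝ (Fin 2) × (EuclideanSpace ℝ (Fin 2) × E)) =
      ((a, (0, ht x.1 a • ξ x.2.1 x.2.2)) : TangentSpace (𝓡 2) x.1 × (TangentSpace (𝓡 2) x.2.1 × TangentSpace I x.2.2)) :=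
  shear_left (A := EuclideanSpace ℝ (Fin 2)) (B := EuclideanSpace ℝ (Fin 2)) (C := E)
      (ht x.1) (-(K.Ω x.2.2 (ξ x.2.1 x.2.2))) (Zv x.1) (ξ x.2.1 x.2.2) a

omit [I.Boundaryless] [FiniteDimensional ℝ E] in
theorem twJ_leaf (x : S2 × (S2 × Y)) (a : TangentSpace (𝓡 2) x.1) :
    twJ K ξ x ((a, (0, ht x.1 a • ξ x.2.1 x.2.2)) : TangentSpace (𝓡 2) x.1 × (TangentSpace (𝓡 2) x.2.1 × TangentSpace I x.2.2)) =
      ((jS x.1 a, (0, ht x.1 (jS x.1 a) • ξ x.2.1 x.2.2)) : TangentSpace (𝓡 2) x.1 × (TangentSpace (𝓡 2) x.2.1 × TangentSpace I x.2.2)) := by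
  have h1 := Sh_leaf K ξ x a
  have h2 := Sh_leaf K ξ x (jS x.1 a)
  have h3 : J0 K x ((a, (0, 0)) : EuclideanSpace ℝ (Fin 2) × (EuclideanSpace ℝ (Fin 2) × E)) =
      ((jS x.1 a, (0, 0)) : EuclideanSpace ℝ (Fin 2) × (EuclideanSpace ℝ (Fin 2) × E)) :=
    Prod.ext rfl (Prod.ext (map_zero (jS x.2.1)) (map_zero (K.J x.2.2)))
  have h4 := Sh'_Sh K ξ x ((a, (0, 0)) : EuclideanSpace ℝ (Fin 2) × (EuclideanSpace ℝ (Fin 2) × E))
  exact ((((congrArg (fun t => Sh K ξ x (J0 K x (Sh' K ξ x t))) h1.symm).trans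
    (congrArg (fun t => Sh K ξ x (J0 K x t)) h4))).trans (congrArg (Sh K ξ x) h3)).trans h2

theorem isJHol_fiber (z : S2) (y : Y) :
    IsJHolS (twisted K ξ hξ) (fun p : S2 => (z, (p, y))) where
  smooth := contMDiff_const.prodMk (contMDiff_id.prodMk contMDiff_const)
  holo p v w h := by
    have hw := eq_jS h
    subst hw
    have hd : HasMFDerivAt (𝓡 2) ((𝓡 2).prod ((𝓡 2).prod I)) (fun p : S2 => (z, (p, y))) p
        ((0 : TangentSpace (𝓡 2) p →L[ℝ] TangentSpace (𝓡 2) z).prod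
          ((ContinuousLinearMap.id ℝ (TangentSpace (𝓡 2) p)).prod
            (0 : TangentSpace (𝓡 2) p →L[ℝ] TangentSpace I y))) :=
      (hasMFDerivAt_const z p).prodMk ((hasMFDerivAt_id p).prodMk (hasMFDerivAt_const y p))
    rw [hd.mfderiv]
    exact (twJ_fiber K ξ (z, (p, y)) v).symm

theorem abs_two_le (p : S2) : |(p : E3) 2| ≤ 1 := by
  have h := s2_sq p
  rw [abs_le]
  constructor <;> nlinarith [sq_nonneg ((p : E3) 0), sq_nonneg ((p : E3) 1), sq_nonneg ((p : E3) 2)]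

theorem isJHol_leaf (f : S2) (γ : ℝ → Y) (hγ : ∀ p : S2, ContMDiffAt 𝓘(ℝ, ℝ) I ∞ γ ((p : E3) 2))
    (hγ' : ∀ p : S2, mfderiv 𝓘(ℝ, ℝ) I γ ((p : E3) 2) (1 : ℝ) = ξ f (γ ((p : E3) 2))) :
    IsJHolS (twisted K ξ hξ) (fun p : S2 => (p, (f, γ ((p : E3) 2)))) where
  smooth := by
    refine contMDiff_id.prodMk (contMDiff_const.prodMk ?_)
    intro p
    refine (hγ p).comp p ?_
    exact (((EuclideanSpace.proj (2 : Fin 3) : E3 →L[ℝ] ℝ).contDiff.contMDiff).comp contMDiff_coe_S2) p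
  holo p v w h := by
    have hw := eq_jS h
    subst hw
    have hi : HasMFDerivAt (𝓡 2) 𝓘(ℝ, E3) (fun x : S2 => (x : E3)) p (Di p) :=
      (contMDiff_coe_S2.mdifferentiableAt (by simp)).hasMFDerivAt
    have hpr : HasMFDerivAt 𝓘(ℝ, E3) 𝓘(ℝ, ℝ) (fun x : E3 => x 2) (p : E3)
        (EuclideanSpace.proj (2 : Fin 3) : E3 →L[ℝ] ℝ) :=
      (EuclideanSpace.proj (2 : Fin 3) : E3 →L[ℝ] ℝ).hasFDerivAt.hasMFDerivAt
    have hg : HasMFDerivAt 𝓘(ℝ, ℝ) I γ ((p : E3) 2) (mfderiv 𝓘(ℝ, ℝ) I γ ((p : E3) 2)) :=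
      ((hγ p).mdifferentiableAt (by simp)).hasMFDerivAt
    have hc := hg.comp p (hpr.comp p hi)
    have hd : HasMFDerivAt (𝓡 2) ((𝓡 2).prod ((𝓡 2).prod I)) (fun p : S2 => (p, (f, γ ((p : E3) 2)))) p
        ((ContinuousLinearMap.id ℝ (TangentSpace (𝓡 2) p)).prod
          ((0 : TangentSpace (𝓡 2) p →L[ℝ] TangentSpace (𝓡 2) f).prod
            ((mfderiv 𝓘(ℝ, ℝ) I γ ((p : E3) 2)).comp
              ((EuclideanSpace.proj (2 : Fin 3) : E3 →L[ℝ] ℝ).comp (Di p))))) :=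
      (hasMFDerivAt_id p).prodMk ((hasMFDerivAt_const f p).prodMk hc)
    rw [hd.mfderiv]
    have key : ∀ a : TangentSpace (𝓡 2) p, ((ContinuousLinearMap.id ℝ (TangentSpace (𝓡 2) p)).prod
          ((0 : TangentSpace (𝓡 2) p →L[ℝ] TangentSpace (𝓡 2) f).prod
            ((mfderiv 𝓘(ℝ, ℝ) I γ ((p : E3) 2)).comp
              ((EuclideanSpace.proj (2 : Fin 3) : E3 →L[ℝ] ℝ).comp (Di p))))) a =
        ((a, (0, ht p a • ξ f (γ ((p : E3) 2)))) : TangentSpace (𝓡 2) p × (TangentSpace (𝓡 2) f × TangentSpace I (γ ((p : E3) 2)))) := by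
      intro a
      have h1 : mfderiv 𝓘(ℝ, ℝ) I γ ((p : E3) 2) (ht p a) = ht p a • ξ f (γ ((p : E3) 2)) := by
        exact (lin_one (G := E) (mfderiv 𝓘(ℝ, ℝ) I γ ((p : E3) 2)) (ht p a)).trans
          (congrArg (fun t : E => ht p a • t) (hγ' p))
      exact Prod.ext rfl (Prod.ext rfl h1)
    exact (key _).trans ((twJ_leaf K ξ (p, (f, γ ((p : E3) 2))) v).symm.trans
      (congrArg (twJ K ξ (p, (f, γ ((p : E3) 2)))) (key v).symm))

end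

end Pool.Agent.LibRCAK
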